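import Pool.Agent.P.MP_08fd93_co.FP2.T13

/-! Frames with one orbit of short tails. -/

set_option autoImplicit false

namespace Pool.Agent.P.MP_08fd93_co.FP2

open OV PkPrtP FB FE FN

variable {J : Type} {G : TD J} {j : ℤ} {v z la lb lc ld e g k x y a b : Vx J} {φ : Vx J → Vx J}

/-- the cut at a level vertex is a rung exactly if the vertex has a lower neighbour -/
theorem ST.pure_iff (h : ST G) (hx : x ∈ G.L j) :
    G.an x ∈ G.V ↔ ∀ y ∈ G.L (j - 1), ¬ G.Γ.Adj x y :=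
  ⟨fun c => (h.tf.pure j x hx (h.pr x) c).1, fun c => by_contra fun n =>
    c _ (h.tf.an_l hx (h.pr x) n) (h.tf.aa j x hx (h.pr x)).1⟩

/-- the children of a neck -/
theorem ST.child_n (h : ST G) (hx : x ∈ G.L j) (hk : k ∈ G.V) (n : G.md k = k) :
    G.an x = k ↔ G.Γ.Adj x k ∧ G.an x ∈ G.V := by
  have a := (h.tf.aa j x hx (h.pr x)).1
  refine ⟨fun c => c ▸ ⟨a, c ▸ hk⟩, fun c => ?_⟩
  have m := (h.kq _ c.2 k hk x a c.1).trans n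
  exact ((h.tf.pure j x hx (h.pr x) c.2).2 (m ▸ c.1)).symm.trans m

/-- the children of a head -/
theorem ST.child_h (h : ST G) (hx : x ∈ G.L j) (hk : k ∈ G.V) (n : G.md k ≠ k) :
    G.an x = k ↔ G.Γ.Adj x k ∧ G.an x ∈ G.V ∧ ¬ G.Γ.Adj x (G.md k) := by
  have a := (h.tf.aa j x hx (h.pr x)).1
  refine ⟨fun c => c ▸ ⟨a, c ▸ hk, fun m => n (c ▸ (h.tf.pure j x hx (h.pr x) (c ▸ hk)).2 m)⟩,
    fun c => ?_⟩
  have m := h.kq _ c.2.1 k hk x a c.1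
  rcases h.tf.one _ c.2.1 k hk m with r | r | r
  exacts [r, absurd (m.symm.trans r ▸ a) c.2.2, absurd r n]

/-- between two neighbours of a static vertex on the line above all cuts pass it -/
theorem ST.link_btw (h : ST G) (hk : k ∈ G.V) (fk : G.f k = j) (ha : a ∈ G.L j) (hb : b ∈ G.L j)
    (ea : G.Γ.Adj a k) (eb : G.Γ.Adj b k) (hx : x ∈ G.L j) (l1 : G.ρ a < G.ρ x)
    (l2 : G.ρ x < G.ρ b) : k ∈ G.Ct x := by
  by_contra c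
  exact h.tf.btw ha hx (h.pr x) hb l1 l2 (E := {k}) (Set.singleton_subset_iff.2 (h.tf.v_st hk fk))
    (Set.finite_singleton k) (isConn_single k) ⟨k, rfl, ea⟩ ⟨k, rfl, eb⟩
    (Set.disjoint_singleton_left.2 c)

/-- the neighbours of a static vertex on the rows -/
theorem ST.k_nb (h : ST G) (hk : k ∈ G.V) (hy : y ∈ G.LA) (e : G.Γ.Adj k y) :
    G.f y = G.f k ∨ (G.md k = k ∧ (y = G.xl k ∨ y = G.xr k)) := by
  have R := h.tf.toRows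
  rcases R.att (h.tf.vst k hk) e with c | c | c
  · exfalso
    have := R.uw.ge _ _ c.1
    rcases eq_or_lt_of_le this with r | r
    exacts [c.2 (Or.inl (r ▸ hy)), c.2 (Or.inr (R.uw.mono _ _ (by omega) (R.l_u hy)))]
  · obtain ⟨m, l1, l2⟩ := h.tf.vx k hk y c e
    have := h.sh k hk
    refine Or.inr ⟨m, ?_⟩
    by_cases r : G.ρ y = G.ρ (G.xl k)
    exacts [Or.inl (R.inj c (h.tf.vl k hk).1 r), Or.inr (R.inj c (h.tf.vr k hk).1 (by omega))]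
  · exact Or.inl (R.uw.lf _ _ c)

theorem ST.ft_o (h : ST G) (c : G.an x ∉ G.V) : (FT G).an x = G.an x := (h.tf.xo _ c).1

theorem ST.ft_la (h : ST G) (hx : x ∈ G.LA) (n : ℕ) : (FT G).an^[n] x ∈ G.LA := by
  induction n with
  | zero => exact hx
  | succ n ih =>
    rw [Function.iterate_succ_apply']
    exact h.lay.la (h.lay.anL _ _ ih (h.pr _))

theorem ST.ft_tr (h : ST G) (c : ℤ × ℤ) (x : Vx J) (n : ℕ) :
    (FT G).an^[n] (tr c x) = tr c ((FT G).an^[n] x) := by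
  induction n with
  | zero => rfl
  | succ n ih => rw [Function.iterate_succ_apply', Function.iterate_succ_apply', ih,
      h.lay.atr c _ (h.pr _)]

/-- A frame whose static vertices are the translates of the head `v` and of the neck `z`; `la`,
`lb`, `lc`, `ld` name the top edges over the four edges at the tail. -/
structure TQ (G : TD J) (v z la lb lc ld : Vx J) : Prop where
  st : ST G
  eV : ∀ x, x ∈ G.V ↔ x.1 = v.1 ∨ x.1 = z.1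
  ne : v.1 ≠ z.1
  fv : G.f v = 1
  mv : G.md v = z
  ha : IsA G la ∧ G.nk (G.nx la) = z
  hb : IsB G lb ∧ G.an (G.nx lb) = v
  hc : IsC G lc ∧ G.an lc = v
  hd : IsD G ld ∧ G.nk ld = z
  n4 : ∀ j, 4 ≤ G.nn j
  acy : ∀ x ∈ G.LA, ∃ n, G.an ((FT G).an^[n] x) ∈ G.V
  kid : ∀ q ∈ G.L 0, G.Γ.Adj z q → ∃ n c, G.an ((FT G).an^[n] q) = tr c v

section

variable (h : TQ G v z la lb lc ld)
include h

theorem TQ.rows : FZ.Rows G.toFD := h.st.tf.toRows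

theorem TQ.vV : v ∈ G.V := (h.eV v).2 (Or.inl rfl)

theorem TQ.zV : z ∈ G.V := (h.eV z).2 (Or.inr rfl)

theorem TQ.mz : G.md z = z := h.mv ▸ h.st.tf.mm v

theorem TQ.hv : G.md v ≠ v := fun c => h.ne (by rw [← h.mv, c])

theorem TQ.vz : G.Γ.Adj v z := h.mv ▸ (h.st.tf.mv v h.vV).2.2.2.resolve_left h.hv

theorem TQ.fz : G.f z = 1 := h.mv ▸ (h.st.tf.mv v h.vV).2.1.trans h.fv

theorem TQ.xv : G.xl v = G.xl z ∧ G.xr v = G.xr z :=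
  h.mv ▸ ⟨(h.st.tf.xm v h.vV).1.symm, (h.st.tf.xm v h.vV).2.symm⟩

theorem TQ.md_v (c : ℤ × ℤ) : G.md (tr c v) = tr c z := by rw [(h.st.tf.xtr c v).2.2.2, h.mv]

theorem TQ.md_z (c : ℤ × ℤ) : G.md (tr c z) = tr c z := by rw [(h.st.tf.xtr c z).2.2.2, h.mz]

theorem TQ.k_tr (hk : k ∈ G.V) : ∃ c, k = tr c v ∨ k = tr c z :=
  ((h.eV k).1 hk).elim (fun m => ⟨_, Or.inl (FZ.orb_eq m)⟩) fun m => ⟨_, Or.inr (FZ.orb_eq m)⟩

/-- every static vertex belongs to a translate of the tail -/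
theorem TQ.k_x (hk : k ∈ G.V) : ∃ c, G.md k = tr c z ∧ G.xl k = tr c (G.xl z) ∧
    G.xr k = tr c (G.xr z) ∧ G.f k = 1 + G.η c := by
  obtain ⟨c, rfl | rfl⟩ := h.k_tr hk
  · exact ⟨c, h.md_v c, by rw [(h.st.tf.xtr c v).1, h.xv.1], by rw [(h.st.tf.xtr c v).2.1, h.xv.2],
      by rw [h.rows.wp.per, h.fv]⟩
  · exact ⟨c, h.md_z c, (h.st.tf.xtr c z).1, (h.st.tf.xtr c z).2.1, by rw [h.rows.wp.per, h.fz]⟩

theorem TQ.head (n : G.md k ≠ k) : ∃ c, k = tr c v := by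
  obtain ⟨c, rfl | rfl⟩ := h.k_tr (by_contra fun m => n (h.st.tf.xo k m).2.2)
  exacts [⟨c, rfl⟩, absurd (h.md_z c) n]

theorem TQ.la_nk (hy : y ∈ G.LA) : y.1 ≠ v.1 ∧ y.1 ≠ z.1 :=
  not_or.1 fun c => h.st.tf.l_nv hy ((h.eV y).2 c)

theorem TQ.odd (hk : k ∈ G.V) : Odd (G.f k) := by
  obtain ⟨c, -, -, -, m⟩ := h.k_x hk
  rw [m]
  exact (h.rows.wp.ev c).one_add

/-- the feet -/
theorem TQ.feet : (G.xl z ∈ G.L 0 ∧ G.Γ.Adj z (G.xl z)) ∧ (G.xr z ∈ G.L 0 ∧ G.Γ.Adj z (G.xr z)) ∧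
    (G.xr z = G.xl z ∨ G.xr z = G.nx (G.xl z)) ∧
      ∀ q ∈ G.L 0, G.Γ.Adj z q → q = G.xl z ∨ q = G.xr z := by
  have l := h.st.tf.vl z h.zV
  have r := h.st.tf.vr z h.zV
  have m := h.st.tf.vx z h.zV
  have s := h.st.sh z h.zV
  rw [h.fz, h.mz, sub_self] at l r
  rw [h.fz, sub_self] at m
  have := (m _ r.1 r.2).2.1
  obtain ⟨n1, n2, -⟩ := h.rows.nx_mem l.1
  refine ⟨l, r, ?_, fun q hq e => ?_⟩
  · by_cases c : G.ρ (G.xr z) = G.ρ (G.xl z)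
    exacts [Or.inl (h.rows.inj r.1 l.1 c), Or.inr (h.rows.inj r.1 n1 (by omega))]
  · have := (m q hq e).2
    by_cases c : G.ρ q = G.ρ (G.xl z)
    exacts [Or.inl (h.rows.inj hq l.1 c), Or.inr (h.rows.inj hq r.1 (by omega))]

theorem TQ.chd_iff : Chd G g ↔ G.xl z ≠ G.xr z ∧ g.1 = (G.xl z).1 := by
  constructor
  · rintro ⟨k, hk, rfl, n⟩
    obtain ⟨c, -, m1, m2, -⟩ := h.k_x hk
    rw [m1, m2] at n
    exact ⟨fun r => n (congrArg _ r), by rw [m1]; rfl⟩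
  · rintro ⟨n, m⟩
    refine ⟨tr (g.2 - (G.xl z).2) z, h.st.tf.vtr _ _ h.zV, ?_⟩
    rw [(h.st.tf.xtr _ z).1, (h.st.tf.xtr _ z).2.1]
    exact ⟨FZ.orb_eq m, fun r => n (tr_inj _ r)⟩

theorem TQ.nk_l (hx : x ∈ G.LA) (m : G.nk x = z) : x ∈ G.L 1 := by
  have := h.st.tf.nk_f hx (h.st.pr _) (h.st.tf.nk_v.1 (m ▸ h.zV))
  rw [m, h.fz] at this
  exact this ▸ hx

theorem TQ.nkb : G.nk (G.nx lb) = z := by rw [TD.nk, h.hb.2, h.mv]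

theorem TQ.nkc : G.nk lc = z := by rw [TD.nk, h.hc.2, h.mv]

/-- the four top edges lie on the line one in this order -/
theorem TQ.ord : la ∈ G.L 1 ∧ lb ∈ G.L 1 ∧ lc ∈ G.L 1 ∧ ld ∈ G.L 1 ∧ G.ρ la ≤ G.ρ lb ∧
    G.ρ lb < G.ρ lc ∧ G.ρ lc ≤ G.ρ ld ∧ G.ρ ld ≤ G.ρ la + G.nn 1 := by
  have R := h.rows
  have pre : ∀ y ∈ G.LA, G.nk (G.nx y) = z → y ∈ G.L 1 := fun y hy m => by
    have := (R.nx_mem hy).1
    rw [← R.uw.lf _ _ (h.nk_l (R.la this) m), R.uw.lf _ _ this]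
    exact hy
  have a1 := pre la h.ha.1.1 h.ha.2
  have b1 := pre lb h.hb.1.1 h.nkb
  have d1 := h.nk_l h.hd.1.1 h.hd.2
  obtain ⟨n1, n2, -⟩ := R.nx_mem b1
  have l1 := (h.st.isA_le h.ha.1 (R.la n1) (h.nkb.trans h.ha.2.symm)).2
  refine ⟨a1, b1, h.nk_l h.hc.1.1 h.nkc, d1, by omega,
    (h.st.isB_le h.hb.1 h.hc.1.1 (h.hc.2.trans h.hb.2.symm)).2,
    (h.st.isD_ge h.hd.1 h.hc.1.1 (h.nkc.trans h.hd.2.symm)).2, ?_⟩
  by_contra c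
  obtain ⟨m1, m2, -⟩ := R.nx_mem a1
  obtain ⟨w1, w2⟩ := h.st.lay.w_mem 1 m1
  have w1 : tr ((1 : ℤ) • G.w) (G.nx la) ∈ G.L 1 := w1
  have w2 : G.ρ (tr ((1 : ℤ) • G.w) (G.nx la)) = G.ρ (G.nx la) + 1 * G.nn 1 := w2
  have := h.n4 1
  have q := h.st.tf.btw_nk m1 (h.st.pr _) w1 (h.st.pr _) d1 (h.st.pr _) (by omega) (by omega)
    (h.ha.2.trans h.hd.2.symm) h.ha.1.2.1
  rw [h.st.tf.nk_tr, h.ha.2, one_smul] at q
  exact R.wp.w0 (tr_eq_tr (q.trans (tr_zero z).symm))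

/-- the vertices over the neck -/
theorem TQ.nk_iff (hx : x ∈ G.L 1) : G.nk x = z ↔ G.ρ la < G.ρ x ∧ G.ρ x ≤ G.ρ ld := by
  have R := h.rows
  obtain ⟨a1, -, -, d1, -⟩ := h.ord
  obtain ⟨m1, m2, -⟩ := R.nx_mem a1
  exact ⟨fun c => ⟨(h.st.isA_le h.ha.1 (R.la hx) (c.trans h.ha.2.symm)).2,
      (h.st.isD_ge h.hd.1 (R.la hx) (c.trans h.hd.2.symm)).2⟩,
    fun c => (h.st.tf.btw_nk m1 (h.st.pr _) hx (h.st.pr _) d1 (h.st.pr _) (by omega) c.2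
      (h.ha.2.trans h.hd.2.symm) h.ha.1.2.1).trans h.ha.2⟩

/-- the children of the head -/
theorem TQ.an_iff (hx : x ∈ G.L 1) : G.an x = v ↔ G.ρ lb < G.ρ x ∧ G.ρ x ≤ G.ρ lc := by
  have R := h.rows
  obtain ⟨-, b1, c1, -⟩ := h.ord
  obtain ⟨m1, m2, -⟩ := R.nx_mem b1
  refine ⟨fun c => ⟨(h.st.isB_le h.hb.1 (R.la hx) (c.trans h.hb.2.symm)).2,
    (h.st.isC_ge h.hc.1 (R.la hx) (c.trans h.hc.2.symm)).2⟩, fun c => ?_⟩
  exact h.st.tf.head (h.hb.2 ▸ h.st.tf.btw_an m1 (h.st.pr _) hx (h.st.pr _) c1 (h.st.pr _)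
    (by omega) c.2 (h.hb.2.trans h.hc.2.symm) (h.hb.2 ▸ h.vV)) h.hv

theorem TQ.isA (i : IsA G e) : ∃ c, e = tr c la ∧ G.nk (G.nx e) = tr c z ∧
    G.xl (G.an (G.nx e)) = tr c (G.xl z) := by
  obtain ⟨c, m, m', -⟩ := h.k_x i.2.1
  refine ⟨c, h.st.isA_uni (h.st.isA_tr c h.ha.1) i ?_, m, m'⟩
  rw [h.rows.nx_tr c h.ha.1.1, h.st.tf.nk_tr, h.ha.2]
  exact m

theorem TQ.isB (i : IsB G e) : ∃ c, e = tr c lb ∧ G.an (G.nx e) = tr c v ∧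
    G.nk (G.nx e) = tr c z := by
  obtain ⟨c, m⟩ := h.head i.2.1
  refine ⟨c, h.st.isB_uni (h.st.isB_tr c h.hb.1) i ?_, m, by rw [TD.nk, m, h.md_v]⟩
  rw [h.rows.nx_tr c h.hb.1.1, h.st.tf.atr, h.hb.2, m]

theorem TQ.isC (i : IsC G e) : ∃ c, e = tr c lc ∧ G.an e = tr c v ∧ G.nk e = tr c z := by
  obtain ⟨c, m⟩ := h.head i.2.1
  refine ⟨c, h.st.isC_uni (h.st.isC_tr c h.hc.1) i ?_, m, by rw [TD.nk, m, h.md_v]⟩
  rw [h.st.tf.atr, h.hc.2, m]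

theorem TQ.isD (i : IsD G e) : ∃ c, e = tr c ld ∧ G.nk e = tr c z ∧
    G.xr (G.an e) = tr c (G.xr z) := by
  obtain ⟨c, m, -, m', -⟩ := h.k_x i.2.1
  refine ⟨c, h.st.isD_uni (h.st.isD_tr c h.hd.1) i ?_, m, m'⟩
  rw [h.st.tf.nk_tr, h.hd.2]
  exact m

theorem TQ.x_nk (m : G.nk x = z) : G.xl (G.an x) = G.xl z ∧ G.xr (G.an x) = G.xr z :=
  h.st.tf.x_eq (m.trans h.mz.symm)

/-- the four edges at the tail lie on the bottoms of their basic cells -/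
theorem TQ.pe : s(z, G.xl z) ∈ PE G.Γ (Bd G la).X ∧ s(v, z) ∈ PE G.Γ (Bd G lb).X ∧
    s(v, z) ∈ PE G.Γ (Bd G lc).X ∧ s(z, G.xr z) ∈ PE G.Γ (Bd G ld).X := by
  have a := (h.st.ssA (P := ∅) (x := ⟨True, True, True, True⟩) h.ha.1 trivial).1
  have b := (h.st.ssB (P := ∅) (x := ⟨True, True, True, True⟩) h.hb.1 trivial).1
  have c := (h.st.ssC (P := ∅) (x := ⟨True, True, True, True⟩) h.hc.1 trivial).1
  have d := (h.st.ssD (P := ∅) (x := ⟨True, True, True, True⟩) h.hd.1 trivial).1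
  rw [h.ha.2, (h.x_nk h.ha.2).1] at a
  rw [h.hb.2, h.nkb] at b
  rw [h.hc.2, h.nkc] at c
  rw [h.hd.2, (h.x_nk h.hd.2).2] at d
  exact ⟨a, b, c, d⟩

/-- the strict edges under `e` -/
theorem TQ.ss_iff (hφ : FK.PH (FT G) G.Pr φ) (he : e ∈ G.LA) {P : Set (Vx J)} {x : Fl}
    {f : Sym2 (Vx J)} : f ∈ SST G P x e ↔
      (∃ g ∈ P, g ∈ G.LA ∧ φ g = e ∧ ¬ Chd G g ∧ f = s(g, G.nx g)) ∨ ∃ c,
        (x.a ∧ e = tr c la ∧ f = s(tr c z, tr c (G.xl z))) ∨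
        (x.b ∧ e = tr c lb ∧ f = s(tr c v, tr c z)) ∨ (x.c ∧ e = tr c lc ∧ f = s(tr c v, tr c z)) ∨
        (x.d ∧ e = tr c ld ∧ f = s(tr c z, tr c (G.xr z))) := by
  have T := h.st.tf
  rw [h.st.ss_iff hφ he]
  refine or_congr_right ⟨?_, ?_⟩
  · rintro (⟨r, i, m⟩ | ⟨r, i, m⟩ | ⟨r, i, m⟩ | ⟨r, i, m⟩)
    · obtain ⟨c, c1, c2, c3⟩ := h.isA i
      exact ⟨c, Or.inl ⟨r, c1, by rw [m, c2, c3]⟩⟩
    · obtain ⟨c, c1, c2, c3⟩ := h.isB i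
      exact ⟨c, Or.inr (Or.inl ⟨r, c1, by rw [m, c2, c3]⟩)⟩
    · obtain ⟨c, c1, c2, c3⟩ := h.isC i
      exact ⟨c, Or.inr (Or.inr (Or.inl ⟨r, c1, by rw [m, c2, c3]⟩))⟩
    · obtain ⟨c, c1, c2, c3⟩ := h.isD i
      exact ⟨c, Or.inr (Or.inr (Or.inr ⟨r, c1, by rw [m, c2, c3]⟩))⟩
  · rintro ⟨c, ⟨r, e1, m⟩ | ⟨r, e1, m⟩ | ⟨r, e1, m⟩ | ⟨r, e1, m⟩⟩
    · refine Or.inl ⟨r, e1 ▸ h.st.isA_tr c h.ha.1, ?_⟩
      rw [m, e1, h.rows.nx_tr c h.ha.1.1, T.nk_tr, T.atr, (T.xtr c _).1, h.ha.2, (h.x_nk h.ha.2).1]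
    · refine Or.inr (Or.inl ⟨r, e1 ▸ h.st.isB_tr c h.hb.1, ?_⟩)
      rw [m, e1, h.rows.nx_tr c h.hb.1.1, T.nk_tr, T.atr, h.hb.2, h.nkb]
    · refine Or.inr (Or.inr (Or.inl ⟨r, e1 ▸ h.st.isC_tr c h.hc.1, ?_⟩))
      rw [m, e1, T.nk_tr, T.atr, h.hc.2, h.nkc]
    · refine Or.inr (Or.inr (Or.inr ⟨r, e1 ▸ h.st.isD_tr c h.hd.1, ?_⟩))
      rw [m, e1, T.nk_tr, T.atr, (T.xtr c _).2.1, h.hd.2, (h.x_nk h.hd.2).2]

/-- the edges above the two sides of the tail -/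
theorem TQ.phi (hφ : FK.PH (FT G) G.Pr φ) (hg : g ∈ G.L 0) : φ g ∈ G.L 1 ∧
    (G.ρ g < G.ρ (G.xl z) → G.ρ (φ g) ≤ G.ρ la) ∧ (G.ρ (G.xl z) ≤ G.ρ g → G.ρ ld ≤ G.ρ (φ g)) := by
  obtain ⟨a1, -, -, d1, -⟩ := h.ord
  have R := h.rows
  refine ⟨?_, fun l => h.st.phi_le hφ h.ha.1.1 ?_ ?_, fun l => h.st.phi_ge hφ h.hd.1.1 ?_ ?_⟩
  · have := hφ.mem (R.la hg)
    rwa [show (FT G).f g = 0 from R.uw.lf _ _ hg] at this
  · rwa [R.uw.lf _ _ a1]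
  · rwa [(h.x_nk h.ha.2).1]
  · rwa [R.uw.lf _ _ d1]
  · rwa [(h.x_nk h.hd.2).1]

/-- no chain of parents on the rows returns to its orbit -/
theorem TQ.acyc (hx : x ∈ G.LA) {n : ℕ} (n0 : 0 < n)
    (k : ∀ i < n, G.an ((FT G).an^[i] x) ∉ G.V) : ((FT G).an^[n] x).1 ≠ x.1 := by
  intro e
  obtain ⟨m, hm⟩ := h.acy x hx
  induction m using Nat.strong_induction_on with
  | _ m ih =>
    by_cases l : m < n
    · exact k m l hm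
    obtain ⟨s, rfl⟩ := Nat.exists_eq_add_of_le' (not_lt.1 l)
    rw [Function.iterate_add_apply, FZ.orb_eq e, h.st.ft_tr, h.st.tf.atr] at hm
    exact ih s (by omega) ((h.st.tf.k_tr _ _).1 hm)

/-- every static vertex has a cut on a chain of parents that begins in a left foot -/
theorem TQ.kid' (hk : k ∈ G.V) :
    ∃ n c, (FT G).an^[n] (tr c (G.xl z)) ∈ G.LA ∧ k ∈ G.Ct ((FT G).an^[n] (tr c (G.xl z))) := by
  obtain ⟨n, c, m⟩ := h.kid _ h.feet.1.1 h.feet.1.2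
  obtain ⟨b, hb⟩ := h.k_tr hk
  refine ⟨n, b - c, h.st.ft_la ((h.st.lay.la_tr _ _).2 (h.rows.la h.feet.1.1)) n, ?_, hk⟩
  rw [h.st.ft_tr, h.st.tf.atr, m, tr_tr, add_sub_cancel, h.md_v]
  exact hb

end

variable {Γ : SimpleGraph (Vx J)} {η : ℤ × ℤ →+ ℤ} {p : Vx J} {ht : Vx J → ℤ} {an : Vx J → Vx J}

theorem Sl.n4 (s : Sl Γ η) {F : FD J} (R : FZ.Rows F) (e : F.Γ = Γ) (j : ℤ) : 4 ≤ F.nn j := by
  by_contra c
  have a : ∀ i, Γ.Adj (F.l j i) (F.l j (i + 1)) := fun i => e ▸ (R.adj j i _).2 (Or.inl rfl)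
  have n := R.n2 j
  have w := R.lw j 0
  have key : F.l j 0 = F.l j (0 + F.nn j) := by
    obtain m | m : F.nn j = 2 ∨ F.nn j = 3 := by omega
    · rw [m] at w ⊢
      exact s.near2 (by rw [← w]; rfl) (a 0) (a 1)
    · rw [m] at w ⊢
      exact s.near3 (by rw [← w]; rfl) (a 0) (a 1) (a 2)
  have := congrArg F.ρ key
  rw [R.rho, R.rho] at this
  omega

theorem tq_ex [Fintype J] (H : Fr2 Γ η v z ht an G) (T : TR Γ η v z p ht) (A : An2 Γ v z ht an)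
    (l : G.ρ (G.xr z) ≤ G.ρ (G.xl z) + 1) : ∃ la lb lc ld, TQ G v z la lb lc ld := by
  have st := st_of H T l
  have eV : ∀ x, x ∈ G.V ↔ x ∈ Kt v z := fun x => by rw [H.eV]
  have vV := (eV v).2 (Or.inl rfl)
  have hv : G.md v ≠ v := fun c => T.vz.ne (c.symm.trans H.mv)
  obtain ⟨⟨ld, -, d1, d2⟩, la, -, a1, a2⟩ := st.side_ex vV
  obtain ⟨⟨lc, -, c1, c2⟩, lb, -, b1, b2⟩ := st.head_ex vV hv
  have it : ∀ x n, (∀ i < n, an (an^[i] x) ∉ Kt v z) → (FT G).an^[n] x = an^[n] x := by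
    intro x n k
    induction n with
    | zero => rfl
    | succ n ih =>
      rw [Function.iterate_succ_apply', Function.iterate_succ_apply',
        ih fun i hi => k i (by omega), ← H.ea]
      exact st.ft_o (by rw [eV, H.ea]; exact k n (by omega))
  refine ⟨la, lb, lc, ld, st, eV, T.ne1, by rw [H.ef, T.fv], H.mv, ⟨a1, a2.trans H.mv⟩, ⟨b1, b2⟩,
    ⟨c1, c2⟩, ⟨d1, d2.trans H.mv⟩, T.toSl.n4 H.tf.toRows H.eΓ, fun x hx => ?_, fun q hq e => ?_⟩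
  · obtain ⟨n, -, h1, h2⟩ := FZ.chain_end T.fine T.per T.toSl.lt
      (Pr := {x | x ∉ Kt v z ∧ an x ∉ Kt v z}) (fun x hx => A.adj x hx.1) x
    refine ⟨n, ?_⟩
    rw [it x n fun i hi => (h1 i hi).2, eV, H.ea]
    refine by_contra fun c => h2 ⟨?_, c⟩
    cases n with
    | zero => exact fun m => H.tf.l_nv hx ((eV x).2 m)
    | succ n =>
      rw [Function.iterate_succ_apply']
      exact (h1 n (by omega)).2
  · rw [H.eΓ] at e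
    have qk : q ∉ Kt v z := fun m => H.tf.l_nv hq ((eV q).2 m)
    have g0 : ht q = 0 := by rw [← rz_n (g := ht) qk, ← H.ef]; exact H.tf.uw.lf _ _ hq
    have T' : TR Γ η v z q ht := ⟨T.toSl, T.vz, e, fun c => qk (Or.inl (c ▸ rfl)), T.ht, g0.le, T.nb⟩
    obtain ⟨n, c, -, h2, h3, h4, h5, h6⟩ := T'.chain (A.rp T)
    refine ⟨n, c, ?_⟩
    rw [it q n fun i hi => A.row _ (h2 i hi), H.ea]
    obtain ⟨k1, k2⟩ := A.adj _ (h3 n le_rfl).2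
    obtain ⟨b, m | m⟩ := kt_ex (show an (an^[n] q) ∈ Kt v z from by_contra fun m => h4 ⟨_, k1, k2, m⟩)
    · exact T.toSl.near2 (by rw [m]; rfl) k1.symm h5
    · have : an (an^[n] q) = tr c z :=
        T.toSl.near3 (by rw [m]; rfl) k1.symm h5 (T.fine.inv c _ _ T.vz)
      exact absurd (this ▸ k1) h6

end Pool.Agent.P.MP_08fd93_co.FP2
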