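import Pool.Agent.P.MP_08fd93_co.FP2.R3
import Pool.Agent.P.MP_08fd93_co.FR.Ori

/-! Short tails: protection of necks and feet is checked at one tail; directions of tokens. -/

set_option autoImplicit false

namespace Pool.Agent.P.MP_08fd93_co.FP2

open OV PkPrtP FB FE FN FK

variable {J : Type} {G : TD J} {j : ℤ} {v z la lb lc ld s s' t w k y : Vx J} {P Vs : Set (Vx J)}
  {x : Fl}

theorem ST.im_tr (h : ST G) (hs : s ∈ G.L j) (hs' : s' ∈ G.L j) (a : ℤ × ℤ) (w : Vx J) :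
    tr a w ∈ G.Im (tr a s) (tr a s') ↔ w ∈ G.Im s s' := by
  have T := h.tf
  unfold TD.Im
  rw [T.wp.per, T.atr, T.atr, (T.xtr a _).1, (T.xtr a _).2.1, T.uw.lf j s hs]
  exact T.cl_tr a (T.feet hs (h.pr s)).2.1 hs (T.feet hs' (h.pr s')).1 hs' w

theorem Iv.mv (h : ST G) (i : Iv G s s') (a : ℤ × ℤ) : Iv G (tr a s) (tr a s') := by
  have T := h.tf
  have := h.lay.rd a i.hs i.hs'
  have l := i.lt
  refine ⟨(h.lay.la_tr a s).2 i.hs, (h.lay.l_tr a s s').2 i.hs', ?_, fun k hk m => ?_, ?_⟩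
  · change G.ρ _ + G.ρ _ = G.ρ _ + G.ρ _ at this
    omega
  · obtain ⟨k, rfl⟩ := tr_surj a k
    rw [(T.xtr a k).2.2.1] at m
    rw [T.t_tr, T.t_tr]
    exact i.nov k ((T.k_tr a k).1 hk) ((h.lay.top_tr i.hs i.hs' a _).1 m)
  · rw [T.nk_tr, T.nk_tr]
    exact fun c => i.ne (tr_inj a c)

theorem Hub.mv (h : ST G) (i : Iv G s s') (m : Hub G s s' k y) (a : ℤ × ℤ) :
    Hub G (tr a s) (tr a s') (tr a k) (tr a y) := by
  obtain ⟨w, m, e, e'⟩ := m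
  refine ⟨tr a w, m.imp (h.im_tr i.hs i.hs' a w).2 fun c => ?_, h.tf.wp.fine.inv a _ _ e,
    h.tf.wp.fine.inv a _ _ e'⟩
  have a1 := h.lay.rd a i.hs c.1
  have a2 := h.lay.rd a i.hs' c.1
  change G.ρ _ + G.ρ _ = G.ρ _ + G.ρ _ at a1 a2
  exact ⟨(h.lay.l_tr a s w).2 c.1, by omega, by omega⟩

theorem ST.hub_tr (h : ST G) (i : Iv G s s') (a : ℤ × ℤ) :
    Hub G (tr a s) (tr a s') (tr a k) (tr a y) ↔ Hub G s s' k y :=
  ⟨fun m => by simpa only [tr_neg] using m.mv h (i.mv h a) (-a), fun m => m.mv h i a⟩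

section

variable (h : ST G) (hs : s ∈ G.LA) (a : ℤ × ℤ) (iV : ∀ a, ∀ t ∈ Vs, tr a t ∈ Vs)
include h hs iV

theorem ST.vs_tr {R : Vx J → Prop} {Q : ℤ → ℤ → Prop} (q : ∀ i i' c, Q i i' → Q (i + c) (i' + c))
    (r : ∃ t ∈ Vs, t ∈ G.L (G.f s) ∧ Q (G.ρ s) (G.ρ t) ∧ R (tr a t)) :
    ∃ t ∈ Vs, t ∈ G.L (G.f (tr a s)) ∧ Q (G.ρ (tr a s)) (G.ρ t) ∧ R t := by
  obtain ⟨t, t1, t2, t3, t4⟩ := r
  obtain ⟨κ, hκ⟩ := h.tf.toRows.rho_tr a (G.f s)
  refine ⟨tr a t, iV a t t1, (h.lay.l_tr a s t).2 t2, ?_, t4⟩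
  rw [(hκ s hs).2, (hκ t t2).2]
  exact q _ _ _ t3

theorem ZR.mv (m : ZR G Vs x s) : ZR G Vs x (tr a s) := by
  refine m.imp (fun c => by rw [h.tf.nk_tr, h.tf.atr, c]) (Or.imp_right (Or.imp_right fun c =>
    h.vs_tr hs a iV (Q := fun i i' => i < i') (fun _ _ _ _ => by omega) ?_))
  simpa only [h.tf.nk_tr, (tr_inj a).eq_iff] using c

theorem ZL.mv (m : ZL G Vs x s) : ZL G Vs x (tr a s) := by
  refine m.imp (fun c => by rw [h.tf.nk_tr, h.tf.atr, c]) (Or.imp_right (Or.imp_right fun c =>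
    h.vs_tr hs a iV (Q := fun i i' => i' < i) (fun _ _ _ _ => by omega) ?_))
  simpa only [h.tf.nk_tr, (tr_inj a).eq_iff] using c

variable (iP : ∀ a, ∀ t ∈ P, tr a t ∈ P)
include iP

theorem QR.mv (m : QR G P Vs x s) : QR G P Vs x (tr a s) := by
  refine m.imp_right (Or.imp (fun c => ?_) fun c =>
    h.vs_tr hs a iV (Q := fun i i' => i < i') (fun _ _ _ _ => by omega) ?_)
  · rw [h.tf.atr, (h.tf.xtr a _).2.1]
    exact iP a _ c
  · simpa only [h.tf.atr, (h.tf.xtr a _).2.1, (tr_inj a).eq_iff] using c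

theorem QL.mv (m : QL G P Vs x s) : QL G P Vs x (tr a s) := by
  refine m.imp_right (Or.imp (fun c => ?_) fun c =>
    h.vs_tr hs a iV (Q := fun i i' => i' < i) (fun _ _ _ _ => by omega) ?_)
  · obtain ⟨g, g1, g2, g3⟩ := c
    exact ⟨tr a g, iP a g g1, (h.lay.la_tr a g).2 g2, by
      rw [h.tf.atr, (h.tf.xtr a _).1, h.tf.toRows.nx_tr a g2, g3]⟩
  · simpa only [h.tf.atr, (h.tf.xtr a _).1, (tr_inj a).eq_iff] using c

end

section

variable (h : TQ G v z la lb lc ld) (iV : ∀ a, ∀ t ∈ Vs, tr a t ∈ Vs)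
  (iP : ∀ a, ∀ t ∈ P, tr a t ∈ P)
include h

/-- a level vertex with a static parent is a translate of a vertex over `z` -/
theorem TQ.base (hs : s ∈ G.LA) (m : G.an s ∈ G.V) :
    ∃ a t, s = tr a t ∧ t ∈ G.L 1 ∧ G.nk t = z ∧ (G.an t = v ∨ G.an t = z) := by
  obtain ⟨a, c⟩ := h.k_tr m
  obtain ⟨t, rfl⟩ := tr_surj a s
  rw [h.st.tf.atr, (tr_inj a).eq_iff, (tr_inj a).eq_iff] at c
  have : G.nk t = z := c.elim (fun c => by rw [TD.nk, c, h.mv]) fun c => by rw [TD.nk, c, h.mz]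
  exact ⟨a, t, rfl, h.nk_l ((h.st.lay.la_tr a t).1 hs) this, this, c⟩

include iV iP

/-- the right side is checked at the tail `v`, `z` -/
theorem TQ.keepR_of (K : ∀ s ∈ G.L 1, ∀ s' ∈ G.L 1, Iv G s s' → G.nk s = z →
      (ZR G Vs x s ∨ ¬ Hub G s s' v (G.xr z)) ∧ (QR G P Vs x s ∨ ∀ y ∈ G.L 0,
        G.ρ (G.xr z) < G.ρ y → (ZR G Vs x s ∨ ¬ Hub G s s' v y) ∧ ¬ Hub G s s' z y)) :
    KeepR G P Vs x := by
  intro s s' i m
  have S := h.st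
  obtain ⟨a, s, rfl, hs, n, c⟩ := h.base i.hs m
  obtain ⟨s', rfl⟩ := tr_surj a s'
  have i0 : Iv G s s' := by simpa only [tr_neg] using i.mv S (-a)
  have f1 := h.rows.uw.lf _ _ hs
  obtain ⟨k1, k2⟩ := K s hs s' (f1 ▸ i0.hs') i0 n
  have zz : ∀ y, (ZR G Vs x s ∨ ¬ Hub G s s' v y) → ZR G Vs x (tr a s) ∨
      ¬ Hub G (tr a s) (tr a s') (tr a (G.an s)) (tr a y) := fun y k => by
    rcases c with c | c
    · rw [S.hub_tr i0, c]
      exact k.imp_left fun k => k.mv S i0.hs a iV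
    · exact Or.inl (ZR.mv S i0.hs a iV (Or.inl (n.trans c.symm)))
  rw [S.tf.nk_tr, S.tf.atr, (S.tf.xtr a _).2.1, (h.x_nk n).2, n]
  refine ⟨zz _ k1, k2.imp (fun k => k.mv S i0.hs a iV iP) fun k y hy l => ?_⟩
  obtain ⟨y, rfl⟩ := tr_surj a y
  have m0 : y ∈ G.L 0 := by simpa only [FT, TD.F, f1, sub_self] using (S.lay.l_tr' a s y).1 hy
  have := S.lay.rd a m0 h.feet.2.1.1
  change G.ρ _ + G.ρ _ = G.ρ _ + G.ρ _ at this
  have := k y m0 (by omega)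
  exact ⟨zz y this.1, fun q => this.2 ((S.hub_tr i0 a).1 q)⟩

/-- the left side is checked at the tail `v`, `z` -/
theorem TQ.keepL_of (K : ∀ s ∈ G.L 1, ∀ s' ∈ G.L 1, Iv G s s' → G.nk s' = z →
      (ZL G Vs x s' ∨ ¬ Hub G s s' v (G.xl z)) ∧ (QL G P Vs x s' ∨ ∀ y ∈ G.L 0,
        G.ρ y < G.ρ (G.xl z) → (ZL G Vs x s' ∨ ¬ Hub G s s' v y) ∧ ¬ Hub G s s' z y)) :
    KeepL G P Vs x := by
  intro s s' i m
  have S := h.st
  obtain ⟨a, s', rfl, hs, n, c⟩ := h.base (h.rows.la i.hs') m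
  obtain ⟨s, rfl⟩ := tr_surj a s
  have i0 : Iv G s s' := by simpa only [tr_neg] using i.mv S (-a)
  have f1 : G.f s = 1 := (h.rows.uw.lf _ _ i0.hs').symm.trans (h.rows.uw.lf _ _ hs)
  have l' := h.rows.la hs
  obtain ⟨k1, k2⟩ := K s (f1 ▸ i0.hs) s' hs i0 n
  have zz : ∀ y, (ZL G Vs x s' ∨ ¬ Hub G s s' v y) → ZL G Vs x (tr a s') ∨
      ¬ Hub G (tr a s) (tr a s') (tr a (G.an s')) (tr a y) := fun y k => by
    rcases c with c | c
    · rw [S.hub_tr i0, c]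
      exact k.imp_left fun k => k.mv S l' a iV
    · exact Or.inl (ZL.mv S l' a iV (Or.inl (n.trans c.symm)))
  rw [S.tf.nk_tr, S.tf.atr, (S.tf.xtr a _).1, (h.x_nk n).1, n]
  refine ⟨zz _ k1, k2.imp (fun k => k.mv S l' a iV iP) fun k y hy l => ?_⟩
  obtain ⟨y, rfl⟩ := tr_surj a y
  have m0 : y ∈ G.L 0 := by simpa only [FT, TD.F, f1, sub_self] using (S.lay.l_tr' a s y).1 hy
  have := S.lay.rd a m0 h.feet.1.1
  change G.ρ _ + G.ρ _ = G.ρ _ + G.ρ _ at this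
  have := k y m0 (by omega)
  exact ⟨zz y this.1, fun q => this.2 ((S.hub_tr i0 a).1 q)⟩

/-- the right foot is pinned and no hub joins it to the head -/
theorem TQ.keepR_hub (g : G.xr z ∈ P)
    (n : ∀ s s', Iv G s s' → G.an s = v → ¬ Hub G s s' v (G.xr z)) : KeepR G P Vs x := by
  refine h.keepR_of iV iP fun s hs s' _ i m => ⟨?_, Or.inl (Or.inr (Or.inl ((h.x_nk m).2 ▸ g)))⟩
  by_cases c : G.nk s = G.an s
  · exact Or.inl (Or.inl c)
  · obtain ⟨a, e⟩ := h.head (k := G.an s) c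
    have := m.symm.trans (show G.nk s = tr a z by rw [TD.nk, e, h.md_v])
    rw [tr_eq_self this.symm, tr_zero] at e
    exact Or.inr (n s s' i e)

end

section

variable {F : FD J} {X : XD J} {Pr Src Snk : Set (Vx J)} (hF : Lay F X Pr)
include hF

/-- no source before the next sink: the token points to the right -/
theorem as_win (hy : y ∈ F.L j) (ht : t ∈ F.L j) (l : F.ρ y ≤ F.ρ t) (m : t ∈ Snk)
    (n : ∀ g ∈ F.L j, F.ρ y ≤ F.ρ g → F.ρ g < F.ρ t → g ∉ Src) : y ∈ AS F Src Snk := by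
  obtain ⟨k, rfl, e⟩ := sh_of_le hF hy ht l
  refine ⟨k, m, fun k' c => ?_⟩
  obtain ⟨a1, a2⟩ := sh_mem hF y k'
  exact n _ (hF.lf j y hy ▸ a1) (by omega) (by omega)

/-- no sink before the next source: the token points to the left -/
theorem as_not (hy : y ∈ F.L j) (ht : t ∈ F.L j) (l : F.ρ y ≤ F.ρ t) (m : t ∈ Src)
    (n : ∀ g ∈ F.L j, F.ρ y ≤ F.ρ g → F.ρ g ≤ F.ρ t → g ∉ Snk) : y ∉ AS F Src Snk := by
  rintro ⟨k', h1, h2⟩
  obtain ⟨k, rfl, e⟩ := sh_of_le hF hy ht l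
  obtain ⟨a1, a2⟩ := sh_mem hF y k'
  rcases le_or_gt k' k with c | c
  exacts [n _ (hF.lf j y hy ▸ a1) (by omega) (by omega) h1, h2 k c m]

/-- the token at the right end of the only source of a row with a sink points to the right -/
theorem as_after (hy : y ∈ F.L j) (one : ∀ g ∈ F.L j, g ∈ Src → g.1 = y.1) (ht : t ∈ F.L j)
    (n : t.1 ≠ y.1) (m : ∀ g ∈ F.L j, g.1 = t.1 → g ∈ Snk) : F.nx y ∈ AS F Src Snk := by
  obtain ⟨k, k1, k2⟩ := window hF ht (F.ρ y)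
  have m1 := (hF.w_mem k ht).1
  obtain ⟨n1, n2, -⟩ := hF.nx_mem hy
  have : F.ρ y ≠ F.ρ (tr (k • F.w) t) := fun q => n (by rw [hF.inj hy m1 q]; rfl)
  refine as_win hF n1 m1 (by omega) (m _ m1 rfl) fun g hg l1 l2 c => ?_
  obtain ⟨i, -, e⟩ := same_cls hF hy hg (one g hg c).symm
  have := hF.n2 j
  rcases le_or_gt i 0 with c | c <;> nlinarith

end

end Pool.Agent.P.MP_08fd93_co.FP2
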