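import Pool.Agent.P.MP_08fd93_co.FZ.Strip
import Pool.Agent.P.MP_08fd93_co.OV.PkKer

/-! Depth two: two adjacent roots, both raised by one; the level sets are lines. -/

set_option autoImplicit false

namespace Pool.Agent.P.MP_08fd93_co.FP2

open OV FZ

variable {J : Type} {Γ : SimpleGraph (Vx J)} {η : ℤ × ℤ →+ ℤ} {v z p x y : Vx J} {g : Vx J → ℤ}

/-- Slack two; no short closed walk of a nonzero class. -/
structure Sl (Γ : SimpleGraph (Vx J)) (η : ℤ × ℤ →+ ℤ) : Prop where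
  fine : Fine Γ
  ev : ∀ a, Even (η a)
  sl : ∀ x a, a ≠ 0 → η a + 2 ≤ (Γ.dist x (tr a x) : ℤ)
  d4 : ∀ x a, a ≠ 0 → 4 ≤ Γ.dist x (tr a x)

/-- Two roots `v`, `z`; `p` anchors `z`; no other neighbour of `v` is low. -/
structure TR (Γ : SimpleGraph (Vx J)) (η : ℤ × ℤ →+ ℤ) (v z p : Vx J) (g : Vx J → ℤ) : Prop
    extends Sl Γ η where
  vz : Γ.Adj v z
  zp : Γ.Adj z p
  pv : p ≠ v
  ht : IsH Γ η {v, z} (fun _ => 0) g
  gp : g p ≤ 0
  nb : ∀ u, Γ.Adj v u → u ≠ z → 1 ≤ g u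

/-- The translates of the two roots. -/
def Kt (v z : Vx J) : Set (Vx J) := {x | x.1 = v.1 ∨ x.1 = z.1}

open Classical in
/-- The height with the two roots raised. -/
noncomputable def rz (v z : Vx J) (g : Vx J → ℤ) (x : Vx J) : ℤ :=
  if x ∈ Kt v z then g x + 1 else g x

theorem rz_k (hx : x ∈ Kt v z) : rz v z g x = g x + 1 := if_pos hx

theorem rz_n (hx : x ∉ Kt v z) : rz v z g x = g x := if_neg hx

theorem rz_ge (x : Vx J) : g x ≤ rz v z g x := by
  by_cases c : x ∈ Kt v z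
  · rw [rz_k c]
    omega
  · rw [rz_n c]

theorem kt_tr (a : ℤ × ℤ) (x : Vx J) : tr a x ∈ Kt v z ↔ x ∈ Kt v z := Iff.rfl

theorem kt_v (a : ℤ × ℤ) : tr a v ∈ Kt v z := Or.inl rfl

theorem kt_z (a : ℤ × ℤ) : tr a z ∈ Kt v z := Or.inr rfl

theorem kt_ex (hx : x ∈ Kt v z) : ∃ a, x = tr a v ∨ x = tr a z :=
  hx.elim (fun e => ⟨_, Or.inl (eq_tr e.symm)⟩) fun e => ⟨_, Or.inr (eq_tr e.symm)⟩

theorem Sl.near (h : Sl Γ η) (e : x.1 = y.1) (d : Γ.dist x y ≤ 3) : x = y := by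
  have e' := eq_tr e
  by_contra hne
  have := h.d4 x (y.2 - x.2) fun k => hne (by rw [e', k, tr_zero])
  rw [← e'] at this
  omega

theorem Sl.nl (h : Sl Γ η) : NL Γ := fun _ _ e k =>
  e.ne (h.near k (by rw [dist_adj e]; omega))

theorem Sl.near2 (h : Sl Γ η) {u : Vx J} (e : x.1 = y.1) (a : Γ.Adj x u) (b : Γ.Adj u y) :
    x = y := by
  have := dist_tri h.fine.pl x u y
  rw [dist_adj a, dist_adj b] at this
  exact h.near e (by omega)

theorem Sl.near3 (h : Sl Γ η) {u u' : Vx J} (e : x.1 = y.1) (a : Γ.Adj x u) (b : Γ.Adj u u')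
    (c : Γ.Adj u' y) : x = y := by
  have h1 := dist_tri h.fine.pl x u y
  have h2 := dist_tri h.fine.pl u u' y
  rw [dist_adj a] at h1
  rw [dist_adj b, dist_adj c] at h2
  exact h.near e (by omega)

theorem Sl.back (h : Sl Γ η) (x : Vx J) {a : ℤ × ℤ} (ha : a ≠ 0) :
    2 ≤ η a + (Γ.dist (tr a x) x : ℤ) := by
  have := h.sl (tr a x) (-a) (neg_ne_zero.2 ha)
  rw [tr_neg, map_neg] at this
  omega

theorem Sl.le (h : Sl Γ η) (x : Vx J) (a : ℤ × ℤ) : η a ≤ (Γ.dist x (tr a x) : ℤ) := by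
  by_cases c : a = 0
  · rw [c, map_zero]
    omega
  · have := h.sl x a c
    omega

theorem Sl.lt (h : Sl Γ η) (x : Vx J) (a : ℤ × ℤ) (c : a ≠ 0) :
    η a < (Γ.dist x (tr a x) : ℤ) := by
  have := h.sl x a c
  omega

/-- both roots have height zero and no parent -/
theorem Sl.root (h : Sl Γ η) (e : Γ.Adj v z) (ht : IsH Γ η {v, z} (fun _ => 0) g) :
    g v = 0 ∧ ¬ Hp Γ g v := by
  refine ht.strict h.fine (Or.inl rfl) ?_ ?_
  · rintro r (rfl | rfl) a ne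
    · have := h.back r (a := a) fun k => ne (by rw [k, tr_zero])
      omega
    · by_cases c : a = 0
      · rw [c, tr_zero, map_zero, dist_adj e.symm]
        omega
      · have h1 := h.back r c
        have h2 := dist_tri h.fine.pl (tr a r) v r
        rw [dist_adj e] at h2
        omega
  · rintro r (rfl | rfl) a k
    · rw [tr_eq_self k, map_zero]
      omega
    · exact absurd (congrArg Prod.fst k).symm (h.nl v r e)

theorem TR.gv (h : TR Γ η v z p g) : g v = 0 := (h.toSl.root h.vz h.ht).1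

theorem TR.gz (h : TR Γ η v z p g) : g z = 0 :=
  (h.toSl.root h.vz.symm (Set.pair_comm v z ▸ h.ht)).1

theorem TR.per (h : TR Γ η v z p g) (a : ℤ × ℤ) (x : Vx J) : g (tr a x) = g x + η a :=
  h.ht.per h.fine a x

theorem TR.lip (h : TR Γ η v z p g) (e : Γ.Adj x y) : g y ≤ g x + 1 := h.ht.lip h.fine x y e

theorem TR.ne1 (h : TR Γ η v z p g) : v.1 ≠ z.1 := h.toSl.nl _ _ h.vz

/-- the neighbours of a translate of a root are not lower -/
theorem TR.nolow (h : TR Γ η v z p g) (hx : x ∈ Kt v z) (e : Γ.Adj x y) : g x ≤ g y := by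
  have h1 : ¬ Hp Γ g x := by
    obtain ⟨a, rfl | rfl⟩ := kt_ex hx
    exacts [fun k => (h.toSl.root h.vz h.ht).2 ((Hp.tr h.fine h.per a v).1 k),
      fun k => (h.toSl.root h.vz.symm (Set.pair_comm v z ▸ h.ht)).2 ((Hp.tr h.fine h.per a z).1 k)]
  have h2 := h.lip e.symm
  by_contra hc
  exact h1 ⟨y, e, by omega⟩

theorem TR.fper (h : TR Γ η v z p g) (a : ℤ × ℤ) (x : Vx J) :
    rz v z g (tr a x) = rz v z g x + η a := by
  by_cases c : x ∈ Kt v z
  · rw [rz_k c, rz_k ((kt_tr a x).2 c), h.per]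
    ring
  · rw [rz_n c, rz_n (mt (kt_tr a x).1 c), h.per]

theorem TR.flip (h : TR Γ η v z p g) (e : Γ.Adj x y) : rz v z g y ≤ rz v z g x + 1 := by
  have h1 := rz_ge (v := v) (z := z) (g := g) x
  by_cases c : y ∈ Kt v z
  · have := h.nolow c e.symm
    rw [rz_k c]
    omega
  · have := h.lip e
    rw [rz_n c]
    omega

/-- the neighbours of a raised root are not higher -/
theorem TR.nohigh (h : TR Γ η v z p g) (hx : x ∈ Kt v z) (e : Γ.Adj x y) :
    rz v z g y ≤ rz v z g x := by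
  rw [rz_k hx]
  by_cases c : y ∈ Kt v z
  · have := h.nolow c e.symm
    rw [rz_k c]
    omega
  · rw [rz_n c]
    exact h.lip e

theorem TR.fv (h : TR Γ η v z p g) : rz v z g v = 1 := by
  rw [rz_k (Or.inl rfl), h.gv]
  rfl

theorem TR.fz (h : TR Γ η v z p g) : rz v z g z = 1 := by
  rw [rz_k (Or.inr rfl), h.gz]
  rfl

/-- the only neighbour of `v` among the translates of the roots is `z` -/
theorem TR.kv (h : TR Γ η v z p g) (e : Γ.Adj v x) (hx : x ∈ Kt v z) : x = z :=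
  hx.elim (fun k => absurd k.symm (h.toSl.nl _ _ e)) fun k => h.toSl.near2 k e.symm h.vz

theorem TR.kz (h : TR Γ η v z p g) (e : Γ.Adj z x) (hx : x ∈ Kt v z) : x = v :=
  hx.elim (fun k => h.toSl.near2 k e.symm h.vz.symm) fun k => absurd k.symm (h.toSl.nl _ _ e)

theorem TR.pk (h : TR Γ η v z p g) : p ∉ Kt v z := fun k => h.pv (h.kz h.zp k)

theorem TR.g0 (h : TR Γ η v z p g) : g p = 0 := by
  have := h.nolow (Or.inr rfl) h.zp
  have := h.gz
  have := h.gp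
  omega

theorem TR.fp (h : TR Γ η v z p g) : rz v z g p = 0 := by rw [rz_n h.pk, h.g0]

/-- all neighbours of `v` have the raised height one -/
theorem TR.fnb (h : TR Γ η v z p g) (e : Γ.Adj v x) : rz v z g x = 1 := by
  by_cases c : x = z
  · rw [c, h.fz]
  · have h1 := h.nb x e c
    have h2 := h.lip e
    rw [h.gv] at h2
    rw [rz_n fun k => c (h.kv e k)]
    omega

/-- a vertex off the roots has a parent -/
theorem TR.par (h : TR Γ η v z p g) (hx : x ∉ Kt v z) : Hp Γ g x := by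
  refine (h.ht.par h.fine x).resolve_right ?_
  rintro ⟨_, rfl | rfl, a, rfl, -⟩
  exacts [hx (kt_v a), hx (kt_z a)]

/-- from a root one walks down along the tail -/
theorem TR.tail (h : TR Γ η v z p g) (hx : x ∈ Kt v z) {A : Set (Vx J)}
    (hA : ∀ y, (y ∈ Kt v z ∧ rz v z g y = rz v z g x) ∨ rz v z g y < rz v z g x → y ∈ A) :
    ∃ y, rz v z g y < rz v z g x ∧ Conn Γ A y x := by
  have key : ∀ a, rz v z g x = 1 + η a → rz v z g (tr a p) < rz v z g x ∧ tr a z ∈ A ∧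
      Conn Γ A (tr a p) (tr a z) := fun a e => by
    have h1 : rz v z g (tr a p) < rz v z g x := by
      rw [h.fper, h.fp]
      omega
    have h2 := hA (tr a z) (Or.inl ⟨kt_z a, by rw [h.fper, h.fz, e]⟩)
    exact ⟨h1, h2, Conn.step (hA _ (Or.inr h1)) h2 (h.fine.inv a _ _ h.zp.symm)⟩
  obtain ⟨a, rfl | rfl⟩ := kt_ex hx
  · obtain ⟨h1, h2, h3⟩ := key a (by rw [h.fper, h.fv])
    exact ⟨_, h1, h3.snoc h2 (hA _ (Or.inl ⟨hx, rfl⟩)) (h.fine.inv a _ _ h.vz.symm)⟩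
  · obtain ⟨h1, -, h3⟩ := key a (by rw [h.fper, h.fz])
    exact ⟨_, h1, h3⟩

theorem TR.dn (h : TR Γ η v z p g) (x : Vx J) :
    ∃ y, rz v z g y < rz v z g x ∧ Conn Γ {u | rz v z g u ≤ rz v z g x} x y := by
  by_cases c : x ∈ Kt v z
  · obtain ⟨y, h1, h2⟩ := h.tail c (A := {u | rz v z g u ≤ rz v z g x})
      fun y hy => hy.elim (fun k => k.2.le) le_of_lt
    exact ⟨y, h1, h2.symm⟩
  · obtain ⟨q, e, hq⟩ := h.par c
    by_cases c' : q ∈ Kt v z
    · have e1 : rz v z g q = rz v z g x := by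
        rw [rz_k c', rz_n c]
        omega
      obtain ⟨y, h1, h2⟩ := h.tail c' (A := {u | rz v z g u ≤ rz v z g x})
        fun y hy => e1 ▸ hy.elim (fun k => k.2.le) le_of_lt
      exact ⟨y, e1 ▸ h1, (h2.snoc e1.le (le_refl (rz v z g x)) e.symm).symm⟩
    · have e1 : rz v z g q < rz v z g x := by
        rw [rz_n c', rz_n c]
        omega
      exact ⟨q, e1, Conn.step (le_refl (rz v z g x)) e1.le e⟩

/-- `x` has a parent that is no translate of a root. -/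
def Rp (Γ : SimpleGraph (Vx J)) (v z : Vx J) (g : Vx J → ℤ) (x : Vx J) : Prop :=
  ∃ q, Γ.Adj x q ∧ g q = g x - 1 ∧ q ∉ Kt v z

/-- a descending walk from a neighbour of `z` of height zero does not end in a translate of `z` -/
theorem TR.noz (h : TR Γ η v z p g) {q : Vx J} (e : Γ.Adj z q) {n : ℕ} (d : Γ.dist x q ≤ n)
    {a : ℤ × ℤ} (ha : η a = -n - 1) : ¬ Γ.Adj x (tr a z) := fun k => by
  have h1 := h.toSl.back z (a := a) fun k => by
    rw [k, map_zero] at ha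
    omega
  have h2 := dist_tri h.fine.pl (tr a z) x z
  have h3 := dist_tri h.fine.pl x q z
  rw [dist_adj k.symm] at h2
  rw [dist_adj e.symm] at h3
  omega

/-- every chain of parents off the roots that starts in `p` ends in a pure child of `v` -/
theorem TR.chain [Fintype J] (h : TR Γ η v z p g) {an : Vx J → Vx J}
    (han : ∀ x, Rp Γ v z g x → Γ.Adj x (an x) ∧ g (an x) = g x - 1 ∧ an x ∉ Kt v z) :
    ∃ (n : ℕ) (a : ℤ × ℤ), η a = -n - 1 ∧ (∀ i, i < n → Rp Γ v z g (an^[i] p)) ∧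
      (∀ i, i ≤ n → g (an^[i] p) = -i ∧ an^[i] p ∉ Kt v z) ∧ ¬ Rp Γ v z g (an^[n] p) ∧
      Γ.Adj (an^[n] p) (tr a v) ∧ ¬ Γ.Adj (an^[n] p) (tr a z) := by
  obtain ⟨n, -, h1, h2⟩ := chain_end h.fine h.per h.toSl.lt (Pr := {x | Rp Γ v z g x})
    (fun x hx => ⟨(han x hx).1, (han x hx).2.1⟩) p
  have key : ∀ i : ℕ, i ≤ n → g (an^[i] p) = -i ∧ an^[i] p ∉ Kt v z ∧
      Γ.dist (an^[i] p) p ≤ i := by
    intro i
    induction i with
    | zero => exact fun _ => ⟨h.g0, h.pk, by simp⟩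
    | succ i ih =>
      intro hi
      obtain ⟨k1, -, k3⟩ := ih (by omega)
      obtain ⟨k4, k5, k6⟩ := han _ (h1 i (by omega))
      have k7 := dist_tri h.fine.pl (an (an^[i] p)) (an^[i] p) p
      rw [dist_adj k4.symm] at k7
      rw [Function.iterate_succ_apply']
      exact ⟨by push_cast; omega, k6, by omega⟩
  obtain ⟨k1, k2, k3⟩ := key n le_rfl
  obtain ⟨q, e, hq⟩ := h.par k2
  obtain ⟨a, rfl | rfl⟩ := kt_ex (by_contra fun k => h2 ⟨q, e, hq, k⟩)
  · rw [h.per, h.gv, k1, zero_add] at hq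
    exact ⟨n, a, hq, h1, fun i hi => ⟨(key i hi).1, (key i hi).2.1⟩, h2, e, h.noz h.zp k3 hq⟩
  · rw [h.per, h.gz, k1, zero_add] at hq
    exact absurd e (h.noz h.zp k3 hq)

theorem TR.an_ex (h : TR Γ η v z p g) : ∃ an : Vx J → Vx J, (∀ a x, an (tr a x) = tr a (an x)) ∧
    ∀ x, Rp Γ v z g x → Γ.Adj x (an x) ∧ g (an x) = g x - 1 ∧ an x ∉ Kt v z :=
  eqv_choice (fun x q => Γ.Adj x q ∧ g q = g x - 1 ∧ q ∉ Kt v z) fun a _ _ k =>
    ⟨h.fine.inv a _ _ k.1, by rw [h.per, h.per, k.2.1]; ring, k.2.2⟩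

/-- a closed walk through the two roots that climbs -/
theorem TR.loop [Fintype J] (h : TR Γ η v z p g) :
    ∃ c, 0 < η c ∧ Conn Γ {u | 1 ≤ rz v z g u} v (tr c v) := by
  obtain ⟨an, -, han⟩ := h.an_ex
  obtain ⟨n, a, h1, h2, h3, -, h5, -⟩ := h.chain han
  have e : η (-a) = n + 1 := by
    rw [map_neg]
    omega
  have m : ∀ i : ℕ, i ≤ n → tr (-a) (an^[i] p) ∈ {u | 1 ≤ rz v z g u} := fun i hi => by
    show (1 : ℤ) ≤ rz v z g _
    rw [h.fper, rz_n (h3 i hi).2, (h3 i hi).1]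
    omega
  have key : ∀ i : ℕ, i ≤ n → Conn Γ {u | 1 ≤ rz v z g u} (tr (-a) p) (tr (-a) (an^[i] p)) := by
    intro i
    induction i with
    | zero => exact fun _ => Conn.rfl'
    | succ i ih =>
      intro hi
      refine (ih (by omega)).snoc (m i (by omega)) (m _ hi) (h.fine.inv _ _ _ ?_)
      rw [Function.iterate_succ_apply']
      exact (han _ (h2 i (by omega))).1
  have mz : tr (-a) z ∈ {u | 1 ≤ rz v z g u} := by
    show (1 : ℤ) ≤ rz v z g _
    rw [h.fper, h.fz]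
    omega
  have mv : tr (-a) v ∈ {u | 1 ≤ rz v z g u} := by
    show (1 : ℤ) ≤ rz v z g _
    rw [h.fper, h.fv]
    omega
  have h6 := h.fine.inv (-a) _ _ h5
  rw [tr_neg] at h6
  exact ⟨-a, by omega, (((key n le_rfl).snoc (m n le_rfl) h.fv.ge h6).symm.snoc (m 0 (by omega))
    mz (h.fine.inv _ _ _ h.zp.symm)).snoc mz mv (h.fine.inv _ _ _ h.vz.symm)⟩

theorem TR.wp [Fintype J] (h : TR Γ η v z p g) : ∃ w, WP Γ η (rz v z g) w := by
  obtain ⟨c, hc, -⟩ := h.loop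
  obtain ⟨⟨w, w0, hw⟩, hb⟩ := pk_Ker η ⟨c, hc⟩
  exact ⟨w, h.fine, h.ev, h.fper, fun _ _ => h.flip, w0, hw, hb, h.dn⟩

theorem TR.vu [Fintype J] (h : TR Γ η v z p g) : v ∈ UU Γ (rz v z g) 1 := by
  obtain ⟨c, hc, hv⟩ := h.loop
  have key : ∀ k : ℕ, Conn Γ {u | 1 ≤ rz v z g u} v (tr ((k : ℤ) • c) v) := by
    intro k
    induction k with
    | zero => simpa [tr_zero] using Conn.rfl'
    | succ k ih =>
      refine ih.trans ?_
      have := h.fine.conn_tr ((k : ℤ) • c) (B := {u | 1 ≤ rz v z g u}) (fun x hx => by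
        show (1 : ℤ) ≤ rz v z g _
        have : (1 : ℤ) ≤ rz v z g x := hx
        rw [h.fper, map_zsmul, smul_eq_mul]
        nlinarith [(Nat.cast_nonneg k : (0 : ℤ) ≤ k)]) hv
      rwa [tr_tr, add_comm, ← add_one_zsmul] at this
  intro m
  refine ⟨_, ?_, key m.natAbs⟩
  rw [h.fper, h.fv, map_zsmul, smul_eq_mul]
  nlinarith [Int.le_natAbs (a := m), (Nat.cast_nonneg m.natAbs : (0 : ℤ) ≤ m.natAbs)]

variable {w : ℤ × ℤ} {j : ℤ}

theorem TR.k_nl (h : TR Γ η v z p g) (hU : UW Γ η (rz v z g) w) (hx : x ∈ Kt v z) :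
    x ∉ LL Γ (rz v z g) j := fun k => by
  obtain ⟨u, hu, e⟩ := k.1
  have := h.nohigh hx e
  have := hU.ge _ _ hu
  have := hU.lf _ _ k
  omega

/-- the roots lie inside the strips -/
theorem TR.k_st [Fintype J] (h : TR Γ η v z p g) (hU : UW Γ η (rz v z g) w) (hx : x ∈ Kt v z) :
    x ∈ OV.ST Γ (rz v z g) (rz v z g x) := by
  refine ⟨?_, fun k => k.elim (h.k_nl hU hx) fun k => by have := hU.ge _ _ k; omega⟩
  obtain ⟨a, rfl | rfl⟩ := kt_ex hx
  · rw [h.fper, h.fv]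
    exact (hU.utr a 1 v).2 h.vu
  · rw [h.fper, h.fz]
    exact (hU.utr a 1 z).2 (hU.cl 1 v h.vu z h.vz h.fz.ge)

theorem TR.tch (h : TR Γ η v z p g) (hU : UW Γ η (rz v z g) w) : Tch Γ (rz v z g) := by
  intro j x hx
  have c : x ∉ Kt v z := fun k => h.k_nl hU k hx
  have fx := hU.lf _ _ hx
  obtain ⟨q, e, hq⟩ := h.par c
  by_cases c' : q ∈ Kt v z
  · have e1 : rz v z g q = j := by
      rw [← fx, rz_k c', rz_n c]
      omega
    obtain ⟨y, h1, h2⟩ := h.tail c' (A := BL Γ (rz v z g) j) fun y hy => hy.elim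
      (fun k k' => k'.elim (fun k' => by have := hU.ge _ _ k'; omega) (h.k_nl hU k.1))
      fun k => hU.low_bl (e1 ▸ k)
    exact ⟨q, ⟨y, e1 ▸ h1, h2⟩, e⟩
  · exact tch_of_hp hU hx ⟨q, e, by rw [rz_n c', rz_n c, hq]⟩

/-- the level sets of the raised height are lines -/
theorem TR.rows [Fintype J] (h : TR Γ η v z p g) (hN : NJ Γ Set.univ) :
    ∃ w l ρ nn, ∀ an, Rows ⟨Γ, η, rz v z g, an, w, l, ρ, nn⟩ := by
  obtain ⟨w, hw⟩ := h.wp
  exact ⟨w, exists_rows hw (hw.uw ⟨v.1⟩) h.toSl.nl hN (h.tch (hw.uw ⟨v.1⟩))⟩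

/-- the neighbours of `z` of height zero lie on the line of height zero -/
theorem TR.low_l [Fintype J] (h : TR Γ η v z p g) (hU : UW Γ η (rz v z g) w) (e : Γ.Adj z x)
    (hx : rz v z g x < 1) : x ∈ LL Γ (rz v z g) 0 :=
  hU.lan 1 z (hU.cl 1 v h.vu z h.vz h.fz.ge) x e hx

theorem TR.p_l [Fintype J] (h : TR Γ η v z p g) (hU : UW Γ η (rz v z g) w) :
    p ∈ LL Γ (rz v z g) 0 := h.low_l hU h.zp (by rw [h.fp]; omega)

/-- a parent off the roots of a level vertex lies on the line below -/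
theorem TR.par_l (h : TR Γ η v z p g) (hU : UW Γ η (rz v z g) w) (hx : x ∈ LL Γ (rz v z g) j)
    (e : Γ.Adj x y) (hy : g y = g x - 1) (c : y ∉ Kt v z) : y ∈ LL Γ (rz v z g) (j - 1) := by
  refine hU.lan j x (hU.lu j hx) y e ?_
  have := hU.lf _ _ hx
  rw [rz_n fun k => h.k_nl hU k hx] at this
  rw [rz_n c]
  omega

/-- conversely -/
theorem TR.l_par (h : TR Γ η v z p g) (hU : UW Γ η (rz v z g) w) (hx : x ∈ LL Γ (rz v z g) j)
    (hy : y ∈ LL Γ (rz v z g) (j - 1)) : g y = g x - 1 ∧ y ∉ Kt v z := by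
  have h1 := hU.lf _ _ hx
  have h2 := hU.lf _ _ hy
  rw [rz_n fun k => h.k_nl hU k hx] at h1
  rw [rz_n fun k => h.k_nl hU k hy] at h2
  exact ⟨by omega, fun k => h.k_nl hU k hy⟩

/-- `v` has a pure child on the line of height one that does not see `z` -/
theorem TR.child [Fintype J] (h : TR Γ η v z p g) (hU : UW Γ η (rz v z g) w) {an : Vx J → Vx J}
    (han : ∀ x, Rp Γ v z g x → Γ.Adj x (an x) ∧ g (an x) = g x - 1 ∧ an x ∉ Kt v z) :
    ∃ (n : ℕ) (c : ℤ × ℤ), η c = n + 1 ∧ (∀ i, i < n → Rp Γ v z g (an^[i] p)) ∧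
      tr c (an^[n] p) ∈ LL Γ (rz v z g) 1 ∧ Γ.Adj (tr c (an^[n] p)) v ∧
      ¬ Γ.Adj (tr c (an^[n] p)) z ∧ ¬ Rp Γ v z g (an^[n] p) := by
  obtain ⟨n, a, h1, h2, -, h4, h5, h6⟩ := h.chain han
  have key : ∀ i : ℕ, i ≤ n → an^[i] p ∈ LL Γ (rz v z g) (-i) := by
    intro i
    induction i with
    | zero => exact fun _ => h.p_l hU
    | succ i ih =>
      intro hi
      obtain ⟨k1, k2, k3⟩ := han _ (h2 i (by omega))
      rw [Function.iterate_succ_apply']
      have := h.par_l hU (ih (by omega)) k1 k2 k3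
      rwa [show -(i : ℤ) - 1 = -((i + 1 : ℕ) : ℤ) by push_cast; ring] at this
  have e : η (-a) = n + 1 := by
    rw [map_neg]
    omega
  refine ⟨n, -a, e, h2, ?_, ?_, fun k => h6 ?_, h4⟩
  · have := (hU.ltr (-a) _ _).2 (key n le_rfl)
    rwa [e, show -(n : ℤ) + (n + 1) = 1 by ring] at this
  · simpa only [tr_neg] using h.fine.inv (-a) _ _ h5
  · simpa only [tr_neg'] using h.fine.inv a _ _ k

end Pool.Agent.P.MP_08fd93_co.FP2
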