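import Pool.Agent.P.MP_08fd93_co.FT.T4
import Pool.Agent.P.MP_08fd93_co.FK.K10

/-! Short tails: the two plans with one flow from the left top edge. -/

set_option autoImplicit false

namespace Pool.Agent.P.MP_08fd93_co.FP2

open OV PkPrtP FB FE FN FK FA FZ TT

variable {J : Type} {G : TD J} {v z la lb lc ld e g x y t : Vx J} {φ : Vx J → Vx J} {E : EJ J}
  {Y : TX J} {fl : Fl} {f : Sym2 (Vx J)} {S : Set (Sym2 (Vx J))}

/-- One flow with the sources `x` on the row zero, `l` on the row one and the sink `t` on the row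
one; the other rows are done. -/
structure OF (G : TD J) (φ : Vx J → Vx J) (x l t : Vx J) (E : EJ J) : Prop where
  dis : ∀ i ∈ E.Sr, i ∉ E.Sk ∧ i ∉ E.Ps
  rw : ∀ j, Rw (FT G) j E
  a0 : ∃ t0 ∈ G.L 0, t0.1 ≠ x.1 ∧ Agr (FT G) E 0 (r1 x t0)
  a1 : Agr (FT G) E 1 (r1 l t)
  top : ∀ Y, ∀ e ∈ G.LA, e.1 ∉ RowO (FT G) 1 → TT.Top G φ E Y e

section

variable (h : TQ G v z la lb lc ld) (hφ : PH (FT G) G.Pr φ)
include h hφ

theorem TQ.of_ex (s : FP2.Sl G.Γ G.η) (hx : x ∈ G.L 0) (ht : t ∈ G.L 1) (n : la.1 ≠ t.1)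
    (a : FP.Arr G φ la x) : ∃ E, OF G φ x la t E := by
  obtain ⟨b, H⟩ := TB.tq_lb h hφ
  obtain ⟨l1, l2, l3, l4, -⟩ := h.ord
  obtain ⟨E, t0, t1, t2, -, a0, a1, Q⟩ := TB.one h s hφ hx l1 (H.rw1 l1 ⟨t, ht, rfl⟩ n)
    (r1_pn _ _).subset lk_row a
  refine ⟨E, Q.dis, Q.rw, ⟨t0, t1, t2, a0⟩, a1, fun Y e he n => (TB.top_ar h hφ
    (fun _ k => (a0 _ h.feet.1.1).2.2.1 k) he (fun _ q => n ⟨la, l1, q.symm⟩)
    (fun _ q => n ⟨lb, l2, q.symm⟩) (fun _ q => n ⟨lc, l3, q.symm⟩)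
    (fun _ q => n ⟨ld, l4, q.symm⟩) (Q.top e he n)).top⟩

omit hφ in
theorem TQ.lb_eq (k : G.an (G.nx la) = v) : lb = la := by
  obtain ⟨l1, l2, -, -, o, -⟩ := h.ord
  obtain ⟨n1, n2, -⟩ := h.rows.nx_mem l1
  have := ((h.an_iff n1).1 k).1
  exact h.rows.inj l2 l1 (by omega)

variable (O : OF G φ x la t E) (hx : x ∈ G.L 0)
include O hx

/-- the strict edges under an edge of the class of the row one -/
theorem OF.ss (he : e ∈ G.L 1) (a : ℤ × ℤ)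
    (h1 : ∀ c, tr a e = tr c (φ x) → s(tr c x, tr c (G.nx x)) ∈ S)
    (ha : fl.a → ∀ c, tr a e = tr c la → s(tr c z, tr c (G.xl z)) ∈ S)
    (hb : fl.b → ∀ c, tr a e = tr c lb → s(tr c v, tr c z) ∈ S)
    (hc : fl.c → ∀ c, tr a e = tr c lc → s(tr c v, tr c z) ∈ S)
    (hd : fl.d → ∀ c, tr a e = tr c ld → s(tr c z, tr c (G.xr z)) ∈ S) :
    SST G (TT.Pin G E) fl (tr a e) ⊆ S := by
  have hF := h.st.lay
  obtain ⟨t0, -, -, a0⟩ := O.a0
  have m := (hF.ltr a 1 e).2 he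
  refine TT.ss_sub h hφ (hF.la m) (fun g g1 g2 _ g3 => ?_) ha hb hc hd
  obtain ⟨-, q, -⟩ := pu_row hF hφ (r1_pn x t0 ▸ a0.pin.mv hF a) (e := tr a e)
    (by rwa [add_right_comm, zero_add]) ⟨g1, g2, g3⟩
  obtain ⟨c, rfl⟩ : ∃ c, g = tr c x := ⟨_, FK.eq_tr (Eq.symm q)⟩
  rw [h.rows.nx_tr c hx]
  exact h1 c (g3.symm.trans (hφ.eqv c x (hF.la hx)))

omit hφ in
/-- the ends of the source of the row zero point away from it -/
theorem OF.ends : G.nx x ∈ AS (FT G) (ed E).Src (ed E).Snk ∧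
    x ∉ AS (FT G) (ed E).Src (ed E).Snk := by
  obtain ⟨t0, t1, -, a0⟩ := O.a0
  exact ori_one (F := FT G) h.st.lay (ori_std h.st.lay fun j => (O.rw j).alt) (fun _ _ k => k) hx t1
    ((a0 t0 t1).2.1.2 rfl) fun y hy k => (a0 y hy).1.1 k

omit hφ hx in
/-- a plan with one flow -/
theorem OF.tk (fl : Fl) (jv jz : Jb) (pa : fl.a ∨ jz = .a) (pb : fl.b ∨ jv = .b ∨ jz = .b)
    (pc : fl.c ∨ jv = .c ∨ jz = .c) (pd : fl.d ∨ jz = .d) (nb : jz ≠ .b) (nc : jz ≠ .c)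
    (ear : G.xl z ≠ G.xr z → (G.xl z).1 ≠ x.1)
    (ea : jz = .a → G.xl z ∈ AS (FT G) (ed E).Src (ed E).Snk)
    (ed' : jz = .d → G.xr z ∉ AS (FT G) (ed E).Src (ed E).Snk)
    (kl : KeepL G (TT.Pin G E) (Vt G E) fl) (kr : KeepR G (TT.Pin G E) (Vt G E) fl)
    (top : ∀ Y : TX J, Y.x = fl → ∀ e ∈ G.L 1, ∀ a, TT.Top G φ E Y (tr a e)) :
    TK G φ z E ⟨fl, jv, jz, AS (FT G) (ed E).Src (ed E).Snk, ∅, ∅, ∅⟩ := by
  obtain ⟨t0, -, -, a0⟩ := O.a0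
  refine ⟨O.dis, fun _ k => k.elim, fun _ k => k.elim, fun j => (O.rw j).ne.imp
    (fun ⟨m, a, b⟩ => ⟨m, a, b, id⟩) fun k => ⟨k, fun _ _ => id⟩,
    ori_std h.st.lay fun j => (O.rw j).alt, pa, pb, pc, pd,
    fun n => ⟨fun k => ear n ((a0 _ h.feet.1.1).1.1 k), ea, ed', fun k => k.elim
      (absurd · nb) (absurd · nc)⟩, kl, kr, fun e he => ?_⟩
  by_cases c : e.1 ∈ RowO (FT G) 1
  · obtain ⟨y, hy, q⟩ := c
    exact FK.eq_tr q ▸ top _ rfl y hy _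
  · exact O.top _ e he c

end

theorem tr_same {a c : ℤ × ℤ} (k : tr a x = tr c x) : a = c := congrArg Prod.snd k |> fun q => by
  simpa [tr] using q

/-- The plan I: the edge before the left foot is the source of the row zero. -/
theorem modeI : FP.S_I := by
  rintro J _ G φ v z la lb lc ld h s hφ ⟨kid, rung, y, hy, ny, py, fr, ar⟩
  have hF := h.st.lay
  obtain ⟨l1, -, -, l4, -⟩ := h.ord
  obtain rfl : lb = la := h.lb_eq kid
  have ne : lb.1 ≠ ld.1 := fun q => rung (by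
    rw [FK.eq_tr q.symm, h.st.tf.atr]
    exact h.st.tf.vtr _ _ h.hd.1.2.1)
  obtain ⟨E, O⟩ := h.of_ex hφ s hy l4 ne ar
  obtain ⟨t0, -, -, a0⟩ := O.a0
  refine TK.col h hφ (O.tk h ⟨False, True, False, True⟩ .c .a (Or.inr rfl) (Or.inl trivial)
    (Or.inr (Or.inl rfl)) (Or.inl trivial) nofun nofun (fun _ q => ?_)
    (fun _ => ny ▸ (O.ends h hy).1) nofun (keepL_b trivial fun k hk => ?_) (keepR_d trivial)
    fun Y eY e he a => ?_)
  · exact s.nl _ _ (ny ▸ (h.rows.nx_mem hy).2.2) q.symm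
  · obtain ⟨c, -, q, -⟩ := h.k_x hk
    exact ⟨tr c y, pin_pn ((a0.pn hy).2 (Or.inl rfl)), (hF.la_tr c y).2 (hF.la hy), by
      rw [h.rows.nx_tr c hy, ny, q]⟩
  by_cases c1 : e.1 = lb.1
  · refine Or.inr (Or.inr (Or.inr (Or.inr ⟨lb.2 - e.2 - a, ?_⟩)))
    rw [tr_tr, add_sub_cancel, ← FK.eq_tr c1, eY]
    refine spt_free (sta_pn ((O.a1.pn l1).2 (Or.inl rfl))) ?_ fr
    rw [← tr_zero lb]
    refine O.ss h hφ hy l1 0 (fun c q => ?_) nofun (fun _ c q => ?_) nofun fun _ c q => ?_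
    · rw [py] at q
      rw [← tr_same q, tr_zero, tr_zero, ny]
      exact Or.inl rfl
    · rw [← tr_same q, tr_zero, tr_zero]
      exact Or.inr rfl
    · exact absurd (congrArg Prod.fst q) ne
  have key : ∀ S, (∀ c, tr a e = tr c ld → s(tr c z, tr c (G.xr z)) ∈ S) →
      SST G (TT.Pin G E) Y.x (tr a e) ⊆ S := fun S k =>
    eY ▸ O.ss h hφ hy he a
      (fun c q => absurd ((congrArg Prod.fst q).trans (congrArg Prod.fst py :)) c1) nofun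
      (fun _ c q => absurd (congrArg Prod.fst q) c1) nofun fun _ => k
  by_cases c2 : e.1 = ld.1
  · obtain ⟨b, q⟩ : ∃ b, tr a e = tr b ld := ⟨_, FK.eq_tr (x := ld) (y := tr a e) c2.symm⟩
    exact Or.inr (Or.inl ⟨s(tr b z, tr b (G.xr z)),
      key _ fun c o => tr_same (q.symm.trans o) ▸ rfl, Or.inl ((O.a1 e he).2.1.2 c2)⟩)
  · exact Or.inl (key _ fun c q => c2 (congrArg Prod.fst q :))

/-- The plan II: the edge after the right foot is the source of the row zero. -/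
theorem modeII : FP.S_II := by
  rintro J _ G φ v z la lb lc ld h s hφ ⟨kid, fr, ne, hf, ar⟩
  have hF := h.st.lay
  obtain ⟨l1, -, -, l4, -⟩ := h.ord
  have hy := h.feet.2.1.1
  obtain rfl : lb = la := h.lb_eq kid
  obtain ⟨E, O⟩ := h.of_ex hφ s hy (h.phi hφ hy).1 ne.symm ar
  obtain ⟨t0, -, -, a0⟩ := O.a0
  refine TK.col h hφ (O.tk h ⟨True, True, False, False⟩ .c .d (Or.inl trivial) (Or.inl trivial)
    (Or.inr (Or.inl rfl)) (Or.inr rfl) nofun nofun (fun n q => ?_) nofun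
    (fun _ => (O.ends h hy).2) (keepL_a trivial) (h.keepR_hub (fun a _ => vt_tr h.st a)
      (fun a _ => pin_tr h.st a) (pin_pn ((a0.pn hy).2 (Or.inl rfl))) hf) fun Y eY e he a => ?_)
  · exact n (s.near2 q h.feet.1.2.symm h.feet.2.1.2)
  by_cases c1 : e.1 = lb.1
  · refine Or.inr (Or.inr (Or.inr (Or.inr ⟨lb.2 - e.2 - a, ?_⟩)))
    rw [tr_tr, add_sub_cancel, ← FK.eq_tr c1, eY]
    refine spt_free (sta_pn ((O.a1.pn l1).2 (Or.inl rfl))) ?_ fr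
    rw [← tr_zero lb]
    refine O.ss h hφ hy l1 0 (fun c q => ?_) (fun _ c q => ?_) (fun _ c q => ?_) nofun nofun
    · exact absurd (congrArg Prod.fst q).symm ne
    · rw [← tr_same q, tr_zero, tr_zero]
      exact Or.inl rfl
    · rw [← tr_same q, tr_zero, tr_zero]
      exact Or.inr rfl
  have key : ∀ S, (∀ c, tr a e = tr c (φ (G.xr z)) →
      s(tr c (G.xr z), tr c (G.nx (G.xr z))) ∈ S) → SST G (TT.Pin G E) Y.x (tr a e) ⊆ S :=
    fun S k => eY ▸ O.ss h hφ hy he a k (fun _ c q => absurd (congrArg Prod.fst q) c1)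
      (fun _ c q => absurd (congrArg Prod.fst q) c1) nofun nofun
  by_cases c2 : e.1 = (φ (G.xr z)).1
  · obtain ⟨b, q⟩ : ∃ b, tr a e = tr b (φ (G.xr z)) :=
      ⟨_, FK.eq_tr (x := φ (G.xr z)) (y := tr a e) c2.symm⟩
    exact Or.inr (Or.inl ⟨s(tr b (G.xr z), tr b (G.nx (G.xr z))),
      key _ fun c o => tr_same (q.symm.trans o) ▸ rfl,
      Or.inl ((O.a1 e he).2.1.2 c2)⟩)
  · exact Or.inl (key _ fun c q => c2 (congrArg Prod.fst q :))

end Pool.Agent.P.MP_08fd93_co.FP2
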