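import Pool.Agent.P.MP_08fd93_co.FP2.TI
import Pool.Agent.P.MP_08fd93_co.FZ.Brg2

/-! The part of a strip between two cuts of a frame with tails. -/

set_option autoImplicit false

namespace Pool.Agent.P.MP_08fd93_co.FP2

open OV FZ

variable {J : Type} {G : TD J} {j : ℤ} {s s' t t' p p' q q' : Vx J}

/-- The part of the strip between the cut from `p` to `s` and the cut from `p'` to `s'`. -/
def TD.Cl (G : TD J) (j : ℤ) (p s p' s' : Vx J) : Set (Vx J) :=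
  {v | v ∈ G.S j ∧ ∀ z ∈ Nb G.Γ (G.Cp j v), ¬ G.Lf j p s z ∧ ¬ G.Rg j p' s' z}

/-- The interior of the cell under the interval from `s` to `s'`. -/
def TD.Im (G : TD J) (s s' : Vx J) : Set (Vx J) :=
  G.Cl (G.f s) (G.xr (G.an s)) s (G.xl (G.an s')) s'

/-- `p` is a foot of the cut at `s`. -/
def TD.Ft (G : TD J) (s p : Vx J) : Prop := p = G.xl (G.an s) ∨ p = G.xr (G.an s)

theorem cp_eq {v y : Vx J} (hy : y ∈ G.Cp j v) : G.Cp j y = G.Cp j v := by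
  ext z
  exact ⟨fun k => Conn.trans hy k, fun k => Conn.trans (Conn.symm hy) k⟩

theorem cp_adj {v z : Vx J} (e : G.Γ.Adj v z) : z ∈ Nb G.Γ (G.Cp j v) := ⟨v, Conn.rfl', e.symm⟩

theorem tcl_cp {v y : Vx J} (hv : v ∈ G.Cl j p s p' s') (hy : y ∈ G.Cp j v) :
    y ∈ G.Cl j p s p' s' := ⟨cp_sub hv.1 hy, by rw [cp_eq hy]; exact hv.2⟩

theorem tcl_step {v z : Vx J} (hv : v ∈ G.Cl j p s p' s') (hz : z ∈ G.S j) (e : G.Γ.Adj v z) :
    z ∈ G.Cl j p s p' s' := tcl_cp hv (Conn.step hv.1 hz e)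

/-- the neighbours of the part under a neck -/
theorem tuv_nb {b v z : Vx J} (hv : v ∈ G.Uv b) (e : G.Γ.Adj v z) : z ∈ G.Uv b ∨ z = b ∨
    (z ∈ G.L (G.f b - 1) ∧ G.ρ (G.xl b) ≤ G.ρ z ∧ G.ρ z ≤ G.ρ (G.xr b)) :=
  (hv.2 v z Conn.rfl' e).imp_left fun k => ⟨k, fun y u c =>
    hv.2 y u ((Conn.step hv.1 k e).trans c)⟩

theorem ts_side {z : Vx J} (hz : z ∈ G.S j) : ¬ G.Lf j p s z ∧ ¬ G.Rg j p' s' z := by
  constructor <;> rintro (a | a | a)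
  exacts [l_not_u' a.1 hz.1.1, hz.1.2 (Or.inl a.1), hz.2 a.1,
    l_not_u' a.1 hz.1.1, hz.1.2 (Or.inl a.1), hz.2 a.1]

theorem TFrm.ct_empty (h : TFrm G) (hv : G.an s ∉ G.V) : G.Ct s = ∅ :=
  Set.eq_empty_of_forall_notMem fun _ hx => hv (h.ct_v hx)

theorem TFrm.ct_eq (h : TFrm G) (hv : G.an s ∈ G.V) : G.Ct s = {G.an s, G.nk s} :=
  Set.inter_eq_left.2 (by
    rintro _ (rfl | rfl)
    exacts [hv, (h.mv _ hv).1])

theorem TFrm.ct_x (h : TFrm G) {u : Vx J} (hu : u ∈ G.Ct s) :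
    G.xl u = G.xl (G.an s) ∧ G.xr u = G.xr (G.an s) := h.x_eq (h.ct_md hu)

theorem TFrm.foot (h : TFrm G) (hs : s ∈ G.L j) (ps : s ∈ G.Pr) (hp : G.Ft s p) :
    p ∈ G.L (j - 1) ∧ G.ρ (G.xl (G.an s)) ≤ G.ρ p ∧ G.ρ p ≤ G.ρ (G.xr (G.an s)) ∧
      (G.an s ∈ G.V → G.Γ.Adj (G.nk s) p) ∧ (G.an s ∉ G.V → p = G.an s) := by
  have hf := h.feet hs ps
  rcases hp with rfl | rfl
  exacts [⟨hf.1, le_rfl, hf.2.2, fun k => (h.vl _ k).2, fun k => (h.xo _ k).1⟩,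
    ⟨hf.2.1, hf.2.2, le_rfl, fun k => (h.vr _ k).2, fun k => (h.xo _ k).2.1⟩]

/-- the inner part of a cut is a path -/
theorem TFrm.ctP (h : TFrm G) (hv : G.an s ∈ G.V) {σ : Vx J → ℤ}
    (l : G.nk s ≠ G.an s → σ (G.an s) < σ (G.nk s)) : Pth G.Γ (G.Ct s) σ (G.an s) (G.nk s) := by
  rw [h.ct_eq hv]
  by_cases e : G.nk s = G.an s
  · rw [e, Set.pair_eq_singleton]
    exact Pth.single _ _
  · exact Pth.pair ((h.mv _ hv).2.2.2.resolve_left e) (l e)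

theorem TFrm.ctP' (h : TFrm G) (hv : G.an s ∈ G.V) {σ : Vx J → ℤ}
    (l : G.nk s ≠ G.an s → σ (G.nk s) < σ (G.an s)) : Pth G.Γ (G.Ct s) σ (G.nk s) (G.an s) := by
  rw [h.ct_eq hv]
  by_cases e : G.nk s = G.an s
  · rw [e, Set.pair_eq_singleton]
    exact Pth.single _ _
  · rw [Set.pair_comm]
    exact Pth.pair ((h.mv _ hv).2.2.2.resolve_left e).symm (l e)

/-- a static vertex that sees the lower line is a neck -/
theorem TFrm.ct_low (h : TFrm G) (hs : s ∈ G.L j) (ps : s ∈ G.Pr) {u x : Vx J} (hu : u ∈ G.Ct s)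
    (hx : x ∈ G.L (j - 1)) (e : G.Γ.Adj u x) :
    u = G.nk s ∧ G.ρ (G.xl (G.an s)) ≤ G.ρ x ∧ G.ρ x ≤ G.ρ (G.xr (G.an s)) := by
  have := h.vx u hu.2 x (h.ct_f hs ps hu ▸ hx) e
  rw [(h.ct_x hu).1, (h.ct_x hu).2] at this
  exact ⟨this.1.symm.trans (h.ct_md hu), this.2⟩

/-- the cut at `s` is an induced path, with and without the foot -/
theorem TFrm.cutP (h : TFrm G) (hs : s ∈ G.L j) (ps : s ∈ G.Pr) (hp : G.Ft s p) :
    ∃ σ, Pth G.Γ ({s} ∪ G.Ct s ∪ {p}) σ s p ∧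
      (G.an s ∈ G.V → Pth G.Γ ({s} ∪ G.Ct s) σ s (G.nk s)) := by
  classical
  have hf := h.foot hs ps hp
  have ne : p ≠ s := fun e => l_not_u' hf.1 (e ▸ h.toRows.l_u hs)
  refine ⟨fun x => if x = s then 0 else if x = p then 3 else if x = G.an s then 1 else 2, ?_⟩
  by_cases hv : G.an s ∈ G.V
  · have n1 : ∀ x ∈ G.V, x ≠ s := fun x hx e => h.l_nv hs (e ▸ hx)
    have n2 : ∀ x ∈ G.V, x ≠ p := fun x hx e => h.l_nv hf.1 (e ▸ hx)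
    have nV := h.nk_v.2 hv
    have P1 : Pth G.Γ ({s} ∪ G.Ct s) (fun x => if x = s then (0 : ℤ) else if x = p then 3 else
        if x = G.an s then 1 else 2) s (G.nk s) := by
      refine (Pth.single s _).join (h.ctP hv fun n => ?_) (Or.inr ⟨?_, (h.aa j s hs ps).1⟩) ?_
      · simp only [if_neg (n1 _ hv), if_neg (n2 _ hv), if_neg (n1 _ nV), if_neg (n2 _ nV),
          if_neg n, if_true]
        omega
      · simp only [if_neg (n1 _ hv), if_neg (n2 _ hv), if_true]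
        omega
      · rintro _ rfl y ⟨rfl | rfl, -⟩ a
        exacts [Or.inl ⟨rfl, rfl⟩, Or.inl ⟨rfl, (h.pure j _ hs ps hv).2 a⟩]
    refine ⟨P1.join (Pth.single p _) (Or.inr ⟨?_, hf.2.2.2.1 hv⟩) ?_, fun _ => P1⟩
    · simp only [if_neg (n1 _ nV), if_neg (n2 _ nV), if_neg ne, if_true]
      split_ifs <;> omega
    · rintro x (rfl | hx) _ rfl a
      exacts [absurd a ((h.pure j _ hs ps hv).1 _ hf.1),
        Or.inl ⟨(h.ct_low hs ps hx hf.1 a).1, rfl⟩]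
  · refine ⟨?_, fun k => absurd k hv⟩
    rw [h.ct_empty hv, Set.union_empty]
    refine Pth.pair ?_ ?_
    · rw [hf.2.2.2.2 hv]
      exact (h.aa j s hs ps).1
    · simp only [if_neg ne, if_true]
      omega

/-- the upper part of a cut that ends in `u` -/
theorem TFrm.way' (h : TFrm G) (ht : t ∈ G.L j) (pt : t ∈ G.Pr) {u : Vx J} (hu : u ∈ G.Ct t) :
    ∃ A, A ⊆ G.Ct t ∧ u ∈ A ∧ IsConn G.Γ A ∧ t ∈ Nb G.Γ A ∧
      ∀ s, u ∉ G.Ct s → Disjoint A (G.Ct s) := by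
  by_cases m : u = G.an t
  · exact ⟨{u}, Set.singleton_subset_iff.2 hu, rfl, isConn_single u,
      ⟨u, rfl, m ▸ (h.aa j t ht pt).1⟩, fun s n => Set.disjoint_singleton_left.2 n⟩
  · have e : u = G.nk t := hu.1.resolve_left m
    exact ⟨_, subset_rfl, hu, h.ct_conn t, h.ct_top ht pt (h.ct_v hu),
      fun s n => h.ct_dis fun k => n ⟨Or.inr (e.trans k), hu.2⟩⟩

/-- the cuts through a static vertex form an interval -/
theorem TFrm.pass (h : TFrm G) (hs : s ∈ G.L j) (ps : s ∈ G.Pr) (ht : t ∈ G.L j) (pt : t ∈ G.Pr)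
    (hs' : s' ∈ G.L j) (ps' : s' ∈ G.Pr) (l : G.ρ s ≤ G.ρ t) (l' : G.ρ t ≤ G.ρ s') {u : Vx J}
    (h1 : u ∈ G.Ct s) (h2 : u ∈ G.Ct s') : u ∈ G.Ct t := by
  by_contra hc
  obtain ⟨A, a1, a2, a3, a4, a5⟩ := h.way' hs ps h1
  obtain ⟨B, b1, b2, b3, b4, b5⟩ := h.way' hs' ps' h2
  refine h.btw hs ht pt hs' (lt_of_le_of_ne l fun k => hc (h.toRows.inj hs ht k ▸ h1))
    (lt_of_le_of_ne l' fun k => hc (h.toRows.inj ht hs' k ▸ h2)) (E := A ∪ B)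
    (Set.union_subset (a1.trans (h.ct_st hs ps)) (b1.trans (h.ct_st hs' ps')))
    (((ct_fin s).subset a1).union ((ct_fin s').subset b1))
    (isConn_of u ?_) (let ⟨y, hy, e⟩ := a4; ⟨y, Or.inl hy, e⟩)
    (let ⟨y, hy, e⟩ := b4; ⟨y, Or.inr hy, e⟩) (Set.disjoint_union_left.2 ⟨a5 t hc, b5 t hc⟩)
  rintro x (k | k)
  exacts [(a3 x k u a2).up Set.subset_union_left, (b3 x k u b2).up Set.subset_union_right]

/-- a component does not attach on both sides of a cut -/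
theorem TFrm.side (h : TFrm G) (hs : s ∈ G.L j) (ps : s ∈ G.Pr) (hp : G.Ft s p) {v x y : Vx J}
    (hv : v ∈ G.S j) (nx : x ∈ Nb G.Γ (G.Cp j v)) (ny : y ∈ Nb G.Γ (G.Cp j v))
    (hx : G.Lf j p s x) (hy : G.Rg j p s y) : False :=
  (h.ncv (h.brg hs ps hp) (cp_sub hv) (h.cp_fin hv) (cp_conn v) hx hy).2 ⟨nx, ny⟩

theorem TFrm.lf_mono (h : TFrm G) (hs : s ∈ G.L j) (ps : s ∈ G.Pr) (ht : t ∈ G.L j)
    (pt : t ∈ G.Pr) (l : G.ρ s ≤ G.ρ t) (l' : G.ρ p ≤ G.ρ q) {z : Vx J} (hz : G.Lf j p s z) :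
    G.Lf j q t z := by
  rcases hz with a | a | ⟨a, b, c, d⟩
  · exact Or.inl ⟨a.1, by omega⟩
  · exact Or.inr (Or.inl ⟨a.1, by omega⟩)
  · have hc := h.vc z a
    exact Or.inr (Or.inr ⟨a, b, fun k => c
      (h.pass (b ▸ hc.1) hc.2.1 hs ps ht pt d.le l hc.2.2 k), by omega⟩)

theorem TFrm.rg_mono (h : TFrm G) (hs : s ∈ G.L j) (ps : s ∈ G.Pr) (ht : t ∈ G.L j)
    (pt : t ∈ G.Pr) (l : G.ρ s ≤ G.ρ t) (l' : G.ρ p ≤ G.ρ q) {z : Vx J} (hz : G.Rg j q t z) :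
    G.Rg j p s z := by
  rcases hz with a | a | ⟨a, b, c, d⟩
  · exact Or.inl ⟨a.1, by omega⟩
  · exact Or.inr (Or.inl ⟨a.1, by omega⟩)
  · have hc := h.vc z a
    exact Or.inr (Or.inr ⟨a, b, fun k => c
      (h.pass hs ps ht pt (b ▸ hc.1) hc.2.1 l d.le k hc.2.2), by omega⟩)

/-- a vertex on neither side of a cut lies on the cut -/
theorem TFrm.on_v (h : TFrm G) (hs : s ∈ G.L j) {z : Vx J} (hz : z ∈ G.V) (e : G.f z = j)
    (h1 : ¬ G.Lf j p s z) (h2 : ¬ G.Rg j q s z) : z ∈ G.Ct s := by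
  by_contra c
  have e1 : G.ch z = s := h.toRows.inj (e ▸ (h.vc z hz).1) hs (le_antisymm
    (not_lt.1 fun c' => h2 (Or.inr (Or.inr ⟨hz, e, c, c'⟩)))
    (not_lt.1 fun c' => h1 (Or.inr (Or.inr ⟨hz, e, c, c'⟩))))
  exact c (e1 ▸ (h.vc z hz).2.2)

theorem TFrm.on_l (h : TFrm G) (hs : s ∈ G.L j) {z : Vx J} (hz : z ∈ G.L j)
    (h1 : ¬ G.Lf j p s z) (h2 : ¬ G.Rg j q s z) : z = s :=
  h.toRows.inj hz hs (le_antisymm (not_lt.1 fun c => h2 (Or.inr (Or.inl ⟨hz, c⟩)))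
    (not_lt.1 fun c => h1 (Or.inr (Or.inl ⟨hz, c⟩))))

/-- nothing hangs on a cut -/
theorem TFrm.hangC (h : TFrm G) (hs : s ∈ G.L j) (ps : s ∈ G.Pr) (hp : G.Ft s p) {v : Vx J}
    (hv : v ∈ G.S j)
    (hn : ∀ z ∈ Nb G.Γ (G.Cp j v), z ∈ G.Cp j v ∨ z ∈ {s} ∪ G.Ct s ∪ {p}) : False := by
  obtain ⟨σ, hP, -⟩ := h.cutP hs ps hp
  have hL := (h.foot hs ps hp).1
  refine hangP h.toRows hP hs hL ?_ (cp_st hv) (h.cp_fin hv) (cp_conn v)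
    ⟨v, Conn.rfl'⟩ (Set.disjoint_left.2 ?_) hn
  · rintro x ((k | k) | k) n1 n2
    exacts [absurd k n1, h.ct_st hs ps k, absurd k n2]
  · rintro x hx ((rfl | k) | rfl)
    exacts [(cp_st hv hx).2 (Or.inl hs), (cp_sub hv hx).2 k.2, l_not_u' hL (cp_st hv hx).1]

theorem TFrm.thin (h : TFrm G) (hs : s ∈ G.L j) (ps : s ∈ G.Pr) (hp : G.Ft s p) {v : Vx J} :
    v ∉ G.Cl j p s p s := by
  intro hv
  refine h.hangC hs ps hp hv.1 fun z hz => ?_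
  obtain ⟨h1, h2⟩ := hv.2 z hz
  rcases h.cp_nb hv.1 hz with k | k | k | k
  · exact Or.inl k
  · exact Or.inr (Or.inr (h.toRows.inj k (h.foot hs ps hp).1 (le_antisymm
      (not_lt.1 fun c => h2 (Or.inl ⟨k, c⟩)) (not_lt.1 fun c => h1 (Or.inl ⟨k, c⟩)))))
  · exact Or.inr (Or.inl (Or.inl (h.on_l hs k h1 h2)))
  · exact Or.inr (Or.inl (Or.inr (h.on_v hs k.1 k.2 h1 h2)))

theorem TFrm.cl_dis (h : TFrm G) (hs' : s' ∈ G.L j) (ps' : s' ∈ G.Pr) (ht : t ∈ G.L j)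
    (pt : t ∈ G.Pr) (hq : G.Ft t q) (l : G.ρ s' ≤ G.ρ t) (l' : G.ρ p' ≤ G.ρ q) :
    Disjoint (G.Cl j p s p' s') (G.Cl j q t q' t') :=
  Set.disjoint_left.2 fun _ a b => h.thin ht pt hq ⟨a.1, fun z hz => ⟨(b.2 z hz).1,
    fun k => (a.2 z hz).2 (h.rg_mono hs' ps' ht pt l l' k)⟩⟩

theorem TFrm.cl_mono (h : TFrm G) (hs : s ∈ G.L j) (ps : s ∈ G.Pr) (hs' : s' ∈ G.L j)
    (ps' : s' ∈ G.Pr) (ht : t ∈ G.L j) (pt : t ∈ G.Pr) (ht' : t' ∈ G.L j) (pt' : t' ∈ G.Pr)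
    (l : G.ρ s ≤ G.ρ t) (l' : G.ρ t' ≤ G.ρ s') (m : G.ρ p ≤ G.ρ q) (m' : G.ρ q' ≤ G.ρ p') :
    G.Cl j q t q' t' ⊆ G.Cl j p s p' s' := fun _ a => ⟨a.1, fun z hz =>
  ⟨fun k => (a.2 z hz).1 (h.lf_mono hs ps ht pt l m k),
    fun k => (a.2 z hz).2 (h.rg_mono ht' pt' hs' ps' l' m' k)⟩⟩

/-- the neighbours of a vertex strictly between two cuts -/
theorem TFrm.cl_btw (h : TFrm G) (hs : s ∈ G.L j) (ps : s ∈ G.Pr) (hs' : s' ∈ G.L j)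
    (ps' : s' ∈ G.Pr) (hp : G.Ft s p) (hp' : G.Ft s' p') {x z : Vx J} (h1 : G.Rg j p s x)
    (h2 : G.Lf j p' s' x) (e : G.Γ.Adj x z) :
    (z ∈ G.S j → z ∈ G.Cl j p s p' s') ∧ ¬ G.Lf j p s z ∧ ¬ G.Rg j p' s' z :=
  ⟨fun hz => ⟨hz, fun _ hy => ⟨fun k => h.side hs ps hp hz hy (cp_adj e.symm) k h1,
      fun k => h.side hs' ps' hp' hz (cp_adj e.symm) hy h2 k⟩⟩,
    fun k => (h.ncv (h.brg hs ps hp) (Set.empty_subset _) Set.finite_empty isConn_empty k h1).1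
      e.symm,
    fun k => (h.ncv (h.brg hs' ps' hp') (Set.empty_subset _) Set.finite_empty isConn_empty h2 k).1
      e⟩

/-- every vertex of a strip lies between two consecutive cuts -/
theorem TFrm.cl_ex (h : TFrm G) {ft : Vx J → Vx J} (hft : ∀ s ∈ G.L j, s ∈ G.Pr → G.Ft s (ft s))
    {v : Vx J} (hv : v ∈ G.S j) :
    ∃ s ∈ G.L j, ∃ s' ∈ G.L j, s ∈ G.Pr ∧ s' ∈ G.Pr ∧ G.ρ s < G.ρ s' ∧
      (∀ t ∈ G.L j, t ∈ G.Pr → G.ρ t ≤ G.ρ s ∨ G.ρ s' ≤ G.ρ t) ∧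
      v ∈ G.Cl j (ft s) s (ft s') s' := by
  classical
  have hR := h.toRows
  have hC := h.cp_fin hv
  have hfin : (Nb G.Γ (G.Cp j v)).Finite := by
    have := hC.biUnion (t := fun b => {y | G.Γ.Adj b y}) (fun b _ => h.wp.fine.lf b)
    refine this.subset ?_
    rintro x ⟨b, hb, a⟩
    exact Set.mem_biUnion hb a.symm
  set pos : Vx J → ℤ := fun z => if z ∈ G.V then G.ρ (G.ch z) else G.ρ z with hpos
  obtain ⟨m, hm⟩ := (hfin.image pos).bddBelow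
  obtain ⟨m', hm'⟩ := (hfin.image pos).bddAbove
  obtain ⟨s0, hs0, p0, h0, h0'⟩ := h.far_lo j m
  obtain ⟨s1, hs1, p1, h1, h1'⟩ := h.far_hi j m'
  obtain ⟨i, ⟨hi1, hi2⟩, hi3⟩ := Int.exists_greatest_of_bdd
    (P := fun i => G.l j i ∈ G.Pr ∧
      ∀ z ∈ Nb G.Γ (G.Cp j v), ¬ G.Lf j (ft (G.l j i)) (G.l j i) z)
    ⟨G.ρ s1, fun i hi => by
      by_contra c
      have l1 : G.ρ s1 ≤ G.ρ (G.l j i) := by rw [h.rho]; omega
      have a1 := (h.mono' hs1 p1 (hR.l_mem j i) hi.1 l1).1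
      have a2 := (h.foot (hR.l_mem j i) hi.1 (hft _ (hR.l_mem j i) hi.1)).2.1
      refine h.thin (hR.l_mem j i) hi.1 (hft _ (hR.l_mem j i) hi.1) ⟨hv, fun z hz =>
        ⟨hi.2 z hz, ?_⟩⟩
      have := hm' ⟨z, hz, rfl⟩
      rintro (h2 | h2 | h2)
      · simp only [hpos, if_neg (h.l_nv h2.1)] at this
        omega
      · simp only [hpos, if_neg (h.l_nv h2.1)] at this
        omega
      · simp only [hpos, if_pos h2.1] at this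
        omega⟩
    ⟨G.ρ s0, by
      rw [hR.l_rho hs0]
      refine ⟨p0, fun z hz => ?_⟩
      have := hm ⟨z, hz, rfl⟩
      have a2 := (h.foot hs0 p0 (hft _ hs0 p0)).2.2.1
      rintro (h2 | h2 | h2)
      · simp only [hpos, if_neg (h.l_nv h2.1)] at this
        omega
      · simp only [hpos, if_neg (h.l_nv h2.1)] at this
        omega
      · simp only [hpos, if_pos h2.1] at this
        omega⟩
  obtain ⟨s', hs', ps', l1, l2⟩ := h.next j i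
  refine ⟨G.l j i, hR.l_mem j i, s', hs', hi1, ps', by rwa [h.rho], fun t ht pt => ?_,
    hv, fun z hz => ⟨hi2 z hz, fun hg => ?_⟩⟩
  · have := l2 t ht pt
    rw [h.rho]
    omega
  · by_cases h3 : ∀ z ∈ Nb G.Γ (G.Cp j v), ¬ G.Lf j (ft s') s' z
    · have := hi3 (G.ρ s') (by rw [hR.l_rho hs']; exact ⟨ps', h3⟩)
      omega
    · push Not at h3
      obtain ⟨x, hx1, hx2⟩ := h3
      exact h.side hs' ps' (hft _ hs' ps') hv hx1 hz hx2 hg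

/-- the part between two cuts: the interior of the cell and the parts under the two necks -/
theorem TFrm.split (h : TFrm G) (hs : s ∈ G.L j) (ps : s ∈ G.Pr) (hs' : s' ∈ G.L j)
    (ps' : s' ∈ G.Pr) (hp : G.Ft s p) (hp' : G.Ft s' p') {v : Vx J}
    (hv : v ∈ G.Cl j p s p' s') : v ∈ G.Im s s' ∨
      (G.an s ∈ G.V ∧ p ≠ G.xr (G.an s) ∧ v ∈ G.Uv (G.nk s)) ∨
      (G.an s' ∈ G.V ∧ p' ≠ G.xl (G.an s') ∧ v ∈ G.Uv (G.nk s')) := by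
  by_cases c1 : ∃ x ∈ Nb G.Γ (G.Cp j v), G.Lf j (G.xr (G.an s)) s x
  · obtain ⟨x, nx, hx⟩ := c1
    have ne : p ≠ G.xr (G.an s) := by
      rintro rfl
      exact (hv.2 x nx).1 hx
    obtain rfl := hp.resolve_right ne
    obtain ⟨y, ny, hy⟩ : ∃ y ∈ Nb G.Γ (G.Cp j v), G.Rg j (G.xl (G.an s)) s y := by
      by_contra c
      exact h.thin hs ps (Or.inl rfl) ⟨hv.1, fun z hz => ⟨(hv.2 z hz).1, fun k => c ⟨z, hz, k⟩⟩⟩
    have := h.under hs ps hv.1 nx ny hx hy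
    exact Or.inr (Or.inl ⟨this.1, ne, this.2⟩)
  by_cases c2 : ∃ y ∈ Nb G.Γ (G.Cp j v), G.Rg j (G.xl (G.an s')) s' y
  · obtain ⟨y, ny, hy⟩ := c2
    have ne : p' ≠ G.xl (G.an s') := by
      rintro rfl
      exact (hv.2 y ny).2 hy
    obtain rfl := hp'.resolve_left ne
    obtain ⟨x, nx, hx⟩ : ∃ x ∈ Nb G.Γ (G.Cp j v), G.Lf j (G.xr (G.an s')) s' x := by
      by_contra c
      exact h.thin hs' ps' (Or.inr rfl) ⟨hv.1, fun z hz => ⟨fun k => c ⟨z, hz, k⟩, (hv.2 z hz).2⟩⟩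
    have := h.under hs' ps' hv.1 nx ny hx hy
    exact Or.inr (Or.inr ⟨this.1, ne, this.2⟩)
  · refine Or.inl ?_
    rw [TD.Im, h.uw.lf j s hs]
    exact ⟨hv.1, fun z hz => ⟨fun k => c1 ⟨z, hz, k⟩, fun k => c2 ⟨z, hz, k⟩⟩⟩

theorem TFrm.in_sub (h : TFrm G) (hs : s ∈ G.L j) (ps : s ∈ G.Pr) (hs' : s' ∈ G.L j)
    (ps' : s' ∈ G.Pr) (hp : G.Ft s p) (hp' : G.Ft s' p') : G.Im s s' ⊆ G.Cl j p s p' s' := by
  rw [TD.Im, h.uw.lf j s hs]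
  exact h.cl_mono hs ps hs' ps' hs ps hs' ps' le_rfl le_rfl (h.foot hs ps hp).2.2.1
    (h.foot hs' ps' hp').2.1

theorem TFrm.uv_cl (h : TFrm G) (ht : t ∈ G.L j) (pt : t ∈ G.Pr) (hV : G.an t ∈ G.V) :
    G.Uv (G.nk t) ⊆ G.Cl j (G.xl (G.an t)) t (G.xr (G.an t)) t := by
  intro v hv
  have hb := h.ct_nk hV
  rw [TD.Uv, h.nk_f ht pt hV, (h.ct_x hb).1, (h.ct_x hb).2] at hv
  refine ⟨hv.1, ?_⟩
  rintro z ⟨y, hy, e⟩
  rcases hv.2 y z hy e.symm with k | rfl | k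
  · exact ts_side k
  · constructor <;> rintro (a | a | a)
    exacts [h.l_nv a.1 hb.2, h.l_nv a.1 hb.2, a.2.2.1 hb, h.l_nv a.1 hb.2, h.l_nv a.1 hb.2,
      a.2.2.1 hb]
  · constructor <;> rintro (a | a | a)
    exacts [by omega, l_not_u' k.1 (h.toRows.l_u a.1), h.l_nv k.1 a.1, by omega,
      l_not_u' k.1 (h.toRows.l_u a.1), h.l_nv k.1 a.1]

/-- the interior of a cell misses the parts under its two necks -/
theorem TFrm.in_uv (h : TFrm G) (hs : s ∈ G.L j) (ps : s ∈ G.Pr) (hs' : s' ∈ G.L j)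
    (ps' : s' ∈ G.Pr) : (G.an s ∈ G.V → Disjoint (G.Im s s') (G.Uv (G.nk s))) ∧
      (G.an s' ∈ G.V → Disjoint (G.Im s s') (G.Uv (G.nk s'))) := by
  rw [TD.Im, h.uw.lf j s hs]
  exact ⟨fun k => ((h.cl_dis hs ps hs ps (Or.inr rfl) le_rfl le_rfl).mono_left
      (h.uv_cl hs ps k)).symm,
    fun k => (h.cl_dis hs' ps' hs' ps' (Or.inl rfl) le_rfl le_rfl).mono_right (h.uv_cl hs' ps' k)⟩

theorem TFrm.uv_fin (h : TFrm G) (b : Vx J) : (G.Uv b).Finite := by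
  refine fin_of_bd h.wp.fine.oe (((Set.finite_singleton b).union
    (h.toRows.seg_fin (G.f b - 1) (G.ρ (G.xl b)) (G.ρ (G.xr b)))).subset ?_)
    (h.uw.u_inf (G.f b + 1)) (Set.disjoint_left.2 fun v hv k => hv.1.1.2 (Or.inr k))
  rintro z ⟨⟨v, hv, e⟩, hz⟩
  exact (tuv_nb hv e.symm).resolve_left hz

end Pool.Agent.P.MP_08fd93_co.FP2
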