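import Pool.Agent.P.MP_08fd93_co.FP2.R1
import Pool.Agent.P.MP_08fd93_co.FP2.TJ

/-! Depth two: the frame with the tail `v`, `z`. -/

set_option autoImplicit false

namespace Pool.Agent.P.MP_08fd93_co.FP2

open OV FZ

variable {J : Type} {Γ : SimpleGraph (Vx J)} {η : ℤ × ℤ →+ ℤ} {v z p x y r : Vx J} {g : Vx J → ℤ}
  {an : Vx J → Vx J}

open Classical in
/-- The equivariant map that sends both roots to `r` and fixes everything else. -/
noncomputable def ex2 (v z r x : Vx J) : Vx J :=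
  if x.1 = v.1 then tr (x.2 - v.2) r else if x.1 = z.1 then tr (x.2 - z.2) r else x

theorem ex2_v (a : ℤ × ℤ) : ex2 v z r (tr a v) = tr a r := by
  rw [ex2, if_pos (tr_fst a v), tr_snd, add_sub_cancel_left]

theorem ex2_z (n : v.1 ≠ z.1) (a : ℤ × ℤ) : ex2 v z r (tr a z) = tr a r := by
  rw [ex2, if_neg (show ¬ (tr a z).1 = v.1 from n.symm), if_pos (tr_fst a z), tr_snd,
    add_sub_cancel_left]

theorem ex2_n (hx : x ∉ Kt v z) : ex2 v z r x = x := by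
  rw [ex2, if_neg fun k => hx (Or.inl k), if_neg fun k => hx (Or.inr k)]

theorem ex2_tr (n : v.1 ≠ z.1) (a : ℤ × ℤ) (x : Vx J) :
    ex2 v z r (tr a x) = tr a (ex2 v z r x) := by
  by_cases c : x ∈ Kt v z
  · obtain ⟨b, rfl | rfl⟩ := kt_ex c
    · rw [tr_tr, ex2_v, ex2_v, tr_tr]
    · rw [tr_tr, ex2_z n, ex2_z n, tr_tr]
  · rw [ex2_n c, ex2_n (mt (kt_tr a x).1 c)]

/-- Parent maps: a parent off the roots if there is one, else `z` before `v`. -/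
structure An2 (Γ : SimpleGraph (Vx J)) (v z : Vx J) (g : Vx J → ℤ) (an : Vx J → Vx J) : Prop where
  atr : ∀ a x, an (tr a x) = tr a (an x)
  adj : ∀ x, x ∉ Kt v z → Γ.Adj x (an x) ∧ g (an x) = g x - 1
  row : ∀ x, Rp Γ v z g x → an x ∉ Kt v z
  nz : ∀ x, x ∉ Kt v z → an x ∈ Kt v z → ∀ a, Γ.Adj x (tr a z) → g (tr a z) = g x - 1 →
    an x = tr a z

theorem TR.rp_nk (h : TR Γ η v z p g) (k : Rp Γ v z g x) : x ∉ Kt v z := fun c => by
  obtain ⟨q, e, hq, -⟩ := k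
  have := h.nolow c e
  omega

/-- every choice of parents off the roots extends -/
theorem TR.an2 (h : TR Γ η v z p g) {an0 : Vx J → Vx J} (atr : ∀ a x, an0 (tr a x) = tr a (an0 x))
    (han : ∀ x, Rp Γ v z g x → Γ.Adj x (an0 x) ∧ g (an0 x) = g x - 1 ∧ an0 x ∉ Kt v z) :
    ∃ an, An2 Γ v z g an ∧ ∀ x, Rp Γ v z g x → an x = an0 x := by
  have rtr : ∀ a x, Rp Γ v z g x → Rp Γ v z g (tr a x) := fun a x ⟨q, e, k1, k2⟩ =>
    ⟨tr a q, h.fine.inv a _ _ e, by rw [h.per, h.per, k1]; ring, k2⟩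
  obtain ⟨an, h1, h2⟩ := eqv_choice (fun x y => (Γ.Adj x y ∧ g y = g x - 1) ∧
      (Rp Γ v z g x → y = an0 x) ∧
      (¬ Rp Γ v z g x → ∀ a, Γ.Adj x (tr a z) → g (tr a z) = g x - 1 → y = tr a z))
    fun a x y ⟨⟨k1, k2⟩, k3, k4⟩ => ⟨⟨h.fine.inv a _ _ k1, by rw [h.per, h.per, k2]; ring⟩,
      fun c => by rw [atr, k3 (by simpa only [tr_neg] using rtr (-a) _ c)],
      fun c b e1 e2 => by
        have e3 : tr b z = tr a (tr (b - a) z) := by rw [tr_tr, sub_add_cancel]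
        rw [e3] at e1 e2 ⊢
        rw [h.per, h.per a x] at e2
        rw [k4 (mt (rtr a x) c) (b - a) ((h.fine.adj_tr a _ _).1 e1) (by omega)]⟩
  have key := fun x (hx : x ∉ Kt v z) => h2 x (by
    by_cases c : Rp Γ v z g x
    · exact ⟨an0 x, ⟨(han x c).1, (han x c).2.1⟩, fun _ => rfl, fun k => absurd c k⟩
    by_cases c' : ∃ a, Γ.Adj x (tr a z) ∧ g (tr a z) = g x - 1
    · obtain ⟨a, e⟩ := c'
      exact ⟨_, e, fun k => absurd k c, fun _ b e' _ => h.toSl.near2 rfl e.1.symm e'⟩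
    · obtain ⟨q, e⟩ := h.par hx
      exact ⟨q, e, fun k => absurd k c, fun _ b e1 e2 => absurd ⟨b, e1, e2⟩ c'⟩)
  have k1 : ∀ x, Rp Γ v z g x → an x = an0 x := fun x c => (key x (h.rp_nk c)).2.1 c
  have k2 : ∀ x, Rp Γ v z g x → an x ∉ Kt v z := fun x c => k1 x c ▸ (han x c).2.2
  exact ⟨an, ⟨h1, fun x hx => (key x hx).1, k2,
    fun x hx k => (key x hx).2.2 fun c => k2 x c k⟩, k1⟩

theorem An2.rp (A : An2 Γ v z g an) (h : TR Γ η v z p g) (x : Vx J) (k : Rp Γ v z g x) :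
    Γ.Adj x (an x) ∧ g (an x) = g x - 1 ∧ an x ∉ Kt v z :=
  ⟨(A.adj x (h.rp_nk k)).1, (A.adj x (h.rp_nk k)).2, A.row x k⟩

/-- The frame with the tail `v`, `z`. -/
structure Fr2 (Γ : SimpleGraph (Vx J)) (η : ℤ × ℤ →+ ℤ) (v z : Vx J) (g : Vx J → ℤ)
    (an : Vx J → Vx J) (G : TD J) : Prop where
  tf : TFrm G
  eΓ : G.Γ = Γ
  eη : G.η = η
  ef : G.f = rz v z g
  ea : G.an = an
  eP : G.Pr = Set.univ
  eV : G.V = Kt v z
  mv : G.md v = z
  mz : G.md z = z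

theorem exists_fr2 [Fintype J] (hN : NJ Γ Set.univ) (h : TR Γ η v z p g) (A : An2 Γ v z g an) :
    ∃ G, Fr2 Γ η v z g an G := by
  obtain ⟨w, l, ρ, nn, hR⟩ := h.rows hN
  have hR := hR an
  have hU : UW Γ η (rz v z g) w := hR.uw
  have n1 := h.ne1
  obtain ⟨n, c, -, -, yL, yv, yz, yp⟩ := h.child hU (A.rp h)
  set y := tr c (an^[n] p)
  have yK : y ∉ Kt v z := fun k => h.k_nl hU k yL
  have ay : an y = v := by
    obtain ⟨k1, k2⟩ := A.adj y yK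
    have k3 : an y ∈ Kt v z := by
      by_contra k
      refine yp ⟨tr (-c) (an y), ?_, ?_, k⟩
      · simpa only [y, tr_neg] using h.fine.inv (-c) _ _ k1
      · rw [h.per, k2, h.per, map_neg]
        ring
    obtain ⟨a, e | e⟩ := kt_ex k3
    · exact h.toSl.near2 (by rw [e]; rfl) k1.symm yv
    · have : an y = z := h.toSl.near3 (by rw [e]; rfl) k1.symm yv h.vz
      exact absurd (this ▸ k1) yz
  have fin : {q | q ∈ LL Γ (rz v z g) 0 ∧ Γ.Adj z q}.Finite :=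
    (h.fine.lf z).subset fun q hq => hq.2
  obtain ⟨q1, hq1, m1⟩ := Set.exists_min_image _ ρ fin ⟨p, h.p_l hU, h.zp⟩
  obtain ⟨q2, hq2, m2⟩ := Set.exists_max_image _ ρ fin ⟨p, h.p_l hU, h.zp⟩
  have rep : ∀ u ∈ Kt v z, ∃ a, (u = tr a v ∨ u = tr a z) ∧ rz v z g u = 1 + η a ∧
      ∀ r, ex2 v z r u = tr a r := by
    intro u hu
    obtain ⟨a, rfl | rfl⟩ := kt_ex hu
    exacts [⟨a, Or.inl rfl, by rw [h.fper, h.fv], fun _ => ex2_v a⟩,
      ⟨a, Or.inr rfl, by rw [h.fper, h.fz], fun _ => ex2_z n1 a⟩]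
  have ft : ∀ u ∈ Kt v z, ∀ r, r ∈ LL Γ (rz v z g) 0 ∧ Γ.Adj z r →
      ex2 v z r u ∈ LL Γ (rz v z g) (rz v z g u - 1) ∧ Γ.Adj (ex2 v z z u) (ex2 v z r u) := by
    intro u hu r hr
    obtain ⟨a, -, e, k⟩ := rep u hu
    rw [k, k, e, show 1 + η a - 1 = 0 + η a by ring]
    exact ⟨(hU.ltr a 0 r).2 hr.1, h.fine.inv a _ _ hr.2⟩
  refine ⟨⟨⟨Γ, η, rz v z g, an, w, l, ρ, nn⟩, Set.univ, Kt v z, ex2 v z z, ex2 v z q1, ex2 v z q2,
    ex2 v z y⟩, ⟨hR, A.atr, fun _ _ _ => trivial, fun a u hu => hu,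
    fun a x => ⟨ex2_tr n1 a x, ex2_tr n1 a x, ex2_tr n1 a x, ex2_tr n1 a x⟩,
    fun u hu => h.k_st hU hu, fun u hu => ?_, fun u hu u' hu' e => ?_, fun u hu u' hu' e => ?_,
    fun u hu => ⟨ex2_n hu, ex2_n hu, ex2_n hu⟩, fun u hu => ?_, fun u hu => ft u hu q1 hq1,
    fun u hu => ft u hu q2 hq2, fun u hu q hq e => ?_, fun u hu => ?_, fun j x hx _ => ?_,
    fun j x hx _ hK => ⟨fun q hq e => ?_, fun e => ?_⟩, fun j => ⟨_, hR.l_mem j 0, trivial⟩⟩,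
    rfl, rfl, rfl, rfl, rfl, rfl, by simpa only [tr_zero] using ex2_v (v := v) (z := z) (r := z) 0,
    by simpa only [tr_zero] using ex2_z (r := z) n1 0⟩
  · obtain ⟨a, e, fu, k⟩ := rep u hu
    show ex2 v z z u ∈ Kt v z ∧ rz v z g (ex2 v z z u) = rz v z g u ∧
      ex2 v z z (ex2 v z z u) = ex2 v z z u ∧ (ex2 v z z u = u ∨ Γ.Adj u (ex2 v z z u))
    rw [k, ex2_z n1, h.fper, h.fz, fu]
    refine ⟨kt_z a, rfl, rfl, ?_⟩
    rcases e with rfl | rfl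
    exacts [Or.inr (h.fine.inv a _ _ h.vz), Or.inl rfl]
  · obtain ⟨a, e1, -, k⟩ := rep u hu
    show ex2 v z z u = ex2 v z z u'
    have e : Γ.Adj u u' := e
    have e2 := h.fine.inv (-a) _ _ e
    rw [k, ← tr_neg' a u', ex2_tr n1]
    rcases e1 with rfl | rfl
    · rw [tr_neg] at e2
      rw [h.kv e2 hu']
      simpa only [tr_zero] using congrArg (tr a) (ex2_z (r := z) n1 0).symm
    · rw [tr_neg] at e2
      rw [h.kz e2 hu']
      simpa only [tr_zero] using congrArg (tr a) (ex2_v (v := v) (z := z) (r := z) 0).symm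
  · obtain ⟨a, e1, -, k⟩ := rep u hu
    obtain ⟨b, e2, -, k'⟩ := rep u' hu'
    have e : ex2 v z z u = ex2 v z z u' := e
    show u = u' ∨ ex2 v z z u = u ∨ ex2 v z z u' = u'
    rw [k, k'] at e ⊢
    obtain rfl := tr_eq_tr e
    rcases e1 with e1 | e1
    · exact e2.elim (fun e2 => Or.inl (e1.trans e2.symm)) fun e2 => Or.inr (Or.inr e2.symm)
    · exact Or.inr (Or.inl e1.symm)
  · obtain ⟨a, -, -, k⟩ := rep u hu
    show ex2 v z q1 (ex2 v z z u) = ex2 v z q1 u ∧ ex2 v z q2 (ex2 v z z u) = ex2 v z q2 u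
    rw [k, k, k, ex2_z n1, ex2_z n1]
    exact ⟨rfl, rfl⟩
  · obtain ⟨a, e1, fu, k⟩ := rep u hu
    show ex2 v z z u = u ∧ ρ (ex2 v z q1 u) ≤ ρ q ∧ ρ q ≤ ρ (ex2 v z q2 u)
    replace hq : q ∈ LL Γ (rz v z g) (rz v z g u - 1) := hq
    rw [fu, show 1 + η a - 1 = 0 + η a by ring, ← tr_neg' a q, hU.ltr] at hq
    have e2 : Γ.Adj (tr (-a) u) (tr (-a) q) := h.fine.inv (-a) _ _ e
    rcases e1 with rfl | rfl
    · rw [tr_neg] at e2
      have := h.fnb e2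
      have := hU.lf _ _ hq
      omega
    rw [tr_neg] at e2
    obtain ⟨κ, hκ⟩ := hR.rho_tr a 0
    have a1 := m1 _ ⟨hq, e2⟩
    have a2 := m2 _ ⟨hq, e2⟩
    have a3 : ρ _ = ρ _ + κ := (hκ _ hq).2
    have a4 : ρ _ = ρ _ + κ := (hκ _ hq1.1).2
    have a5 : ρ _ = ρ _ + κ := (hκ _ hq2.1).2
    rw [tr_neg'] at a3
    rw [k, k, k]
    exact ⟨rfl, by omega, by omega⟩
  · obtain ⟨a, e1, fu, k⟩ := rep u hu
    refine ⟨?_, trivial, ?_, hu⟩
    · show ex2 v z y u ∈ LL Γ (rz v z g) (rz v z g u)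
      rw [k, fu]
      exact (hU.ltr a 1 y).2 yL
    · show u = an (ex2 v z y u) ∨ u = ex2 v z z (an (ex2 v z y u))
      rw [k, A.atr, ay, ex2_v]
      exact e1
  · have xK : x ∉ Kt v z := fun k => h.k_nl hU k hx
    obtain ⟨k1, k2⟩ := A.adj x xK
    refine ⟨k1, ?_⟩
    by_cases c : an x ∈ Kt v z
    · refine Or.inr ⟨c, ?_⟩
      have := hU.lf _ _ hx
      show rz v z g (an x) = j
      rw [rz_n xK] at this
      rw [rz_k c]
      omega
    · exact Or.inl (h.par_l hU hx k1 k2 c)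
  · obtain ⟨k1, k2⟩ := h.l_par hU hx hq
    exact A.row x ⟨q, e, k1, k2⟩ hK
  · have xK : x ∉ Kt v z := fun k => h.k_nl hU k hx
    obtain ⟨a, e1, -, k⟩ := rep (an x) hK
    have e : Γ.Adj x (ex2 v z z (an x)) := e
    show ex2 v z z (an x) = an x
    rw [k] at e ⊢
    refine (A.nz x xK hK a e ?_).symm
    rw [← (A.adj x xK).2]
    rcases e1 with e1 | e1
    · rw [e1, h.per, h.per, h.gv, h.gz]
    · rw [e1]

end Pool.Agent.P.MP_08fd93_co.FP2
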