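import Pool.Agent.P.MP_08fd93_co.FP2.T9
import Pool.Agent.P.MP_08fd93_co.FE.KL

/-! Integration: the plan on the bottom of the macro cells of a frame with short tails. -/

set_option autoImplicit false

namespace Pool.Agent.P.MP_08fd93_co.FP2

open OV PkPrtP FB FE FN

/-- Which of the edges (left foot, neck), (neck, head) on the left, (head, neck) on the right,
(neck, right foot) are strict. -/
structure Fl where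
  a : Prop
  b : Prop
  c : Prop
  d : Prop

variable {J : Type} {G : TD J} {j : ℤ} {s s' t e y k z : Vx J} {P Vs : Set (Vx J)} {x : Fl}
  {p : PD J} {π : Vx J → Vx J} {M : MU J} {d : DD (Vx J)} {u : Un J}

/-- The strict edges under the top edge `e`. -/
def SST (G : TD J) (P : Set (Vx J)) (x : Fl) (e : Vx J) : Set (Sym2 (Vx J)) :=
  {f | f ∈ PE G.Γ (G.Bt e (G.nx e)) ∧ ((∃ g ∈ P, g ∈ G.LA ∧ f = s(g, G.nx g)) ∨
    (x.a ∧ f = s(G.nk (G.nx e), G.xl (G.an (G.nx e)))) ∨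
    (x.b ∧ f = s(G.an (G.nx e), G.nk (G.nx e))) ∨ (x.c ∧ f = s(G.an e, G.nk e)) ∨
    (x.d ∧ f = s(G.nk e, G.xr (G.an e))))}

/-- The system of pins `P` with the visible vertices `Vs`. -/
def PQT (G : TD J) (P Vs : Set (Vx J)) (x : Fl) : PQ J :=
  ⟨P, Vs, SST G P x, fun _ => False, ∅⟩

/-- `e` ends at the first vertex over a neck. -/
def IsA (G : TD J) (e : Vx J) : Prop :=
  e ∈ G.LA ∧ G.an (G.nx e) ∈ G.V ∧ G.nk e ≠ G.nk (G.nx e)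

/-- `e` ends at the first child of a head. -/
def IsB (G : TD J) (e : Vx J) : Prop :=
  e ∈ G.LA ∧ G.nk (G.nx e) ≠ G.an (G.nx e) ∧ G.an e ≠ G.an (G.nx e)

/-- `e` begins at the last child of a head. -/
def IsC (G : TD J) (e : Vx J) : Prop := e ∈ G.LA ∧ G.nk e ≠ G.an e ∧ G.an e ≠ G.an (G.nx e)

/-- `e` begins at the last vertex over a neck. -/
def IsD (G : TD J) (e : Vx J) : Prop := e ∈ G.LA ∧ G.an e ∈ G.V ∧ G.nk e ≠ G.nk (G.nx e)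

/-- The edge `k z` is monochromatic or paid by a spare token in the cell under `e`. -/
def PayT (p : PD J) (π : Vx J → Vx J) (e k z : Vx J) : Prop :=
  p.c k.1 = p.c z.1 ∨ (p.o k = k ∧ p.kc k = e ∧ π k = z) ∨ (p.o z = z ∧ p.kc z = e ∧ π z = k)

/-- The conditions at the tails; a spare token of `k` pays the edge to `π k`. -/
structure StT (G : TD J) (p : PD J) (π : Vx J → Vx J) (Vs : Set (Vx J)) (x : Fl) : Prop where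
  kid : ∀ k ∈ G.V, ∃ t ∈ G.LA, t ∈ Vs ∧ k ∈ G.Ct t
  kc : ∀ k ∈ G.V, (p.c k.1).1 = p.cls (G.f k - 1)
  payA : ∀ e, IsA G e → x.a ∨ PayT p π e (G.nk (G.nx e)) (G.xl (G.an (G.nx e)))
  payB : ∀ e, IsB G e → x.b ∨ PayT p π e (G.an (G.nx e)) (G.nk (G.nx e))
  payC : ∀ e, IsC G e → x.c ∨ PayT p π e (G.an e) (G.nk e)
  payD : ∀ e, IsD G e → x.d ∨ PayT p π e (G.nk e) (G.xr (G.an e))

/-- The disc of a macro cell. -/
structure DC (G : TD J) (M : MU J) (d : DD (Vx J)) : Prop where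
  hM : MVal (FT G) (XT G) G.Pr M
  mc : MC (FT G) (XT G) M d (G.Vis M.s M.s') (G.R (ftT G) M.s M.s')
  nov : G.NoV M.s M.s'
  eX : d.X = G.Bt M.s M.s'
  ea : d.a = G.an M.s
  eb : d.b = G.an M.s'
  eI : d.I = M.Pk ∪ G.Im M.s M.s'
  eρ : ∀ v ∈ d.X, d.ρ v = G.ord M.s M.s' v

theorem ST.dc (h : ST G) (st : StT G p π Vs x) (hM : MVal (FT G) (XT G) G.Pr M)
    (o : ∀ u ∈ M.us, (PQT G P Vs x).Nv (FT G) u) : ∃ d, DC G M d := by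
  have hN : G.NoV M.s M.s' := h.nov hM.hs hM.hs' fun k hk e => by
    obtain ⟨t, t1, t2, t3⟩ := st.kid k hk
    have : t ∈ G.L (G.f M.s) := by
      have := h.tf.ct_f t1 (h.pr t) t3
      rwa [← show G.f k = G.f M.s from e, this]
    exact ⟨t, this, t3, vis_out h.lay hM o this t2 (h.pr t)⟩
  obtain ⟨d, a, b, c, e, f, g⟩ := h.tf.mc h.fts hM hN
  exact ⟨d, hM, a, hN, b, c, e, f, g⟩

theorem DC.su (hd : DC G M d) (he : e ∈ G.L (G.f M.s)) (l1 : G.ρ M.s ≤ G.ρ e)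
    (l2 : G.ρ e < G.ρ M.s') : SST G P x e ⊆ (PQT G P Vs x).SU (FT G) M := fun _ k =>
  let ⟨u, hu, c⟩ := hd.hM.cov e ⟨he, l1, l2.le⟩ l2
  ⟨u, hu, e, c, k⟩

theorem DC.rng (h : ST G) (hd : DC G M d) (hu : u ∈ M.us) (c : (FT G).Cov u e) :
    e ∈ G.L (G.f M.s) ∧ G.ρ M.s ≤ G.ρ e ∧ G.ρ e < G.ρ M.s' :=
  let ⟨_, t1, t2⟩ := hd.hM.val u hu
  ⟨(hd.hM.lev h.lay hu : G.f u.s = G.f M.s) ▸ c.1, t1.2.1.trans c.2.1, c.2.2.trans_le t2.2.2⟩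

theorem DC.bt (h : ST G) (hd : DC G M d) (hu : u ∈ M.us) (c : (FT G).Cov u e) :
    G.Bt e (G.nx e) ⊆ d.X := by
  obtain ⟨a, b, r⟩ := hd.rng h hu c
  obtain ⟨n1, n2, -⟩ := h.tf.toRows.nx_mem a
  rw [hd.eX]
  exact h.bt_sub hd.hM.hs hd.hM.hs' hd.nov a n1 b (by omega) (by omega)

theorem DC.hb (h : ST G) (hd : DC G M d) (h1 : y ∈ d.X) (hk : y ∉ G.V) (h2 : G.nx y ∈ d.X)
    (g : y ∈ P) : s(y, G.nx y) ∈ (PQT G P Vs x).SU (FT G) M := by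
  rw [hd.eX] at h1 h2
  obtain ⟨e, a, b, c, m1, m2⟩ := h.row_ex hd.hM.hs hd.hM.hs' hd.nov hd.hM.lt h1 hk h2
  have l := (h.tf.bt_line hd.hM.hs hd.hM.ps hd.hM.hs' hd.hM.ps' hd.hM.lt.le h1 hk).1
  exact hd.su a b c ⟨mem_PE.2 ⟨m1, m2, (h.tf.toRows.nx_mem l).2.2⟩,
    Or.inl ⟨y, g, h.tf.toRows.la l, rfl⟩⟩

theorem TFrm.hd_adj (h : TFrm G) (n : G.nk s ≠ G.an s) : G.an s ∈ G.V ∧ G.Γ.Adj (G.an s) (G.nk s) :=
  have v : G.an s ∈ G.V := by_contra fun c => n (h.nk_o c)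
  ⟨v, (h.mv _ v).2.2.2.resolve_left n⟩

theorem ST.ssA (h : ST G) (i : IsA G e) (r : x.a) :
    s(G.nk (G.nx e), G.xl (G.an (G.nx e))) ∈ SST G P x e := by
  obtain ⟨n1, n2, -⟩ := h.tf.toRows.nx_mem i.1
  exact ⟨mem_PE.2 ⟨(bt_n i.2.2).2, (h.feet_bt i.1 n1 (by omega) i.2.2).2, (h.tf.vl _ i.2.1).2⟩,
    Or.inr (Or.inl ⟨r, rfl⟩)⟩

theorem ST.ssB (h : ST G) (i : IsB G e) (r : x.b) :
    s(G.an (G.nx e), G.nk (G.nx e)) ∈ SST G P x e :=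
  ⟨mem_PE.2 ⟨bt_b, (h.tf.bt_nk i.2.2).2, (h.tf.hd_adj i.2.1).2⟩, Or.inr (Or.inr (Or.inl ⟨r, rfl⟩))⟩

theorem ST.ssC (h : ST G) (i : IsC G e) (r : x.c) : s(G.an e, G.nk e) ∈ SST G P x e :=
  ⟨mem_PE.2 ⟨bt_a, (h.tf.bt_nk i.2.2).1, (h.tf.hd_adj i.2.1).2⟩,
    Or.inr (Or.inr (Or.inr (Or.inl ⟨r, rfl⟩)))⟩

theorem ST.ssD (h : ST G) (i : IsD G e) (r : x.d) : s(G.nk e, G.xr (G.an e)) ∈ SST G P x e := by
  obtain ⟨n1, n2, -⟩ := h.tf.toRows.nx_mem i.1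
  exact ⟨mem_PE.2 ⟨(bt_n i.2.2).1, (h.feet_bt i.1 n1 (by omega) i.2.2).1, (h.tf.vr _ i.2.1).2⟩,
    Or.inr (Or.inr (Or.inr (Or.inr ⟨r, rfl⟩)))⟩

/-- the top edges over the edges from the necks to the feet -/
theorem DC.exN (h : ST G) (hd : DC G M d) (ne : G.nk M.s ≠ G.nk M.s') :
    (G.an M.s ∈ G.V → ∃ e ∈ G.L (G.f M.s), G.ρ M.s ≤ G.ρ e ∧ G.ρ e < G.ρ M.s' ∧ IsD G e ∧
      G.nk e = G.nk M.s ∧ G.xr (G.an e) = G.xr (G.an M.s)) ∧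
    (G.an M.s' ∈ G.V → ∃ e ∈ G.L (G.f M.s), G.ρ M.s ≤ G.ρ e ∧ G.ρ e < G.ρ M.s' ∧ IsA G e ∧
      G.nk (G.nx e) = G.nk M.s' ∧ G.xl (G.an (G.nx e)) = G.xl (G.an M.s')) := by
  obtain ⟨⟨y, y1, y2, y3, y4, y5⟩, z, z1, z2, z3, z4, z5⟩ :=
    h.last (φ := G.nk) hd.hM.hs hd.hM.hs' hd.hM.lt.le ne
  exact ⟨fun v => ⟨y, y1, y2, y3, ⟨h.tf.toRows.la y1, (h.tf.nk_same y4).2 v, y4 ▸ y5.symm⟩, y4,
      (h.tf.nk_xx y4).2⟩,
    fun v => ⟨z, z1, z2, z3, ⟨h.tf.toRows.la z1, (h.tf.nk_same z5).2 v, z5 ▸ z4⟩, z5,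
      (h.tf.nk_xx z5).1⟩⟩

/-- the top edges over the edges from the heads to the necks -/
theorem DC.exH (h : ST G) (hd : DC G M d) (ne : G.an M.s ≠ G.an M.s') :
    (G.nk M.s ≠ G.an M.s → ∃ e ∈ G.L (G.f M.s), G.ρ M.s ≤ G.ρ e ∧ G.ρ e < G.ρ M.s' ∧ IsC G e ∧
      G.an e = G.an M.s ∧ G.nk e = G.nk M.s) ∧
    (G.nk M.s' ≠ G.an M.s' → ∃ e ∈ G.L (G.f M.s), G.ρ M.s ≤ G.ρ e ∧ G.ρ e < G.ρ M.s' ∧ IsB G e ∧
      G.an (G.nx e) = G.an M.s' ∧ G.nk (G.nx e) = G.nk M.s') := by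
  obtain ⟨⟨y, y1, y2, y3, y4, y5⟩, z, z1, z2, z3, z4, z5⟩ :=
    h.last (φ := G.an) hd.hM.hs hd.hM.hs' hd.hM.lt.le ne
  have y6 : G.nk y = G.nk M.s := congrArg G.md y4
  have z6 : G.nk (G.nx z) = G.nk M.s' := congrArg G.md z5
  exact ⟨fun v => ⟨y, y1, y2, y3, ⟨h.tf.toRows.la y1, by rwa [y4, y6], y4 ▸ y5.symm⟩, y4, y6⟩,
    fun v => ⟨z, z1, z2, z3, ⟨h.tf.toRows.la z1, by rwa [z5, z6], z5 ▸ z4⟩, z5, z6⟩⟩

theorem DC.pay (hd : DC G M d) (he : e ∈ G.L (G.f M.s)) (l1 : G.ρ M.s ≤ G.ρ e)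
    (l2 : G.ρ e < G.ρ M.s') {S : Set (Sym2 (Vx J))} (m : s(k, z) ∈ S ∨ PayT p π e k z) :
    (s(k, z) ∈ S ∨ p.c k.1 = p.c z.1 ∨ (p.Sp0 (FT G) M k ∧ π k = z) ∨
      (p.Sp0 (FT G) M z ∧ π z = k)) ∧ (s(z, k) ∈ S ∨ p.c z.1 = p.c k.1 ∨
        (p.Sp0 (FT G) M z ∧ π z = k) ∨ (p.Sp0 (FT G) M k ∧ π k = z)) := by
  have cv := hd.hM.cov e ⟨he, l1, l2.le⟩ l2
  rcases m with m | m | m | m
  exacts [⟨Or.inl m, Or.inl (Sym2.eq_swap ▸ m)⟩, ⟨Or.inr (Or.inl m), Or.inr (Or.inl m.symm)⟩,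
    ⟨Or.inr (Or.inr (Or.inl ⟨⟨m.1, m.2.1 ▸ cv⟩, m.2.2⟩)),
      Or.inr (Or.inr (Or.inr ⟨⟨m.1, m.2.1 ▸ cv⟩, m.2.2⟩))⟩,
    ⟨Or.inr (Or.inr (Or.inr ⟨⟨m.1, m.2.1 ▸ cv⟩, m.2.2⟩)),
      Or.inr (Or.inr (Or.inl ⟨⟨m.1, m.2.1 ▸ cv⟩, m.2.2⟩))⟩]

/-- the conditions of the plan on the bottom of a macro cell -/
theorem DC.cel (h : ST G) (hd : DC G M d) (pl : Plan0 (FT G) (XT G) p) (st : StT G p π Vs x) :
    Cel (FT G) (XT G) p (PQT G P Vs x) M d (G.Vis M.s M.s') (G.R (ftT G) M.s M.s')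
      (G.Vis M.s M.s') := by
  have hs : M.s ∈ G.L (G.f M.s) := hd.hM.hs
  have hs' : M.s' ∈ G.L (G.f M.s) := hd.hM.hs'
  have lt : G.ρ M.s < G.ρ M.s' := hd.hM.lt
  have R := h.tf.toRows
  refine ⟨hd.mc, ?_, fun v hv _ => Or.inl hv, fun y a b c g _ => hd.hb h a b c g,
    ⟨π, fun a ha b hb e hk => ?_⟩, fun a ha hk => ?_, fun c c1 c2 => ?_⟩
  · rintro f ⟨u, hu, e, c, k⟩
    exact PE.mono (hd.bt h hu c) k.1
  · rw [hd.eX] at ha hb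
    have hk : a ∈ G.V := hk
    by_cases nb : b ∈ G.V
    · obtain ⟨ne, w, n, w1, w2⟩ := h.neck ha hb e hk nb
      have key : s(w, G.md w) ∈ (PQT G P Vs x).SU (FT G) M ∨ ∃ y ∈ G.L (G.f M.s),
          G.ρ M.s ≤ G.ρ y ∧ G.ρ y < G.ρ M.s' ∧ PayT p π y w (G.md w) := by
        rcases w1 with rfl | rfl
        · obtain ⟨y, y1, y2, y3, i, y4, y5⟩ := (hd.exH h ne).1 n
          have := (st.payC y i).imp_left fun m => hd.su (Vs := Vs) y1 y2 y3 (h.ssC (P := P) i m)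
          rw [y4, y5] at this
          exact this.imp_right fun m => ⟨y, y1, y2, y3, m⟩
        · obtain ⟨y, y1, y2, y3, i, y4, y5⟩ := (hd.exH h ne).2 n
          have := (st.payB y i).imp_left fun m => hd.su (Vs := Vs) y1 y2 y3 (h.ssB (P := P) i m)
          rw [y4, y5] at this
          exact this.imp_right fun m => ⟨y, y1, y2, y3, m⟩
      rcases key with m | ⟨y, y1, y2, y3, m⟩
      · rcases w2 with ⟨rfl, rfl⟩ | ⟨rfl, rfl⟩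
        exacts [Or.inl m, Or.inl (Sym2.eq_swap ▸ m)]
      · rcases w2 with ⟨rfl, rfl⟩ | ⟨rfl, rfl⟩
        exacts [(hd.pay y1 y2 y3 (Or.inr m)).1, (hd.pay y1 y2 y3 (Or.inr m)).2]
    · obtain ⟨ne, ⟨rfl, rfl⟩ | ⟨rfl, rfl⟩⟩ := h.stem hs hs' lt.le ha hb e hk nb
      · obtain ⟨y, y1, y2, y3, i, y4, y5⟩ := (hd.exN h ne).1 (h.tf.nk_v.1 hk)
        have := (st.payD y i).imp_left fun m => hd.su (Vs := Vs) y1 y2 y3 (h.ssD (P := P) i m)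
        rw [y4, y5] at this
        exact (hd.pay y1 y2 y3 this).1
      · obtain ⟨y, y1, y2, y3, i, y4, y5⟩ := (hd.exN h ne).2 (h.tf.nk_v.1 hk)
        have := (st.payA y i).imp_left fun m => hd.su (Vs := Vs) y1 y2 y3 (h.ssA (P := P) i m)
        rw [y4, y5] at this
        exact (hd.pay y1 y2 y3 this).1
  · rw [hd.eX] at ha
    have hk : a ∈ G.V := hk
    rw [st.kc a hk]
    exact congrArg (fun i => p.cls (i - 1)) ((h.tf.bt_v ha hk).elim (h.tf.ct_f hs (h.pr _))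
      (h.tf.ct_f hs' (h.pr _)))
  · rcases h.rest hs hs' (all_T _ _ h.lay.fine.pl) with r | ⟨r1, r2, r3, r4⟩
    · rw [r]
      exact ⟨c, Rec.empty _ _⟩
    obtain ⟨f1, f2, f3⟩ := h.tf.feet hs (h.pr _)
    have m := (h.tf.mono hs (h.pr _) hs' (h.pr _) lt.le).resolve_left r2
    have b := (h.feet_bt hs hs' lt.le r2).1
    have kn := h.tf.nk_v.2 r1
    refine r4 c fun k => r3 ?_
    rw [c1 _ kn, c2 _ ⟨f1, le_rfl, f3.trans m⟩ (Or.inl fun k => r3 (R.inj f1 f2 (le_antisymm f3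
        (h.tf.bt_line hs (h.pr _) hs' (h.pr _) lt.le (hd.eX ▸ k) (h.tf.l_nv f1)).2.1))),
      c2 _ ⟨f2, f3, m⟩ (Or.inr (Or.inl ⟨b, Or.inr (Or.inl ⟨r1, rfl⟩)⟩))] at k
    exact (pl.kmono _ kn _ (Or.inl (R.la f1)) (h.tf.vl _ r1).2 k.1.symm).1.symm.trans
      (pl.kmono _ kn _ (Or.inl (R.la f2)) (h.tf.vr _ r1).2 (k.1.trans k.2).symm).1

end Pool.Agent.P.MP_08fd93_co.FP2
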