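import Pool.Agent.P.MP_08fd93_co.FP2.T10
import Pool.Agent.P.MP_08fd93_co.FU.TP1

/-! Integration: necks and feet stay visible; the colouring of a frame with short tails. -/

set_option autoImplicit false

namespace Pool.Agent.P.MP_08fd93_co.FP2

open OV PkPrtP FB FE FN FU

section

variable {W : Type} {H : SimpleGraph W} {d : DD W} {X' P : Set W}

theorem shx_left {Z X I : Set W} {ρ ρ' σ : W → ℤ} {ax : W → W} {a b a' b' : W}
    (h : ShX H Z X I ρ' a' b' X' P σ ax) (px : Pth H X ρ a b) (ha : a ∈ X') (xz : ∀ x ∈ X, x ∉ Z)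
    (n : ℕ) : ∀ x ∈ X, x ∉ X' → ρ x ≤ ρ a + n → ∃ t ∈ X, ρ t < ρ x ∧ H.Adj (ax x) t ∧ t ∈ X' ∧
      ∀ y ∈ X, y ∈ X' → ρ y < ρ x → ρ y ≤ ρ t := by
  induction n with
  | zero =>
    intro x hx n l
    have := px.lo_lt hx fun c => n (c ▸ ha)
    omega
  | succ n ih =>
    intro x hx nx l
    obtain ⟨y, y1, y2, y3, y4⟩ := px.pred hx fun c => nx (c ▸ ha)
    have m := (h.xx hx).resolve_left nx
    rcases h.pk x m y y3.symm with r | r | r | r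
    · exact absurd r (xz y y1)
    · have ny : y ∉ X' := fun c => h.dis y c r.1
      obtain ⟨t, t1, t2, t3, t4, t5⟩ := ih y y1 ny (by omega)
      refine ⟨t, t1, by omega, r.2 ▸ t3, t4, fun z z1 z2 z3 => t5 z z1 z2 ?_⟩
      exact lt_of_le_of_ne (y4 z z1 z3) fun c => ny (px.inj z z1 y y1 c ▸ z2)
    · exact absurd (r ▸ y1) (h.ap x m).2
    · exact ⟨y, y1, y2, r.1.symm, r.2, fun z z1 _ z3 => y4 z z1 z3⟩

/-- a hidden vertex lies under an inner vertex that sees the next visible vertices -/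
theorem sh_span (D : Disc H d) (h : Sh H d.Z d.X d.I d.ρ d.a d.b X' P) {x : W} (hx : x ∈ d.X)
    (n : x ∉ X') : ∃ w ∈ d.I, ∃ t ∈ d.X, ∃ t' ∈ d.X, H.Adj w t ∧ H.Adj w t' ∧ d.ρ t < d.ρ x ∧
      d.ρ x < d.ρ t' ∧ ∀ y ∈ d.X, y ∈ X' → d.ρ y ≤ d.ρ t ∨ d.ρ t' ≤ d.ρ y := by
  have ha := h.ha
  have hb := h.hb
  obtain ⟨σ, ax, h⟩ := h
  obtain ⟨t, t1, t2, t3, -, t5⟩ := shx_left h D.px ha (fun _ => D.xz) (d.ρ x - d.ρ d.a).toNat x hx n
    (by omega)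
  obtain ⟨r, r1, r2, r3, -, r5⟩ := shx_left h (D.px.rev 0) hb (fun _ => D.xz)
    (d.ρ d.b - d.ρ x).toNat x hx n (by omega)
  obtain ⟨z1, z2⟩ := h.ap x ((h.xx hx).resolve_left n)
  refine ⟨_, (h.xs z1).resolve_left z2, t, t1, r, r1, t3, r3, t2, by omega, fun y y1 y2 => ?_⟩
  rcases lt_trichotomy (d.ρ y) (d.ρ x) with l | l | l
  · exact Or.inl (t5 y y1 y2 l)
  · exact absurd (D.px.inj y y1 x hx l ▸ y2) n
  · have := r5 y y1 y2 (by omega)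
    omega

/-- the second and the third vertex of the first path are kept -/
theorem keep_side (D : Disc H d) (h : Sh H d.Z d.X d.I d.ρ d.a d.b X' P) {z q : W} (hz : z ∈ d.X)
    (hq : q ∈ d.X) (vz : z = d.a ∨ H.Adj d.a z) (zq : H.Adj z q) (l : d.ρ z < d.ρ q)
    (A : z ∈ X' ∨ ∀ w ∈ d.I, H.Adj w d.a → ¬ H.Adj w q)
    (B : z ∈ X' ∨ q ∈ X' ∨ ∀ w ∈ d.I, H.Adj w d.a → ∀ y ∈ d.X, d.ρ q < d.ρ y → ¬ H.Adj w y)
    (C : q ∈ X' ∨ ∀ w ∈ d.I, H.Adj w z → ∀ y ∈ d.X, d.ρ q < d.ρ y → ¬ H.Adj w y) :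
    z ∈ X' ∧ q ∈ X' := by
  have kz : z ∈ X' := by
    by_contra n
    obtain ⟨w, w1, t, t1, r, r1, a, b, c, e, f⟩ := sh_span D h hz n
    have := D.px.lo t t1
    have := D.px.nb D.px.ha hz (vz.resolve_left fun g => n (g ▸ h.ha)) t1
    obtain rfl := D.px.inj t t1 _ D.px.ha (by omega)
    have := D.px.nb hz hq zq r1
    rcases eq_or_lt_of_le (show d.ρ q ≤ d.ρ r by omega) with g | g
    · exact A.resolve_left n w w1 a (D.px.inj q hq r r1 g ▸ b)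
    · rcases B.resolve_left n with m | m
      · have := f q hq m
        omega
      · exact m w w1 a r r1 g b
  refine ⟨kz, by_contra fun n => ?_⟩
  obtain ⟨w, w1, t, t1, r, r1, a, b, c, e, f⟩ := sh_span D h hq n
  have := f z hz kz
  have := D.px.nb hz hq zq t1
  obtain rfl := D.px.inj t t1 z hz (by omega)
  exact C.resolve_left n w w1 a r r1 e b

theorem keep_side' (D : Disc H d) (h : Sh H d.Z d.X d.I d.ρ d.a d.b X' P) {z q : W} (hz : z ∈ d.X)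
    (hq : q ∈ d.X) (vz : z = d.b ∨ H.Adj d.b z) (zq : H.Adj z q) (l : d.ρ q < d.ρ z)
    (A : z ∈ X' ∨ ∀ w ∈ d.I, H.Adj w d.b → ¬ H.Adj w q)
    (B : z ∈ X' ∨ q ∈ X' ∨ ∀ w ∈ d.I, H.Adj w d.b → ∀ y ∈ d.X, d.ρ y < d.ρ q → ¬ H.Adj w y)
    (C : q ∈ X' ∨ ∀ w ∈ d.I, H.Adj w z → ∀ y ∈ d.X, d.ρ y < d.ρ q → ¬ H.Adj w y) :
    z ∈ X' ∧ q ∈ X' :=
  keep_side (d := rvD d) (disc_rv D) h.rv hz hq vz zq (sub_lt_sub_left l 0) A
    (B.imp_right (Or.imp_right fun m w a b y c e => m w a b y c ((sub_lt_sub_iff_left 0).1 e)))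
    (C.imp_right fun m w a b y c e => m w a b y c ((sub_lt_sub_iff_left 0).1 e))

end

variable {J : Type} {G : TD J} {j : ℤ} {s s' t e y k z w : Vx J} {P Vs B : Set (Vx J)} {x : Fl}
  {p : PD J} {π φ : Vx J → Vx J} {M : MU J} {d : DD (Vx J)} {u : Un J}

/-- `s`, `s'` bound a cell between two different necks or rungs. -/
structure Iv (G : TD J) (s s' : Vx J) : Prop where
  hs : s ∈ G.LA
  hs' : s' ∈ G.L (G.f s)
  lt : G.ρ s < G.ρ s'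
  nov : G.NoV s s'
  ne : G.nk s ≠ G.nk s'

/-- Some vertex strictly inside the cell under the interval from `s` to `s'` sees `k` and `y`. -/
def Hub (G : TD J) (s s' k y : Vx J) : Prop :=
  ∃ w, (w ∈ G.Im s s' ∨ (w ∈ G.L (G.f s) ∧ G.ρ s < G.ρ w ∧ G.ρ w < G.ρ s')) ∧
    G.Γ.Adj w k ∧ G.Γ.Adj w y

/-- The neck under `s` is protected on the right. -/
def ZR (G : TD J) (Vs : Set (Vx J)) (x : Fl) (s : Vx J) : Prop :=
  G.nk s = G.an s ∨ x.c ∨ x.d ∨ ∃ t ∈ Vs, t ∈ G.L (G.f s) ∧ G.ρ s < G.ρ t ∧ G.nk t = G.nk s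

/-- The right foot under `s` is protected. -/
def QR (G : TD J) (P Vs : Set (Vx J)) (x : Fl) (s : Vx J) : Prop :=
  x.d ∨ G.xr (G.an s) ∈ P ∨
    ∃ t ∈ Vs, t ∈ G.L (G.f s) ∧ G.ρ s < G.ρ t ∧ G.an t = G.xr (G.an s)

/-- The neck under `s` is protected on the left. -/
def ZL (G : TD J) (Vs : Set (Vx J)) (x : Fl) (s : Vx J) : Prop :=
  G.nk s = G.an s ∨ x.b ∨ x.a ∨ ∃ t ∈ Vs, t ∈ G.L (G.f s) ∧ G.ρ t < G.ρ s ∧ G.nk t = G.nk s

/-- The left foot under `s` is protected. -/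
def QL (G : TD J) (P Vs : Set (Vx J)) (x : Fl) (s : Vx J) : Prop :=
  x.a ∨ (∃ g ∈ P, g ∈ G.LA ∧ G.nx g = G.xl (G.an s)) ∨
    ∃ t ∈ Vs, t ∈ G.L (G.f s) ∧ G.ρ t < G.ρ s ∧ G.an t = G.xl (G.an s)

/-- No cap can hide the neck or the foot on the right side of a tail. -/
def KeepR (G : TD J) (P Vs : Set (Vx J)) (x : Fl) : Prop :=
  ∀ s s', Iv G s s' → G.an s ∈ G.V → (ZR G Vs x s ∨ ¬ Hub G s s' (G.an s) (G.xr (G.an s))) ∧
    (QR G P Vs x s ∨ ∀ y ∈ G.L (G.f s - 1), G.ρ (G.xr (G.an s)) < G.ρ y →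
      (ZR G Vs x s ∨ ¬ Hub G s s' (G.an s) y) ∧ ¬ Hub G s s' (G.nk s) y)

/-- No cap can hide the neck or the foot on the left side of a tail. -/
def KeepL (G : TD J) (P Vs : Set (Vx J)) (x : Fl) : Prop :=
  ∀ s s', Iv G s s' → G.an s' ∈ G.V → (ZL G Vs x s' ∨ ¬ Hub G s s' (G.an s') (G.xl (G.an s'))) ∧
    (QL G P Vs x s' ∨ ∀ y ∈ G.L (G.f s - 1), G.ρ y < G.ρ (G.xl (G.an s')) →
      (ZL G Vs x s' ∨ ¬ Hub G s s' (G.an s') y) ∧ ¬ Hub G s s' (G.nk s') y)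

theorem keepR_d (r : x.d) : KeepR G P Vs x :=
  fun _ _ _ _ => ⟨Or.inl (Or.inr (Or.inr (Or.inl r))), Or.inl (Or.inl r)⟩

theorem keepL_a (r : x.a) : KeepL G P Vs x :=
  fun _ _ _ _ => ⟨Or.inl (Or.inr (Or.inr (Or.inl r))), Or.inl (Or.inl r)⟩

theorem keepR_c (r : x.c) (g : ∀ k ∈ G.V, G.xr k ∈ P) : KeepR G P Vs x :=
  fun _ _ _ v => ⟨Or.inl (Or.inr (Or.inl r)), Or.inl (Or.inr (Or.inl (g _ v)))⟩

theorem keepL_b (r : x.b) (g : ∀ k ∈ G.V, ∃ g ∈ P, g ∈ G.LA ∧ G.nx g = G.xl k) : KeepL G P Vs x :=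
  fun _ _ _ v => ⟨Or.inl (Or.inr (Or.inl r)), Or.inl (Or.inr (Or.inl (g _ v)))⟩

theorem DC.hub (h : ST G) (hd : DC G M d) (hw : w ∈ d.I) (hk : k ∈ G.St (G.f M.s))
    (a : G.Γ.Adj w k) (b : G.Γ.Adj w y) : Hub G M.s M.s' k y := by
  refine ⟨w, ?_, a, b⟩
  rw [hd.eI] at hw
  rcases hw with ⟨u, hu, m⟩ | m
  · obtain ⟨vu, t1, t2⟩ := hd.hM.val u hu
    have cu := capOf vu m
    have lv : G.f u.s = G.f M.s := hd.hM.lev h.lay hu
    rcases cu.sub m with r | r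
    · obtain ⟨o1, o2⟩ := (cu.old w r).1 m
      exact Or.inr ⟨lv ▸ r, lt_of_le_of_lt t1.2.1 o1, lt_of_lt_of_le o2 t2.2.2⟩
    · have r : w ∈ G.U (G.f M.s + 1) := lv ▸ r
      have := h.lay.bd _ w r k a
      rw [add_sub_cancel_right] at this
      exact absurd this.symm hk.2
  · exact Or.inl m

/-- two feet that coincide: the other end of the bottom is a rung -/
theorem ST.both (h : ST G) (ne : G.nk s ≠ G.nk s') (e : G.xr (G.an s) = G.xl (G.an s'))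
    (a : G.an s ∈ G.V) : G.an s' ∉ G.V := fun b =>
  ne ((h.tf.mm _).symm.trans ((h.kq _ (h.tf.nk_v.2 a) _ (h.tf.nk_v.2 b) _ (h.tf.vr _ a).2.symm
    (e ▸ (h.tf.vl _ b).2.symm)).trans (h.tf.mm _)))

section keep

variable (h : ST G) (hd : DC G M d) (o : ∀ u ∈ M.us, (PQT G P Vs x).Nv (FT G) u)
  {X' Q : Set (Vx J)} (sh : Sh G.Γ d.Z d.X d.I d.ρ d.a d.b X' Q)
  (kp : Kp d ((PQT G P Vs x).SU (FT G) M) ⊆ X') (ne : G.nk M.s ≠ G.nk M.s')
include h hd o sh kp ne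

theorem DC.keepR (v : G.an M.s ∈ G.V) (K : KeepR G P Vs x) :
    G.nk M.s ∈ X' ∧ G.xr (G.an M.s) ∈ X' := by
  have hs : M.s ∈ G.L (G.f M.s) := hd.hM.hs
  have hs' : M.s' ∈ G.L (G.f M.s) := hd.hM.hs'
  have lt : G.ρ M.s < G.ρ M.s' := hd.hM.lt
  have R := h.tf.toRows
  have f := h.tf.feet hs (h.pr _)
  have f' := h.tf.feet hs' (h.pr _)
  have m := (h.tf.mono hs (h.pr _) hs' (h.pr _) lt.le).resolve_left ne
  have bz : G.nk M.s ∈ d.X := hd.eX ▸ (bt_n ne).1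
  have bq : G.xr (G.an M.s) ∈ d.X := hd.eX ▸ (h.feet_bt hs hs' lt.le ne).1
  have vis : ∀ t ∈ Vs, t ∈ G.L (G.f M.s) → G.ρ M.s < G.ρ t → G.ρ M.s' ≤ G.ρ t := fun t a b c =>
    (vis_out h.lay hd.hM o b a (h.pr _)).resolve_left (not_le.2 c)
  have sd : x.d → G.nk M.s ∈ X' ∧ G.xr (G.an M.s) ∈ X' := fun r => by
    obtain ⟨y, y1, y2, y3, i, y4, y5⟩ := (hd.exN h ne).1 v
    have := hd.su (Vs := Vs) y1 y2 y3 (h.ssD (P := P) i r)
    rw [y4, y5] at this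
    exact ⟨kp (Or.inr (Or.inr ⟨_, this, Sym2.mem_mk_left _ _⟩)),
      kp (Or.inr (Or.inr ⟨_, this, Sym2.mem_mk_right _ _⟩))⟩
  have kz : ZR G Vs x M.s → G.nk M.s ∈ X' := fun r => by
    by_cases c : G.nk M.s = G.an M.s
    · exact kp (Or.inl (c.trans hd.ea.symm))
    rcases r.resolve_left c with r | r | ⟨t, t1, t2, t3, t4⟩
    · obtain ⟨y, y1, y2, y3, i, y4, y5⟩ := (hd.exH h fun g => ne (congrArg G.md g)).1 c
      exact kp (Or.inr (Or.inr ⟨_, hd.su y1 y2 y3 (h.ssC i r), y5 ▸ Sym2.mem_mk_right _ _⟩))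
    · exact (sd r).1
    · exact absurd (h.tf.btw_nk hs (h.pr _) hs' (h.pr _) t2 (h.pr _) lt.le (vis t t1 t2 t3) t4.symm
        v).symm ne
  have co : G.ρ (G.xl (G.an M.s')) ≤ G.ρ (G.xr (G.an M.s)) → G.xr (G.an M.s) ∈ X' := fun l => by
    have e := R.inj f.2.1 f'.1 (le_antisymm m l)
    exact kp (Or.inr (Or.inl ((e.trans (h.tf.xo _ (h.both ne e v)).1).trans hd.eb.symm)))
  have kq : QR G P Vs x M.s → G.xr (G.an M.s) ∈ X' := by
    rintro (r | r | ⟨t, t1, t2, t3, t4⟩)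
    · exact (sd r).2
    · by_cases l : G.ρ (G.xl (G.an M.s')) ≤ G.ρ (G.xr (G.an M.s))
      · exact co l
      obtain ⟨m1, m2, -⟩ := R.nx_mem f.2.1
      exact kp (Or.inr (Or.inr ⟨_, hd.hb h bq (h.tf.l_nv f.2.1)
        (hd.eX ▸ h.bt_of hs ne m1 (by omega) (by omega)) r, Sym2.mem_mk_left _ _⟩))
    · have := (h.tf.mono' hs' (h.pr _) t2 (h.pr _) (vis t t1 t2 t3)).1
      rw [t4, (h.tf.xo _ (h.tf.l_nv f.2.1)).1] at this
      exact co this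
  have oq : d.ρ (G.xr (G.an M.s)) = G.ρ (G.xr (G.an M.s)) := hd.mc.rx _ bq (h.tf.l_nv f.2.1)
  have lo : ∀ y ∈ d.X, y ∈ G.Ct M.s → d.ρ y < d.ρ (G.xr (G.an M.s)) := fun y a b => by
    rw [oq, hd.eρ y a]
    exact h.tf.ord_lo ne b
  have far : ∀ w, ∀ k ∈ G.Ct M.s, G.Γ.Adj w k → ∀ y ∈ d.X, d.ρ (G.xr (G.an M.s)) < d.ρ y →
      G.Γ.Adj w y → y ∈ G.L (G.f M.s - 1) ∧ G.ρ (G.xr (G.an M.s)) < G.ρ y := by
    intro w k hk a y hy l b
    have c : y ∉ G.V := fun c => by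
      rcases h.tf.bt_v (hd.eX ▸ hy) c with r | r
      · exact absurd (lo y hy r) (not_lt.2 l.le)
      · exact ne ((h.tf.ct_md hk).symm.trans ((h.kq k hk.2 y c w a b).trans (h.tf.ct_md r)))
    exact ⟨(h.tf.bt_line hs (h.pr _) hs' (h.pr _) lt.le (hd.eX ▸ hy) c).1,
      by rwa [oq, hd.mc.rx y hy c] at l⟩
  obtain ⟨K1, K2⟩ := K _ _ ⟨hs, hs', lt, hd.nov, ne⟩ v
  have st := h.tf.ct_st hs (h.pr _)
  refine keep_side hd.mc.disc sh bz bq ?_ (h.tf.vr _ v).2 (lo _ bz (h.tf.ct_nk v))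
    (K1.imp kz fun r w a b c => r (hd.hub h a (st (ct_an v)) (hd.ea ▸ b) c)) ?_
    (K2.imp kq fun r w a b y c e g => ?_)
  · rw [hd.ea]
    exact (h.tf.mv _ v).2.2.2
  · by_cases c : ZR G Vs x M.s
    · exact Or.inl (kz c)
    refine Or.inr (K2.imp kq fun r w a b y c' e g => ?_)
    rw [hd.ea] at b
    obtain ⟨y1, y2⟩ := far w _ (ct_an v) b y c' e g
    exact (r y y1 y2).1.resolve_left c (hd.hub h a (st (ct_an v)) b g)
  · obtain ⟨y1, y2⟩ := far w _ (h.tf.ct_nk v) b y c e g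
    exact (r y y1 y2).2 (hd.hub h a (st (h.tf.ct_nk v)) b g)

theorem DC.keepL (v : G.an M.s' ∈ G.V) (K : KeepL G P Vs x) :
    G.nk M.s' ∈ X' ∧ G.xl (G.an M.s') ∈ X' := by
  have hs : M.s ∈ G.L (G.f M.s) := hd.hM.hs
  have hs' : M.s' ∈ G.L (G.f M.s) := hd.hM.hs'
  have lt : G.ρ M.s < G.ρ M.s' := hd.hM.lt
  have R := h.tf.toRows
  have lv : G.f M.s' = G.f M.s := R.uw.lf _ _ hs'
  have f := h.tf.feet hs (h.pr _)
  have f' := h.tf.feet hs' (h.pr _)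
  have m := (h.tf.mono hs (h.pr _) hs' (h.pr _) lt.le).resolve_left ne
  have bz : G.nk M.s' ∈ d.X := hd.eX ▸ (bt_n ne).2
  have bq : G.xl (G.an M.s') ∈ d.X := hd.eX ▸ (h.feet_bt hs hs' lt.le ne).2
  have vis : ∀ t ∈ Vs, t ∈ G.L (G.f M.s) → G.ρ t < G.ρ M.s' → G.ρ t ≤ G.ρ M.s := fun t a b c =>
    (vis_out h.lay hd.hM o b a (h.pr _)).resolve_right (not_le.2 c)
  have sd : x.a → G.nk M.s' ∈ X' ∧ G.xl (G.an M.s') ∈ X' := fun r => by
    obtain ⟨y, y1, y2, y3, i, y4, y5⟩ := (hd.exN h ne).2 v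
    have := hd.su (Vs := Vs) y1 y2 y3 (h.ssA (P := P) i r)
    rw [y4, y5] at this
    exact ⟨kp (Or.inr (Or.inr ⟨_, this, Sym2.mem_mk_left _ _⟩)),
      kp (Or.inr (Or.inr ⟨_, this, Sym2.mem_mk_right _ _⟩))⟩
  have kz : ZL G Vs x M.s' → G.nk M.s' ∈ X' := fun r => by
    by_cases c : G.nk M.s' = G.an M.s'
    · exact kp (Or.inr (Or.inl (c.trans hd.eb.symm)))
    rcases r.resolve_left c with r | r | ⟨t, t1, t2, t3, t4⟩
    · obtain ⟨y, y1, y2, y3, i, y4, y5⟩ := (hd.exH h fun g => ne (congrArg G.md g)).2 c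
      exact kp (Or.inr (Or.inr ⟨_, hd.su y1 y2 y3 (h.ssB i r), y5 ▸ Sym2.mem_mk_right _ _⟩))
    · exact (sd r).1
    · rw [lv] at t2
      exact absurd ((h.tf.btw_nk t2 (h.pr _) hs (h.pr _) hs' (h.pr _) (vis t t1 t2 t3) lt.le t4
        ((h.tf.nk_same t4).2 v)).trans t4) ne
  have co : G.ρ (G.xl (G.an M.s')) ≤ G.ρ (G.xr (G.an M.s)) → G.xl (G.an M.s') ∈ X' := fun l => by
    have e := R.inj f.2.1 f'.1 (le_antisymm m l)
    exact kp (Or.inl ((e.symm.trans (h.tf.xo _ fun a => h.both ne e a v).2.1).trans hd.ea.symm))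
  have kq : QL G P Vs x M.s' → G.xl (G.an M.s') ∈ X' := by
    rintro (r | ⟨g, g1, g2, r⟩ | ⟨t, t1, t2, t3, t4⟩)
    · exact (sd r).2
    · by_cases l : G.ρ (G.xl (G.an M.s')) ≤ G.ρ (G.xr (G.an M.s))
      · exact co l
      obtain ⟨m1, m2, -⟩ := R.nx_mem g2
      rw [r] at m1 m2
      have gl : g ∈ G.L (G.f M.s - 1) := by
        rw [← R.uw.lf _ _ f'.1, R.uw.lf _ _ m1]
        exact g2
      exact kp (Or.inr (Or.inr ⟨_, hd.hb h (hd.eX ▸ h.bt_of hs ne gl (by omega) (by omega))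
        (h.tf.l_nv gl) (r ▸ bq) g1, r ▸ Sym2.mem_mk_right _ _⟩))
    · rw [lv] at t2
      have := (h.tf.mono' t2 (h.pr _) hs (h.pr _) (vis t t1 t2 t3)).2
      rw [t4, (h.tf.xo _ (h.tf.l_nv f'.1)).2.1] at this
      exact co this
  have oq : d.ρ (G.xl (G.an M.s')) = G.ρ (G.xl (G.an M.s')) := hd.mc.rx _ bq (h.tf.l_nv f'.1)
  have lo : ∀ y ∈ d.X, y ∈ G.Ct M.s' → d.ρ (G.xl (G.an M.s')) < d.ρ y := fun y a b => by
    rw [oq, hd.eρ y a]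
    exact h.tf.ord_hi ne b
  have far : ∀ w, ∀ k ∈ G.Ct M.s', G.Γ.Adj w k → ∀ y ∈ d.X, d.ρ y < d.ρ (G.xl (G.an M.s')) →
      G.Γ.Adj w y → y ∈ G.L (G.f M.s - 1) ∧ G.ρ y < G.ρ (G.xl (G.an M.s')) := by
    intro w k hk a y hy l b
    have c : y ∉ G.V := fun c => by
      rcases h.tf.bt_v (hd.eX ▸ hy) c with r | r
      · exact ne ((h.tf.ct_md r).symm.trans ((h.kq y c k hk.2 w b a).trans (h.tf.ct_md hk)))
      · exact absurd (lo y hy r) (not_lt.2 l.le)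
    exact ⟨(h.tf.bt_line hs (h.pr _) hs' (h.pr _) lt.le (hd.eX ▸ hy) c).1,
      by rwa [oq, hd.mc.rx y hy c] at l⟩
  obtain ⟨K1, K2⟩ := K _ _ ⟨hs, hs', lt, hd.nov, ne⟩ v
  have st := h.tf.ct_st hs' (h.pr _)
  refine keep_side' hd.mc.disc sh bz bq ?_ (h.tf.vl _ v).2 (lo _ bz (h.tf.ct_nk v))
    (K1.imp kz fun r w a b c => r (hd.hub h a (st (ct_an v)) (hd.eb ▸ b) c)) ?_
    (K2.imp kq fun r w a b y c e g => ?_)
  · rw [hd.eb]
    exact (h.tf.mv _ v).2.2.2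
  · by_cases c : ZL G Vs x M.s'
    · exact Or.inl (kz c)
    refine Or.inr (K2.imp kq fun r w a b y c' e g => ?_)
    rw [hd.eb] at b
    obtain ⟨y1, y2⟩ := far w _ (ct_an v) b y c' e g
    exact (r y y1 y2).1.resolve_left c (hd.hub h a (st (ct_an v)) b g)
  · obtain ⟨y1, y2⟩ := far w _ (h.tf.ct_nk v) b y c e g
    exact (r y y1 y2).2 (hd.hub h a (st (h.tf.ct_nk v)) b g)

end keep

/-- necks and feet are kept -/
theorem DC.keep (h : ST G) (hd : DC G M d) (o : ∀ u ∈ M.us, (PQT G P Vs x).Nv (FT G) u)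
    (KL : KeepL G P Vs x) (KR : KeepR G P Vs x) {Ok : Un J → Prop}
    (k : Sl (FT G) p Ok M d ((PQT G P Vs x).SU (FT G) M) B) :
    Sl (FT G) p Ok M d ((PQT G P Vs x).SU (FT G) M) (G.Vis M.s M.s') := by
  obtain ⟨X', Q, Ψ, O, -, k⟩ := k
  refine ⟨X', Q, Ψ, O, fun v hv => ?_, k⟩
  have kp := kp_sub O
  by_cases ne : G.nk M.s = G.nk M.s'
  · have := hv.1
    rw [tbt_pair ne] at this
    exact kp (this.elim (fun r => Or.inl (r.trans hd.ea.symm))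
      fun r => Or.inr (Or.inl (r.trans hd.eb.symm)))
  rcases hv.2 with m | ⟨m, rfl⟩ | ⟨m, rfl⟩
  · rcases h.tf.bt_v hv.1 m with r | r
    · rcases r.1 with g | g
      exacts [kp (Or.inl (g.trans hd.ea.symm)), g ▸ (hd.keepR h o O.sh kp ne (h.tf.ct_v r) KR).1]
    · rcases r.1 with g | g
      exacts [kp (Or.inr (Or.inl (g.trans hd.eb.symm))),
        g ▸ (hd.keepL h o O.sh kp ne (h.tf.ct_v r) KL).1]
  · exact (hd.keepR h o O.sh kp ne m KR).2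
  · exact (hd.keepL h o O.sh kp ne m KL).2

/-- Every macro cell over the top edge `e` has a solution of its disc. -/
def SpT (G : TD J) (p : PD J) (q : PQ J) (e : Vx J) : Prop :=
  ∀ M d u, DC G M d → M.us = {u} → q.Ok0 (FT G) u → (FT G).Cov u e →
    Sl (FT G) p (q.Ok (FT G)) M d (q.SU (FT G) M) ∅

/-- The colouring: necks and feet are protected and every top edge is ordinary or has a special
translate. -/
theorem ST.master [Fintype J] (h : ST G) (hp : PS (FT G) (XT G) G.Pr p (PQT G P Vs x))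
    (st : StT G p π Vs x) (KL : KeepL G P Vs x) (KR : KeepR G P Vs x) (hφ : FK.PH (FT G) G.Pr φ)
    (bar : ∀ y ∈ G.LA, ∃ n, φ^[n] y ∈ (PQT G P Vs x).St (FT G))
    (top : ∀ e ∈ G.LA, (PQT G P Vs x).Od (FT G) p e ∨ ∃ a, SpT G p (PQT G P Vs x) (tr a e)) :
    ∃ c, Col1 G.Γ ∅ c := by
  have hF := h.lay
  have cs : ∀ M d, DC G M d → (∀ u ∈ M.us, (PQT G P Vs x).Ok0 (FT G) u) →
      Sl (FT G) p ((PQT G P Vs x).Ok (FT G)) M d ((PQT G P Vs x).SU (FT G) M) ∅ →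
      CSol (FT G) (XT G) p ((PQT G P Vs x).Ok (FT G)) M := fun M d hd o k =>
    hp.csol hF hd.hM o (hd.cel h hp.pl st) (fun _ _ m => m)
      (hd.keep h (fun u a => (o u a).nv) KL KR k)
  refine PS.master (F := FT G) hF hp hφ bar fun M hM o => ?_
  obtain ⟨u, hu⟩ := FE.one_unit hF hM fun _ _ => h.pr _
  have mu : u ∈ M.us := hu ▸ rfl
  have vu := (hM.val u mu).1
  by_cases c : ∃ e, (FT G).Cov u e ∧ ∃ a, SpT G p (PQT G P Vs x) (tr a e)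
  · obtain ⟨e, c, a, k⟩ := c
    have hM' := hF.mval_tr a hM
    have us : (M.act a).us = {u.act a} := by rw [MU.act, hu, Set.image_singleton]
    have o' : ∀ t ∈ (M.act a).us, (PQT G P Vs x).Ok0 (FT G) t := fun t ht => by
      rw [us] at ht
      exact ht ▸ (hp.act hF a vu).1 (o u mu)
    obtain ⟨d, hd⟩ := h.dc (P := P) st hM' fun t ht => (o' t ht).nv
    have := csol_tr hF (hp.plan hF) (fun a u hu => (hp.act hF a hu).2) (-a) hM'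
      (cs _ d hd o' (k _ d _ hd us (o' _ (us ▸ rfl)) ((hF.cov_tr a e vu).2 c)))
    rwa [MU.act_act, add_neg_cancel, MU.act_zero] at this
  · obtain ⟨d, hd⟩ := h.dc (P := P) st hM fun t ht => (o t ht).nv
    exact cs M d hd o (hp.ord hF hM hu (o u mu) hd.mc
      (hd.cel h hp.pl st).sub fun e m => (top e (hF.la m.1)).resolve_right fun g => c ⟨e, m, g⟩)

end Pool.Agent.P.MP_08fd93_co.FP2
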