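import Pool.Agent.P.MP_08fd93_co.FP2.T11
import Pool.Agent.P.MP_08fd93_co.FP2.R2
import Pool.Agent.P.MP_08fd93_co.FN.N11

/-! Integration: basic cells, strict edges and side edges of a frame with short tails. -/

set_option autoImplicit false

namespace Pool.Agent.P.MP_08fd93_co.FP2

open OV PkPrtP FB FE FN FU

variable {J : Type} {G : TD J} {j : ℤ} {s s' t t' e g k y z : Vx J} {P Vs : Set (Vx J)} {x : Fl}
  {p : PD J} {M : MU J} {d : DD (Vx J)} {u : Un J} {φ : Vx J → Vx J} {f f' : Sym2 (Vx J)}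

/-- the frame of a tail with a short neck -/
theorem st_of {Γ : SimpleGraph (Vx J)} {η : ℤ × ℤ →+ ℤ} {v q : Vx J} {ht : Vx J → ℤ}
    {an : Vx J → Vx J} (H : Fr2 Γ η v z ht an G) (T : TR Γ η v z q ht)
    (l : G.ρ (G.xr z) ≤ G.ρ (G.xl z) + 1) : ST G := by
  have zv : z ∈ G.V := H.eV ▸ Or.inr rfl
  have vv : v ∈ G.V := H.eV ▸ Or.inl rfl
  have rep : ∀ k ∈ G.V, ∃ a, G.md k = tr a z ∧ (k = tr a z ∨ Γ.Adj k (tr a z)) := fun k hk => by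
    obtain ⟨a, rfl | rfl⟩ := kt_ex (H.eV ▸ hk)
    exacts [⟨a, by rw [(H.tf.xtr a v).2.2.2, H.mv], Or.inr (T.fine.inv a _ _ T.vz)⟩,
      ⟨a, by rw [(H.tf.xtr a z).2.2.2, H.mz], Or.inl rfl⟩]
  refine ⟨H.tf, fun _ => H.eP ▸ trivial, fun k hk k' hk' w a b => ?_, fun k hk => ?_⟩
  · rw [H.eΓ] at a b
    by_cases c : k.1 = k'.1
    · rw [T.toSl.near2 c a.symm b]
    obtain ⟨i, m, r⟩ := rep k hk
    obtain ⟨i', m', r'⟩ := rep k' hk'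
    rw [m, m']
    rcases r with rfl | r
    · exact T.toSl.near3 rfl a.symm b (r'.resolve_left fun r => c (by rw [r]; rfl))
    rcases r' with rfl | r'
    · exact T.toSl.near3 rfl r.symm a.symm b
    · obtain ⟨n, rfl | rfl⟩ := kt_ex (H.eV ▸ hk)
      · obtain ⟨n', rfl | rfl⟩ := kt_ex (H.eV ▸ hk')
        exacts [absurd rfl c, (T.toSl.nl _ _ r' rfl).elim]
      · exact (T.toSl.nl _ _ r rfl).elim
  · obtain ⟨a, m, -⟩ := rep k hk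
    obtain ⟨κ, hκ⟩ := H.tf.toRows.rho_tr a (G.f z - 1)
    rw [← (H.tf.xm k hk).1, ← (H.tf.xm k hk).2, m, (H.tf.xtr a z).1, (H.tf.xtr a z).2.1,
      (hκ _ (H.tf.vl z zv).1).2, (hκ _ (H.tf.vr z zv).1).2]
    omega

/-- The macro cell under the edge `e`. -/
def Mt (G : TD J) (e : Vx J) : MU J := ⟨e, G.nx e, {Tv (FT G) e}⟩

/-- The basic disc under the edge `e`. -/
noncomputable def Bd (G : TD J) (e : Vx J) : DD (Vx J) := tcell G e (G.nx e)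

theorem mt_c1 (he : e ∈ G.LA) : C1 (FT G) (Mt G e) e := ⟨he, rfl, rfl, rfl⟩

theorem ST.mt (h : ST G) (he : e ∈ G.LA) : MVal (FT G) (XT G) G.Pr (Mt G e) := by
  obtain ⟨n1, n2, -⟩ := h.tf.toRows.nx_mem he
  have l : G.ρ e ≤ G.ρ (G.nx e) := by omega
  refine ⟨he, n1, h.pr _, h.pr _, show G.ρ e < G.ρ (G.nx e) by omega, ?_, fun y hy m => ?_, ?_, ?_,
    ?_, ?_⟩
  · rintro _ rfl
    exact ⟨h.lay.tv_val he, ⟨he, le_rfl, l⟩, n1, l, le_rfl⟩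
  · exact ⟨_, rfl, hy.1, hy.2.1, m⟩
  · rintro _ rfl _ rfl _ _ _
    rfl
  · rintro _ rfl _ rfl n
    exact absurd rfl n
  · rintro _ rfl _
    rfl
  · rintro _ rfl
    exact ⟨fun _ k => k.elim, fun n => absurd rfl n⟩

theorem ST.nov1 (h : ST G) (he : e ∈ G.LA) : G.NoV e (G.nx e) := by
  obtain ⟨n1, n2, -⟩ := h.tf.toRows.nx_mem he
  exact h.tf.nov he n1 fun _ _ _ => by omega

theorem ST.bd_I (h : ST G) (he : e ∈ G.LA) : (Bd G e).I = G.Im e (G.nx e) :=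
  h.tf.tcell_I he (h.pr _) (h.tf.toRows.nx_mem he).1 (h.pr _)

theorem ST.bd_Y (h : ST G) (he : e ∈ G.LA) : y ∈ (Bd G e).Y ↔ y = e ∨ y = G.nx e := by
  have R := h.tf.toRows
  obtain ⟨n1, n2, -⟩ := R.nx_mem he
  constructor
  · rintro ⟨a, b, c⟩
    by_cases m : G.ρ y = G.ρ e
    exacts [Or.inl (R.inj a he m), Or.inr (R.inj a n1 (by omega))]
  · rintro (rfl | rfl)
    exacts [⟨he, le_rfl, by omega⟩, ⟨n1, by omega, le_rfl⟩]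

/-- the basic disc is a disc of the basic cell -/
theorem ST.dcb (h : ST G) (he : e ∈ G.LA) : DC G (Mt G e) (Bd G e) := by
  obtain ⟨n1, n2, -⟩ := h.tf.toRows.nx_mem he
  obtain ⟨d, a, b, c, c', r, -⟩ := h.tf.mc h.fts (h.mt he) (h.nov1 he)
  have D := (h.tf.scell he (h.pr _) n1 (h.pr _) (by omega) (h.nov1 he)).disc
  have pk : (Mt G e).Pk = ∅ := Set.eq_empty_of_forall_notMem (by rintro _ ⟨_, rfl, k⟩; exact k)
  have eI : (Bd G e).I = d.I := by rw [r, pk, Set.empty_union, h.bd_I he]; rfl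
  have eY : (Bd G e).Y = (Mt G e).T := by
    ext z
    rw [h.bd_Y he]
    constructor
    · rintro (rfl | rfl)
      exacts [⟨_, rfl, Or.inl rfl⟩, ⟨_, rfl, Or.inr (Or.inr rfl)⟩]
    · rintro ⟨_, rfl, m | m | m⟩
      exacts [Or.inl m, Or.inl m, Or.inr m]
  have eX : (Bd G e).X = d.X := b.symm
  have eZ : (Bd G e).Z = d.Z := by
    ext z
    rw [z_iff a.disc, ← eX, a.eY, ← eY, ← eI]
    exact z_iff D
  refine ⟨h.mt he, ⟨D, eY, eI ▸ a.eI, eZ ▸ a.rz, eX ▸ a.sub, eX ▸ a.cvx, fun v _ n => tord_old n,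
    fun v hv n n1 n2 => eZ ▸ a.hid v (eX ▸ hv) n (c ▸ n1) (c' ▸ n2), rfl, rfl, ?_⟩, h.nov1 he, rfl,
    rfl, rfl, eI.trans r, fun _ _ => rfl⟩
  rintro _ rfl
  exact ⟨tord_old (h.tf.l_nv he), tord_old (h.tf.l_nv n1), fun n => absurd rfl n⟩

theorem ST.bd_disc (h : ST G) (he : e ∈ G.LA) : Disc G.Γ (Bd G e) := (h.dcb he).mc.disc

theorem ST.bd_st (h : ST G) (he : e ∈ G.LA) : G.Γ.Adj (Bd G e).a' (Bd G e).b' :=
  (h.tf.toRows.nx_mem he).2.2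

/-! ### The strict edges in terms of the map `φ` -/

/-- The edge between the two feet of a neck. -/
def Chd (G : TD J) (g : Vx J) : Prop := ∃ k ∈ G.V, g = G.xl k ∧ G.xl k ≠ G.xr k

theorem ST.und_iff (h : ST G) (hφ : FK.PH (FT G) G.Pr φ) (he : e ∈ G.LA) (hg : g ∈ G.LA) :
    s(g, G.nx g) ∈ PE G.Γ (G.Bt e (G.nx e)) ↔ φ g = e ∧ ¬ Chd G g := by
  have R := h.tf.toRows
  obtain ⟨n1, n2, -⟩ := R.nx_mem he
  obtain ⟨m1, m2, m3⟩ := R.nx_mem hg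
  have f1 := h.tf.feet he (h.pr _)
  rw [mem_PE]
  constructor
  · rintro ⟨a, b, -⟩
    obtain ⟨a1, a2, -⟩ := h.tf.bt_line he (h.pr _) n1 (h.pr _) (by omega) a (h.tf.l_nv hg)
    obtain ⟨-, -, b3⟩ := h.tf.bt_line he (h.pr _) n1 (h.pr _) (by omega) b (h.tf.l_nv m1)
    have lv : G.f g + 1 = G.f e := by rw [R.uw.lf _ _ a1, sub_add_cancel]
    refine ⟨(hφ.uni g hg e ⟨?_, h.pr _, f1.2.2.trans a2, fun t ht _ l => ?_⟩).symm, ?_⟩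
    · show e ∈ G.L (G.f g + 1)
      rwa [lv]
    · have ht : t ∈ G.L (G.f e) := lv ▸ ht
      have l : G.ρ e < G.ρ t := l
      have := (h.tf.mono' n1 (h.pr _) ht (h.pr _) (by omega)).1
      show G.ρ g < G.ρ (G.xl (G.an t))
      omega
    · rintro ⟨k, hk, rfl, ne⟩
      obtain ⟨c1, -, c2⟩ := h.tf.vc k hk
      obtain ⟨g1, g2, g3⟩ := h.tf.feet c1 (h.pr _)
      rw [← (h.tf.ct_x c2).1] at g1 g3
      rw [← (h.tf.ct_x c2).2] at g2 g3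
      have fk : G.f k = G.f e := by
        have := R.uw.lf _ _ g1
        omega
      rw [fk] at c1
      have l := lt_of_le_of_ne g3 fun c => ne (R.inj g1 g2 c)
      by_cases c : G.ρ (G.ch k) ≤ G.ρ e
      · have := (h.tf.mono' c1 (h.pr _) he (h.pr _) c).2
        rw [← (h.tf.ct_x c2).2] at this
        omega
      · have := (h.tf.mono' n1 (h.pr _) c1 (h.pr _) (by omega)).1
        rw [← (h.tf.ct_x c2).1] at this
        omega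
  · rintro ⟨rfl, nc⟩
    obtain ⟨u1, -, u3, u4⟩ := hφ.und g hg
    have lv : G.f (φ g) = G.f g + 1 := R.uw.lf _ _ u1
    have u3 : G.ρ (G.xl (G.an (φ g))) ≤ G.ρ g := u3
    have u5 : G.ρ g < G.ρ (G.xl (G.an (G.nx (φ g)))) :=
      u4 (G.nx (φ g)) (show _ ∈ G.L (G.f g + 1) from lv ▸ n1) (h.pr _)
        (show G.ρ (φ g) < G.ρ (G.nx (φ g)) by omega)
    have gl : g ∈ G.L (G.f (φ g) - 1) := by rwa [lv, add_sub_cancel_right]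
    have ml : G.nx g ∈ G.L (G.f (φ g) - 1) := by rwa [lv, add_sub_cancel_right]
    have ne : G.nk (φ g) ≠ G.nk (G.nx (φ g)) := fun c => by
      rw [← (h.tf.nk_xx c).1] at u5
      omega
    have u6 : G.ρ (G.xr (G.an (φ g))) ≤ G.ρ g := by
      by_cases c : G.an (φ g) ∈ G.V
      · by_contra l
        have := h.sh _ c
        exact nc ⟨_, c, R.inj gl f1.1 (by omega), fun r => by rw [r] at u3; omega⟩
      · rw [(h.tf.xo _ c).2.1]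
        rwa [(h.tf.xo _ c).1] at u3
    exact ⟨h.bt_of he ne gl u6 u5.le, h.bt_of he ne ml (by omega) (by omega), m3⟩

theorem bt_ne' (ha : y ∈ G.Bt s s') (hb : z ∈ G.Bt s s') (n : y ≠ z) : G.an s ≠ G.an s' :=
  fun e => by
    rw [tbt_single e] at ha hb
    exact n (ha.trans hb.symm)

/-- the strict edges under `e` -/
theorem ST.ss_iff (h : ST G) (hφ : FK.PH (FT G) G.Pr φ) (he : e ∈ G.LA) :
    f ∈ SST G P x e ↔ (∃ g ∈ P, g ∈ G.LA ∧ φ g = e ∧ ¬ Chd G g ∧ f = s(g, G.nx g)) ∨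
      (x.a ∧ IsA G e ∧ f = s(G.nk (G.nx e), G.xl (G.an (G.nx e)))) ∨
      (x.b ∧ IsB G e ∧ f = s(G.an (G.nx e), G.nk (G.nx e))) ∨
      (x.c ∧ IsC G e ∧ f = s(G.an e, G.nk e)) ∨
      (x.d ∧ IsD G e ∧ f = s(G.nk e, G.xr (G.an e))) := by
  obtain ⟨n1, n2, -⟩ := h.tf.toRows.nx_mem he
  constructor
  · rintro ⟨a, ⟨g, g1, g2, rfl⟩ | ⟨r, rfl⟩ | ⟨r, rfl⟩ | ⟨r, rfl⟩ | ⟨r, rfl⟩⟩
    · have := (h.und_iff hφ he g2).1 a
      exact Or.inl ⟨g, g1, g2, this.1, this.2, rfl⟩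
    · obtain ⟨a1, a2, a3⟩ := mem_PE.1 a
      have v : G.an (G.nx e) ∈ G.V := by_contra fun c =>
        a3.ne ((h.tf.nk_o c).trans (h.tf.xo _ c).1.symm)
      exact Or.inr (Or.inl ⟨r, ⟨he, v, (h.stem he n1 (by omega) a1 a2 a3 (h.tf.nk_v.2 v)
        (h.tf.l_nv (h.tf.feet n1 (h.pr _)).1)).1⟩, rfl⟩)
    · obtain ⟨a1, a2, a3⟩ := mem_PE.1 a
      exact Or.inr (Or.inr (Or.inl ⟨r, ⟨he, a3.ne.symm, bt_ne' a1 a2 a3.ne⟩, rfl⟩))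
    · obtain ⟨a1, a2, a3⟩ := mem_PE.1 a
      exact Or.inr (Or.inr (Or.inr (Or.inl ⟨r, ⟨he, a3.ne.symm, bt_ne' a1 a2 a3.ne⟩, rfl⟩)))
    · obtain ⟨a1, a2, a3⟩ := mem_PE.1 a
      have v : G.an e ∈ G.V := by_contra fun c =>
        a3.ne ((h.tf.nk_o c).trans (h.tf.xo _ c).2.1.symm)
      exact Or.inr (Or.inr (Or.inr (Or.inr ⟨r, ⟨he, v, (h.stem he n1 (by omega) a1 a2 a3
        (h.tf.nk_v.2 v) (h.tf.l_nv (h.tf.feet he (h.pr _)).2.1)).1⟩, rfl⟩)))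
  · rintro (⟨g, g1, g2, g3, g4, rfl⟩ | ⟨r, i, rfl⟩ | ⟨r, i, rfl⟩ | ⟨r, i, rfl⟩ | ⟨r, i, rfl⟩)
    exacts [⟨(h.und_iff hφ he g2).2 ⟨g3, g4⟩, Or.inl ⟨g, g1, g2, rfl⟩⟩, h.ssA i r, h.ssB i r,
      h.ssC i r, h.ssD i r]

theorem ST.ss_sub (h : ST G) (hφ : FK.PH (FT G) G.Pr φ) (he : e ∈ G.LA) {T : Set (Sym2 (Vx J))}
    (h1 : ∀ g ∈ P, g ∈ G.LA → φ g = e → ¬ Chd G g → s(g, G.nx g) ∈ T)
    (ha : x.a → IsA G e → s(G.nk (G.nx e), G.xl (G.an (G.nx e))) ∈ T)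
    (hb : x.b → IsB G e → s(G.an (G.nx e), G.nk (G.nx e)) ∈ T)
    (hc : x.c → IsC G e → s(G.an e, G.nk e) ∈ T)
    (hd : x.d → IsD G e → s(G.nk e, G.xr (G.an e)) ∈ T) : SST G P x e ⊆ T := fun _ m => by
  rcases (h.ss_iff hφ he).1 m with ⟨g, g1, g2, g3, g4, rfl⟩ | ⟨r, i, rfl⟩ | ⟨r, i, rfl⟩ |
    ⟨r, i, rfl⟩ | ⟨r, i, rfl⟩
  exacts [h1 g g1 g2 g3 g4, ha r i, hb r i, hc r i, hd r i]

theorem odT_none (k : SST G P x e ⊆ ∅) : (PQT G P Vs x).Od (FT G) p e :=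
  ⟨fun _ m => (k m).elim, fun ⟨_, m⟩ => (k m).elim⟩

theorem odT_one (k : SST G P x e ⊆ {f}) (pd : p.Dn (FT G) e) : (PQT G P Vs x).Od (FT G) p e :=
  ⟨fun _ a _ b => (k a).trans (k b).symm, fun _ => ⟨pd, fun m => m⟩⟩

theorem stT : e ∈ (PQT G P Vs x).St (FT G) ↔ e ∈ P ∨ (e ∈ Vs ∧ G.nx e ∈ Vs) :=
  or_congr_left (and_iff_left fun k => k)

theorem ST.ps (h : ST G) (pl : Plan0 (FT G) (XT G) p) (gtr : ∀ a x, tr a x ∈ P ↔ x ∈ P)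
    (vtr : ∀ a x, tr a x ∈ Vs ↔ x ∈ Vs) (up : ∀ y ∈ G.LA, y ∉ P → p.Up (FT G) y)
    (vis : ∀ v ∈ Vs, v ∈ G.LA → (∃ g ∈ P, g ∈ G.LA ∧ (v = g ∨ v = G.nx g)) ∨
      (∃ t ∈ Vs, t ∈ G.LA ∧ G.xl (G.an t) = v) ∨ ∃ k ∈ G.V, G.f k = G.f v + 1 ∧ G.Γ.Adj v k)
    (row : ∀ j, ∃ t ∈ G.L j, t ∈ Vs) : PS (FT G) (XT G) G.Pr p (PQT G P Vs x) :=
  ⟨pl, gtr, vtr, fun _ _ => Iff.rfl, fun _ _ k => k, up, fun _ _ k => k.elim,
    fun v a b => (vis v a b).imp_right (Or.imp (fun ⟨t, c, d, e⟩ => ⟨t, c, d, h.pr t, e⟩)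
      fun ⟨k, c, d, e⟩ => ⟨k, c, (h.tf.v_st c d).1, e⟩),
    fun j => let ⟨t, a, b⟩ := row j; ⟨t, a, h.pr t, b⟩,
    fun _ _ b => b.elim (absurd (h.pr _)) (absurd (h.pr _))⟩

/-! ### The side edges -/

/-- the edges over the feet of a neck -/
theorem ST.side_ex (h : ST G) (hk : k ∈ G.V) :
    (∃ e ∈ G.L (G.f k), IsD G e ∧ G.nk e = G.md k) ∧
      ∃ e ∈ G.L (G.f k), IsA G e ∧ G.nk (G.nx e) = G.md k := by
  obtain ⟨c1, -, c2⟩ := h.tf.vc k hk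
  have c3 := h.tf.ct_md c2
  have c4 := h.tf.ct_v c2
  have R := h.tf.toRows
  constructor
  · obtain ⟨t, t1, -, t2, t3⟩ := h.tf.far_hi (G.f k) (max (G.ρ (G.ch k)) (G.ρ (G.xl k)))
    obtain ⟨⟨y, y1, -, -, y4, y5⟩, -⟩ := h.last (φ := G.nk) c1 t1 (by omega) fun r => by
      rw [← (h.tf.nk_xx r).1, ← (h.tf.ct_x c2).1] at t3
      omega
    exact ⟨y, y1, ⟨R.la y1, (h.tf.nk_same y4).2 c4, y4 ▸ y5.symm⟩, y4.trans c3.symm⟩
  · obtain ⟨t, t1, -, t2, t3⟩ := h.tf.far_lo (G.f k) (min (G.ρ (G.ch k)) (G.ρ (G.xr k)))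
    obtain ⟨-, y, y1, -, -, y4, y5⟩ := h.last (φ := G.nk) t1 c1 (by omega) fun r => by
      rw [(h.tf.nk_xx r).2, ← (h.tf.ct_x c2).2] at t3
      omega
    exact ⟨y, y1, ⟨R.la y1, (h.tf.nk_same y5).2 c4, y5 ▸ y4⟩, y5.trans c3.symm⟩

/-- the edges over a head -/
theorem ST.head_ex (h : ST G) (hk : k ∈ G.V) (n : G.md k ≠ k) :
    (∃ e ∈ G.L (G.f k), IsC G e ∧ G.an e = k) ∧ ∃ e ∈ G.L (G.f k), IsB G e ∧ G.an (G.nx e) = k := by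
  obtain ⟨c1, -, -⟩ := h.tf.vc k hk
  have c2 := h.tf.an_ch hk n
  have R := h.tf.toRows
  constructor
  · obtain ⟨t, t1, -, t2, t3⟩ := h.tf.far_hi (G.f k) (max (G.ρ (G.ch k)) (G.ρ (G.xl k)))
    obtain ⟨⟨y, y1, -, -, y4, y5⟩, -⟩ := h.last (φ := G.an) c1 t1 (by omega) fun r => by
      rw [← r, c2] at t3
      omega
    rw [c2] at y4 y5
    exact ⟨y, y1, ⟨R.la y1, by rwa [TD.nk, y4], y4 ▸ y5.symm⟩, y4⟩
  · obtain ⟨t, t1, -, t2, t3⟩ := h.tf.far_lo (G.f k) (min (G.ρ (G.ch k)) (G.ρ (G.xr k)))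
    obtain ⟨-, y, y1, -, -, y4, y5⟩ := h.last (φ := G.an) t1 c1 (by omega) fun r => by
      rw [r, c2] at t3
      omega
    rw [c2] at y4 y5
    exact ⟨y, y1, ⟨R.la y1, by rwa [TD.nk, y5], y5 ▸ y4⟩, y5⟩

theorem ST.nk_lev (h : ST G) (hs : s ∈ G.L j) (ht : t ∈ G.LA) (v : G.an s ∈ G.V)
    (r : G.nk t = G.nk s) : t ∈ G.L j := by
  rwa [← h.tf.nk_f hs (h.pr _) v, ← r, h.tf.nk_f ht (h.pr _) ((h.tf.nk_same r).2 v)]

/-- the vertices over a neck lie before the right side edge -/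
theorem ST.isD_ge (h : ST G) (i : IsD G e) (ht : t ∈ G.LA) (r : G.nk t = G.nk e) :
    t ∈ G.L (G.f e) ∧ G.ρ t ≤ G.ρ e := by
  obtain ⟨n1, n2, -⟩ := h.tf.toRows.nx_mem i.1
  have l := h.nk_lev i.1 ht i.2.1 r
  refine ⟨l, ?_⟩
  by_contra c
  exact i.2.2 (h.tf.btw_nk i.1 (h.pr _) n1 (h.pr _) l (h.pr _) (by omega) (by omega) r.symm
    i.2.1).symm

theorem ST.isA_le (h : ST G) (i : IsA G e) (ht : t ∈ G.LA) (r : G.nk t = G.nk (G.nx e)) :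
    t ∈ G.L (G.f e) ∧ G.ρ e < G.ρ t := by
  obtain ⟨n1, n2, -⟩ := h.tf.toRows.nx_mem i.1
  have l := h.nk_lev n1 ht i.2.1 r
  refine ⟨l, ?_⟩
  by_contra c
  exact i.2.2 ((h.tf.btw_nk l (h.pr _) i.1 (h.pr _) n1 (h.pr _) (by omega) (by omega) r
    ((h.tf.nk_same r).2 i.2.1)).trans r)

/-- the children of a head lie before its right side edge -/
theorem ST.isC_ge (h : ST G) (i : IsC G e) (ht : t ∈ G.LA) (r : G.an t = G.an e) :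
    t ∈ G.L (G.f e) ∧ G.ρ t ≤ G.ρ e := by
  obtain ⟨n1, n2, -⟩ := h.tf.toRows.nx_mem i.1
  have v := (h.tf.hd_adj i.2.1).1
  have l := h.nk_lev i.1 ht v (congrArg G.md r)
  refine ⟨l, ?_⟩
  by_contra c
  exact i.2.2 (h.tf.head (h.tf.btw_an i.1 (h.pr _) n1 (h.pr _) l (h.pr _) (by omega) (by omega)
    r.symm v) i.2.1).symm

theorem ST.isB_le (h : ST G) (i : IsB G e) (ht : t ∈ G.LA) (r : G.an t = G.an (G.nx e)) :
    t ∈ G.L (G.f e) ∧ G.ρ e < G.ρ t := by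
  obtain ⟨n1, n2, -⟩ := h.tf.toRows.nx_mem i.1
  have v := (h.tf.hd_adj i.2.1).1
  have l := h.nk_lev n1 ht v (congrArg G.md r)
  refine ⟨l, ?_⟩
  by_contra c
  exact i.2.2 (h.tf.head (r ▸ h.tf.btw_an l (h.pr _) i.1 (h.pr _) n1 (h.pr _) (by omega) (by omega)
    r (r ▸ v)) i.2.1)

theorem ST.left_uni (h : ST G) (he : e ∈ G.LA) (ht : t ∈ G.LA)
    (a : G.nx t ∈ G.L (G.f e) ∧ G.ρ e < G.ρ (G.nx t)) (b : G.ρ t < G.ρ (G.nx e)) : t = e := by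
  have R := h.tf.toRows
  obtain ⟨n1, n2, -⟩ := R.nx_mem he
  obtain ⟨m1, m2, -⟩ := R.nx_mem ht
  have l : t ∈ G.L (G.f e) := by
    rw [← R.uw.lf _ _ a.1, R.uw.lf _ _ m1]
    exact ht
  exact R.inj l he (by omega)

theorem ST.isD_uni (h : ST G) (i : IsD G e) (i' : IsD G t) (r : G.nk t = G.nk e) : t = e :=
  have a := h.isD_ge i i'.1 r
  h.tf.toRows.inj a.1 i.1 (le_antisymm a.2 (h.isD_ge i' i.1 r.symm).2)

theorem ST.isC_uni (h : ST G) (i : IsC G e) (i' : IsC G t) (r : G.an t = G.an e) : t = e :=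
  have a := h.isC_ge i i'.1 r
  h.tf.toRows.inj a.1 i.1 (le_antisymm a.2 (h.isC_ge i' i.1 r.symm).2)

theorem ST.isA_uni (h : ST G) (i : IsA G e) (i' : IsA G t) (r : G.nk (G.nx t) = G.nk (G.nx e)) :
    t = e :=
  have R := h.tf.toRows
  h.left_uni i.1 i'.1 (h.isA_le i (R.la (R.nx_mem i'.1).1) r)
    (h.isA_le i' (R.la (R.nx_mem i.1).1) r.symm).2

theorem ST.isB_uni (h : ST G) (i : IsB G e) (i' : IsB G t) (r : G.an (G.nx t) = G.an (G.nx e)) :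
    t = e :=
  have R := h.tf.toRows
  h.left_uni i.1 i'.1 (h.isB_le i (R.la (R.nx_mem i'.1).1) r)
    (h.isB_le i' (R.la (R.nx_mem i.1).1) r.symm).2

theorem TFrm.nk_tr (h : TFrm G) (a : ℤ × ℤ) (s : Vx J) : G.nk (tr a s) = tr a (G.nk s) := by
  rw [TD.nk, h.atr, (h.xtr a _).2.2.2, TD.nk]

theorem ST.isA_tr (h : ST G) (a : ℤ × ℤ) (i : IsA G e) : IsA G (tr a e) := by
  refine ⟨(h.lay.la_tr a e).2 i.1, ?_⟩
  rw [h.tf.toRows.nx_tr a i.1, h.tf.atr, h.tf.nk_tr, h.tf.nk_tr]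
  exact ⟨h.tf.vtr a _ i.2.1, fun c => i.2.2 (tr_inj a c)⟩

theorem ST.isB_tr (h : ST G) (a : ℤ × ℤ) (i : IsB G e) : IsB G (tr a e) := by
  refine ⟨(h.lay.la_tr a e).2 i.1, ?_⟩
  rw [h.tf.toRows.nx_tr a i.1, h.tf.atr, h.tf.atr, h.tf.nk_tr]
  exact ⟨fun c => i.2.1 (tr_inj a c), fun c => i.2.2 (tr_inj a c)⟩

theorem ST.isC_tr (h : ST G) (a : ℤ × ℤ) (i : IsC G e) : IsC G (tr a e) := by
  refine ⟨(h.lay.la_tr a e).2 i.1, ?_⟩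
  rw [h.tf.toRows.nx_tr a i.1, h.tf.atr, h.tf.atr, h.tf.nk_tr]
  exact ⟨fun c => i.2.1 (tr_inj a c), fun c => i.2.2 (tr_inj a c)⟩

theorem ST.isD_tr (h : ST G) (a : ℤ × ℤ) (i : IsD G e) : IsD G (tr a e) := by
  refine ⟨(h.lay.la_tr a e).2 i.1, ?_⟩
  rw [h.tf.toRows.nx_tr a i.1, h.tf.atr, h.tf.nk_tr, h.tf.nk_tr]
  exact ⟨h.tf.vtr a _ i.2.1, fun c => i.2.2 (tr_inj a c)⟩

/-- edges right of the left foot of `e` lie under `e` or further right -/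
theorem ST.phi_ge (h : ST G) (hφ : FK.PH (FT G) G.Pr φ) (he : e ∈ G.LA) (hg : g ∈ G.L (G.f e - 1))
    (l : G.ρ (G.xl (G.an e)) ≤ G.ρ g) : G.ρ e ≤ G.ρ (φ g) := by
  by_contra c
  have R := h.tf.toRows
  have := (hφ.und g (R.la hg)).2.2.2 e (show e ∈ G.L (G.f g + 1) by
    rw [R.uw.lf _ _ hg, sub_add_cancel]; exact he) (h.pr _) (not_le.1 c)
  exact absurd l (not_le.2 this)

/-- edges left of the left foot of `nx e` lie under `e` or further left -/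
theorem ST.phi_le (h : ST G) (hφ : FK.PH (FT G) G.Pr φ) (he : e ∈ G.LA) (hg : g ∈ G.L (G.f e - 1))
    (l : G.ρ g < G.ρ (G.xl (G.an (G.nx e)))) : G.ρ (φ g) ≤ G.ρ e := by
  by_contra c
  have R := h.tf.toRows
  obtain ⟨n1, n2, -⟩ := R.nx_mem he
  obtain ⟨u1, -, u3, -⟩ := hφ.und g (R.la hg)
  have u1 : φ g ∈ G.L (G.f e) := by
    rwa [show (FT G).f g = G.f e - 1 from R.uw.lf _ _ hg, sub_add_cancel] at u1
  have := (h.tf.mono' n1 (h.pr _) u1 (h.pr _) (by omega)).1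
  have u3 : G.ρ (G.xl (G.an (φ g))) ≤ G.ρ g := u3
  omega

end Pool.Agent.P.MP_08fd93_co.FP2
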