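import Pool.Agent.P.MP_08fd93_co.FP2.T12
import Pool.Agent.P.MP_08fd93_co.FN.N12

/-! Integration: special top edges of a frame with short tails. -/

set_option autoImplicit false

namespace Pool.Agent.P.MP_08fd93_co.FP2

open OV PkPrtP FB FE FN FU

theorem pth_le {W : Type} {H : SimpleGraph W} {X : Set W} {σ ρ : W → ℤ} {a b : W}
    (h : Pth H X σ a b) (k : ∀ x ∈ X, ∀ y ∈ X, H.Adj x y → σ x < σ y → ρ x < ρ y) (n : ℕ) :
    ∀ x ∈ X, ∀ y ∈ X, σ x ≤ σ y → σ y ≤ σ x + n → ρ x ≤ ρ y := by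
  induction n with
  | zero => exact fun x hx y hy l l' => by rw [h.inj x hx y hy (by omega)]
  | succ n ih =>
    intro x hx y hy l l'
    rcases eq_or_lt_of_le l with c | c
    · rw [h.inj x hx y hy c]
    obtain ⟨z, z1, z2, z3, z4⟩ := h.pred hy fun e => by
      have := h.lo x hx
      rw [← e] at this
      omega
    exact (ih x hx z z1 (z4 x hx c) (by omega)).trans (k z z1 y hy z3 z2).le

variable {J : Type} {G : TD J} {j : ℤ} {s s' t t' e g k y z : Vx J} {P Vs B : Set (Vx J)} {x : Fl}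
  {p : PD J} {M : MU J} {d d' : DD (Vx J)} {u : Un J} {φ : Vx J → Vx J} {f f' : Sym2 (Vx J)}
  {S : Set (Sym2 (Vx J))}

/-- the order of a part of the bottom path -/
theorem ST.ord_le (h : ST G) (hs : s ∈ G.L j) (hs' : s' ∈ G.L j) (hN : G.NoV s s')
    (ht : t ∈ G.L j) (ht' : t' ∈ G.L j) (l1 : G.ρ s ≤ G.ρ t) (l : G.ρ t ≤ G.ρ t')
    (l2 : G.ρ t' ≤ G.ρ s') (hy : y ∈ G.Bt t t') (hz : z ∈ G.Bt t t')
    (le : G.ord t t' y ≤ G.ord t t' z) : G.ord s s' y ≤ G.ord s s' z := by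
  have sb := h.bt_sub hs hs' hN ht ht' l1 l l2
  have p1 := h.tf.bt_pth ht (h.pr _) ht' (h.pr _) l
  have p2 := h.tf.bt_pth hs (h.pr _) hs' (h.pr _) (by omega)
  refine pth_le p1 (fun a ha b hb e lt => ?_) (G.ord t t' z - G.ord t t' y).toNat y hy z hz le
    (by omega)
  by_cases va : a ∈ G.V <;> by_cases vb : b ∈ G.V
  · obtain ⟨ne, w, n, w1, w2⟩ := h.neck ha hb e va vb
    rcases w2 with ⟨rfl, r⟩ | ⟨rfl, r⟩
    · obtain rfl := w1.resolve_right fun c => absurd (p1.hi b hb) (by rw [← c]; omega)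
      have : G.an s = G.an t := by
        refine h.tf.head ((h.kin hs hs' hN ht l1 (l.trans l2) (ct_an va)).resolve_right fun c => ?_) n
        exact ne (h.tf.head (h.tf.btw_an ht (h.pr _) ht' (h.pr _) hs' (h.pr _) l l2
          (h.tf.head c n).symm va) n).symm
      rw [← this]
      exact p2.lo_lt (sb hb) (this ▸ e.ne.symm)
    · obtain rfl := w1.resolve_left fun c => absurd (p1.lo a ha) (by rw [← c]; omega)
      have : G.an s' = G.an t' := by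
        refine h.tf.head ((h.kin hs hs' hN ht' (l1.trans l) l2 (ct_an vb)).resolve_left
          fun c => ?_) n
        have q := h.tf.head c n
        exact ne (h.tf.head (q ▸ h.tf.btw_an hs (h.pr _) ht (h.pr _) ht' (h.pr _) l1 l q
          (q ▸ vb)) n)
      rw [← this]
      exact p2.lt_hi (sb ha) (this ▸ e.ne)
  · obtain ⟨ne, r⟩ := h.stem ht ht' l ha hb e va vb
    obtain ⟨r1, -⟩ := r.resolve_right fun c => by
      have := h.tf.ord_hi ne (c.1 ▸ h.tf.ct_nk (h.tf.nk_v.1 (c.1 ▸ va)) : a ∈ G.Ct t')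
      rw [← c.2, ← tord_old (s := t) (s' := t') vb] at this
      omega
    obtain ⟨ne', q⟩ := h.stem hs hs' (by omega) (sb ha) (sb hb) e va vb
    obtain ⟨q1, q2⟩ := q.resolve_right fun c => ne (h.tf.btw_nk ht (h.pr _) ht' (h.pr _) hs'
      (h.pr _) l l2 (r1.symm.trans c.1) (h.tf.nk_v.1 (r1 ▸ va))).symm
    rw [tord_old vb, q2]
    exact h.tf.ord_lo ne' (q1 ▸ h.tf.ct_nk (h.tf.nk_v.1 (q1 ▸ va)))
  · obtain ⟨ne, r⟩ := h.stem ht ht' l hb ha e.symm vb va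
    obtain ⟨r1, -⟩ := r.resolve_left fun c => by
      have := h.tf.ord_lo ne (c.1 ▸ h.tf.ct_nk (h.tf.nk_v.1 (c.1 ▸ vb)) : b ∈ G.Ct t)
      rw [← c.2, ← tord_old (s := t) (s' := t') va] at this
      omega
    obtain ⟨ne', q⟩ := h.stem hs hs' (by omega) (sb hb) (sb ha) e.symm vb va
    obtain ⟨q1, q2⟩ := q.resolve_left fun c => ne ((h.tf.btw_nk hs (h.pr _) ht (h.pr _) ht'
      (h.pr _) l1 l (c.1.symm.trans r1) (h.tf.nk_v.1 (c.1 ▸ vb))).trans (c.1.symm.trans r1))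
    rw [tord_old va, q2]
    exact h.tf.ord_hi ne' (q1 ▸ h.tf.ct_nk (h.tf.nk_v.1 (q1 ▸ vb)))
  · rwa [tord_old va, tord_old vb] at lt ⊢

theorem DC.ord_le (h : ST G) (hd : DC G M d) (hu : u ∈ M.us) (c : (FT G).Cov u e)
    (hy : y ∈ (Bd G e).X) (hz : z ∈ (Bd G e).X) (le : (Bd G e).ρ y ≤ (Bd G e).ρ z) :
    d.ρ y ≤ d.ρ z := by
  obtain ⟨a, b, r⟩ := hd.rng h hu c
  obtain ⟨n1, n2, -⟩ := h.tf.toRows.nx_mem a
  rw [hd.eρ y (hd.bt h hu c hy), hd.eρ z (hd.bt h hu c hz)]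
  exact h.ord_le hd.hM.hs hd.hM.hs' hd.nov a n1 b (by omega) (by omega) hy hz le

theorem DC.bI (h : ST G) (hd : DC G M d) (hu : u ∈ M.us) (c : (FT G).Cov u e) :
    (Bd G e).I ⊆ d.I := by
  obtain ⟨a, b, r⟩ := hd.rng h hu c
  obtain ⟨n1, n2, -⟩ := h.tf.toRows.nx_mem a
  rw [h.bd_I (h.tf.toRows.la a), hd.eI]
  refine fun z hz => Or.inr (h.tf.cl_mono hd.hM.hs (h.pr _) hd.hM.hs' (h.pr _) a (h.pr _) n1
    (h.pr _) b (by omega) (h.tf.mono' hd.hM.hs (h.pr _) a (h.pr _) b).2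
    (h.tf.mono' n1 (h.pr _) hd.hM.hs' (h.pr _) (by omega)).1 ?_)
  rwa [← show G.f e = (FT G).f M.s from h.tf.uw.lf _ _ a]

theorem DC.bY (h : ST G) (hd : DC G M d) (hu : u ∈ M.us) (c : (FT G).Cov u e)
    (hy : y ∈ (Bd G e).Y) : y ∈ d.I ∨ y ∈ d.Y := by
  obtain ⟨a, b, r⟩ := hd.rng h hu c
  obtain ⟨n1, n2, -⟩ := h.tf.toRows.nx_mem a
  have : y ∈ (FT G).Top M.s M.s' := by
    rcases (h.bd_Y (h.tf.toRows.la a)).1 hy with rfl | rfl
    exacts [⟨a, b, r.le⟩, ⟨n1, show G.ρ _ ≤ G.ρ _ by omega, show G.ρ _ ≤ G.ρ _ by omega⟩]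
  exact (top_mem h.lay hd.hM this).symm.imp (fun m => hd.eI ▸ Or.inl m) fun m => hd.mc.eY ▸ m

/-- two discs of one macro cell have the same outputs -/
theorem DC.outX (hd : DC G M d) (hd' : DC G M d') {X' Q : Set (Vx J)}
    {Ψ : (Vx J → Col) → Set (Vx J) → Prop} (O : OutX G.Γ d S X' Q Ψ) : OutX G.Γ d' S X' Q Ψ := by
  have eX := hd'.eX.trans hd.eX.symm
  have eY := hd'.mc.eY.trans hd.mc.eY.symm
  have eI := hd'.eI.trans hd.eI.symm
  have eZ : d'.Z = d.Z := by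
    ext z
    rw [z_iff hd'.mc.disc, z_iff hd.mc.disc, eX, eY, eI]
  refine ⟨?_, eX ▸ O.sub, O.st, ?_⟩
  · rw [eZ, eX, eI, hd'.ea, hd'.eb, ← hd.ea, ← hd.eb]
    exact O.sh.congr fun v hv => (hd.eρ v hv).trans (hd'.eρ v (eX ▸ hv)).symm
  · rw [eX, eY, eI]
    exact O.ext

theorem DC.sl (hd : DC G M d) (hd' : DC G M d') {Ok : Un J → Prop} (k : FE.Sl (FT G) p Ok M d S B) :
    FE.Sl (FT G) p Ok M d' S B := by
  obtain ⟨X', Q, Ψ, O, b, k⟩ := k
  exact ⟨X', Q, Ψ, hd.outX hd' O, b, fun o σ c a m => k o σ c a fun y hy =>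
    m y (by rw [hd'.mc.eY, ← hd.mc.eY]; exact hy)⟩

/-- One vertex of the basic cell sees the bottom on both sides of the two edges. -/
def SpanT (G : TD J) (e : Vx J) (f f' : Sym2 (Vx J)) : Prop :=
  f ∈ PE G.Γ (Bd G e).X ∧ f' ∈ PE G.Γ (Bd G e).X ∧ ∃ w, (w ∈ (Bd G e).I ∨ w ∈ (Bd G e).Y) ∧
    ∃ a ∈ (Bd G e).X, ∃ b ∈ (Bd G e).X, G.Γ.Adj w a ∧ G.Γ.Adj w b ∧
      ∀ x, x ∈ f ∨ x ∈ f' → (Bd G e).ρ a ≤ (Bd G e).ρ x ∧ (Bd G e).ρ x ≤ (Bd G e).ρ b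

/-- The edge `f` is straddled under `e`. -/
def ExT (G : TD J) (e : Vx J) (f : Sym2 (Vx J)) : Prop := ∃ z, Bad G.Γ (Bd G e) z f

theorem ST.span (h : ST G) (he : e ∈ G.LA) (m : f ∈ PE G.Γ (Bd G e).X)
    (m' : f' ∈ PE G.Γ (Bd G e).X) (b : ExT G e f) (b' : ExT G e f') : SpanT G e f f' := by
  obtain ⟨z, b⟩ := b
  obtain ⟨z', b'⟩ := b'
  have D := h.bd_disc he
  obtain rfl := Bad.uniq h.lay.fine.pl D (h.bd_st he).ne m b b'
  obtain ⟨ql, qj, w, r⟩ := b.hubT D (h.bd_st he) m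
  obtain ⟨-, -, -, q, hq, q', hq', a, a', r'⟩ := b'
  exact ⟨m, m', z, Or.inl w.hz, ql, w.hl, qj, w.hj, w.zl, w.zj, fun x k => k.elim (r x) fun k =>
    ⟨(w.ex q hq a).1.trans (r' x k).1, (r' x k).2.trans (w.ex q' hq' a').2⟩⟩

theorem DC.eq_mt (h : ST G) (hd : DC G M d) (hu : M.us = {Tv (FT G) e}) : M = Mt G e := by
  obtain ⟨-, e1, e2⟩ := one_ends h.lay hd.hM hu
  exact MU.ext e1.symm e2.symm hu

theorem sst_pe : SST G P x e ⊆ PE G.Γ (Bd G e).X := fun _ m => m.1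

/-- the payer of two strict edges under `e` -/
theorem ST.eb_ex (h : ST G) (he : e ∈ G.LA) (m : f ∈ PE G.Γ (Bd G e).X)
    (m' : f' ∈ PE G.Γ (Bd G e).X) : ∃ X' Q t, (t = e ∨ t = G.nx e) ∧
      OutX G.Γ (Bd G e) {f, f'} X' Q fun c A => c e = c (G.nx e) ∨ t ∈ A :=
  outX_eb h.lay.fine.pl (all_T _ _ h.lay.fine.pl) (h.bd_disc he) (h.bd_st he) m m'

variable (h : ST G) (hp : PS (FT G) (XT G) G.Pr p (PQT G P Vs x)) (he : e ∈ G.LA)
include h hp he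

/-- a static edge: any solution of the basic disc -/
theorem ST.spt_stat (s0 : e ∈ (PQT G P Vs x).St (FT G)) (sub : SST G P x e ⊆ S)
    (k : FE.Sl (FT G) p ((PQT G P Vs x).Ok (FT G)) (Mt G e) (Bd G e) S B) :
    SpT G p (PQT G P Vs x) e := by
  intro M d u hd hu o c
  obtain rfl := hd.eq_mt h (hp.stat h.lay (one_ends h.lay hd.hM hu).1 o s0 c ▸ hu)
  rw [(mt_c1 he).su h.lay]
  exact (h.dcb he).sl hd (k.mono sub (Set.empty_subset _))

/-- a static edge that is strict together with the edges below -/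
theorem ST.spt_free (s0 : e ∈ (PQT G P Vs x).St (FT G)) (sub : SST G P x e ⊆ S)
    {X' Q : Set (Vx J)} (O : OutX G.Γ (Bd G e) S X' Q fun _ _ => True) :
    SpT G p (PQT G P Vs x) e := h.spt_stat hp he s0 sub (sl_true O (Set.empty_subset _))

/-- the same from a two-sided output -/
theorem ST.spt_out (s0 : e ∈ (PQT G P Vs x).St (FT G)) (sub : SST G P x e ⊆ S) {o : OD (Vx J)}
    (O : Out G.Γ (Bd G e) S o) (m : s(e, G.nx e) ∈ S) : SpT G p (PQT G P Vs x) e :=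
  h.spt_stat hp he s0 subset_rfl (sl_st h.lay (h.mt he) (h.dcb he).mc rfl rfl O m sub sst_pe)

/-- a static edge that is paid below -/
theorem ST.spt_one (s0 : e ∈ (PQT G P Vs x).St (FT G)) (sub : SST G P x e ⊆ S) {o : OD (Vx J)}
    (O : Out G.Γ (Bd G e) S o) (hS : S ⊆ PE G.Γ (Bd G e).X) (d0 : p.Dn (FT G) e) :
    SpT G p (PQT G P Vs x) e :=
  h.spt_stat hp he s0 sub (sl_out h.lay (h.mt he) (h.dcb he).mc rfl O hS
    fun _ => (mt_c1 he).t1 h.lay d0)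

/-- a static edge over a good edge -/
theorem ST.spt_k1 (s0 : e ∈ (PQT G P Vs x).St (FT G)) (sub : SST G P x e ⊆ {f})
    (m : f ∈ PE G.Γ (Bd G e).X) (g : ¬ ExT G e f) : SpT G p (PQT G P Vs x) e :=
  h.spt_stat hp he s0 sub (sl_k1 h.lay (h.mt he) (h.dcb he).mc rfl rfl m fun z b => g ⟨z, b⟩)

/-- a static edge that pays twice -/
theorem ST.spt_t2 (s0 : e ∈ (PQT G P Vs x).St (FT G)) (sub : SST G P x e ⊆ {f, f'})
    (pd : p.c e.1 = p.c (G.nx e).1 ∨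
      (p.R (FT G) e ∧ e.1 ∈ p.dn ∧ p.Lt (FT G) (G.nx e) ∧ (G.nx e).1 ∈ p.dn)) :
    SpT G p (PQT G P Vs x) e :=
  h.spt_stat hp he s0 subset_rfl ((mt_c1 he).eb h.lay (h.mt he) (h.dcb he).mc sst_pe
    ⟨f, f', sub⟩ pd)

omit h hp he in
theorem sl_ebT {X' Q : Set (Vx J)} {Ok : Un J → Prop}
    (O : OutX G.Γ (Bd G e) S X' Q fun c A => c e = c (G.nx e) ∨ t ∈ A) (pd : PayE (FT G) p e t) :
    FE.Sl (FT G) p Ok (Mt G e) (Bd G e) S ∅ := by
  refine ⟨X', Q, _, O, Set.empty_subset _, fun _ σ c hc _ => ?_⟩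
  obtain ⟨c1, c2, -⟩ := hc _ rfl
  by_cases m : p.c e.1 = p.c (G.nx e).1
  · exact Or.inl (congrArg σ (c1.trans (m.trans c2.symm)))
  rcases pd.resolve_left m with ⟨rfl, a⟩ | ⟨rfl, a⟩
  exacts [Or.inr (Or.inl ⟨_, rfl, rfl, m, Or.inl ⟨rfl, a.1⟩, a.2⟩),
    Or.inr (Or.inl ⟨_, rfl, rfl, m, Or.inr ⟨rfl, a.1⟩, a.2⟩)]

/-- a static edge whose payer pays -/
theorem ST.spt_eb (s0 : e ∈ (PQT G P Vs x).St (FT G)) (sub : SST G P x e ⊆ S) {X' Q : Set (Vx J)}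
    (O : OutX G.Γ (Bd G e) S X' Q fun c A => c e = c (G.nx e) ∨ t ∈ A) (pd : PayE (FT G) p e t) :
    SpT G p (PQT G P Vs x) e := h.spt_stat hp he s0 sub (sl_ebT O pd)

omit he in
/-- under a cap over an edge that is paid below there are only the strict edges of this edge -/
theorem DC.cap_su (hd : DC G M d) (hu : M.us = {u}) (o : (PQT G P Vs x).Ok0 (FT G) u)
    (n : u.x ≠ u.s) (c : (FT G).Cov u e) (d0 : p.Dn (FT G) e)
    (dn : ∀ y ∈ G.LA, y ∉ (PQT G P Vs x).St (FT G) → (SST G P x y).Nonempty → p.Dn (FT G) y) :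
    (PQT G P Vs x).SU (FT G) M ⊆ SST G P x e ∧ p.R (FT G) u.s ∧ p.Lt (FT G) u.s' := by
  have hF := h.lay
  have vu := (one_ends hF hd.hM hu).1
  have os := o.resolve_right fun k => k.2
  have pt := hp.pt hF os n
  have ns : ∀ y, (FT G).Cov u y → y ∉ (PQT G P Vs x).St (FT G) := fun y m s =>
    n (by rw [hp.stat hF vu o s m]; rfl)
  have db := fun y (m : (FT G).Cov u y) =>
    hp.pl.up_dn hF (hF.la m.1) (hp.up y (hF.la m.1) (os.2 n y m))
  obtain ⟨r, l⟩ := chain_dbl hF vu pt c (db e c d0)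
  refine ⟨?_, r, l⟩
  rintro f ⟨t, ht, y, m, k⟩
  rw [hu] at ht
  subst ht
  exact chain_uni hF pt m c (db y m (dn y (hF.la m.1) (ns y m) ⟨f, k⟩)) (db e c d0) ▸ k

/-- an edge that is paid below and whose strict edges have an output in every macro cell; caps
are allowed -/
theorem ST.spt_dyn (sub : SST G P x e ⊆ S) (d0 : p.Dn (FT G) e)
    (dn : ∀ y ∈ G.LA, y ∉ (PQT G P Vs x).St (FT G) → (SST G P x y).Nonempty → p.Dn (FT G) y)
    (k : ∀ M d u, DC G M d → M.us = {u} → (FT G).Cov u e →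
      S ⊆ PE G.Γ d.X ∧ ∃ o, Out G.Γ d S o) : SpT G p (PQT G P Vs x) e := by
  intro M d u hd hu o c
  have hF := h.lay
  have mu : u ∈ M.us := hu ▸ rfl
  have vu := (hd.hM.val u mu).1
  obtain ⟨hS, O, hO⟩ := k M d u hd hu c
  by_cases n : u.x = u.s
  · have eu := hF.eq_tv vu n
    obtain rfl : e = u.s := hF.tv_cov vu.hs (eu ▸ c)
    obtain rfl := hd.eq_mt h (eu ▸ hu)
    rw [(mt_c1 he).su hF]
    exact (sl_out hF hd.hM hd.mc hu hO hS fun _ => t1_dn hF vu mu n d0).mono sub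
      (Set.empty_subset _)
  · obtain ⟨k1, k2, k3⟩ := hd.cap_su h hp hu o n c d0 dn
    exact (sl_out hF hd.hM hd.mc hu hO hS fun ok => t1_cap (hp.plan hF) vu ok mu n k2 k3).mono
      (k1.trans sub) (Set.empty_subset _)

/-- an edge that is paid below over two edges in the span of one vertex; caps are allowed -/
theorem ST.spt_sp (sub : SST G P x e ⊆ {f, f'}) (sp : SpanT G e f f') (d0 : p.Dn (FT G) e)
    (dn : ∀ y ∈ G.LA, y ∉ (PQT G P Vs x).St (FT G) → (SST G P x y).Nonempty → p.Dn (FT G) y) :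
    SpT G p (PQT G P Vs x) e := by
  refine h.spt_dyn hp he sub d0 dn fun M d u hd hu c => ?_
  have mu : u ∈ M.us := hu ▸ rfl
  obtain ⟨m, m', w, hw, a, ha, b, hb, wa, wb, r⟩ := sp
  have sb : (Bd G e).X ⊆ d.X := hd.bt h mu c
  refine ⟨by rintro _ (rfl | rfl); exacts [PE.mono sb m, PE.mono sb m'],
    FS.sp h.lay.fine.pl (all_T _ _ h.lay.fine.pl) hd.mc.disc
      (hw.elim (fun k => Or.inl (hd.bI h mu c k)) (hd.bY h mu c)) (sb ha) (sb hb) wa wb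
      (PE.mono sb m) (PE.mono sb m') fun y k => ?_⟩
  have := k.elim (PE.ends m) (PE.ends m')
  exact ⟨hd.ord_le h mu c ha this (r y k).1, hd.ord_le h mu c this hb (r y k).2⟩

end Pool.Agent.P.MP_08fd93_co.FP2
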