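import Pool.Agent.P.MP_08fd93_co.FP2.TJ
import Pool.Agent.P.MP_08fd93_co.FN.N0

/-! A frame with tails is a layer system. -/

set_option autoImplicit false

namespace Pool.Agent.P.MP_08fd93_co.FP2

open OV FZ

variable {J : Type} {G : TD J} {ft : Vx J → Vx J} {j : ℤ} {s s' p p' : Vx J}

/-- The frame with the virtual parents `ft`. -/
def TD.F (G : TD J) (ft : Vx J → Vx J) : FD J := ⟨G.Γ, G.η, G.f, ft, G.w, G.l, G.ρ, G.nn⟩

/-- The static vertices and the static cells for the virtual parents `ft`. -/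
def TD.X (G : TD J) (ft : Vx J → Vx J) : FN.XD J :=
  ⟨G.V, fun s s' => G.Cl (G.f s) (ft s) s (ft s') s'⟩

/-- A monotone periodic choice of feet. -/
structure TFt (G : TD J) (ft : Vx J → Vx J) : Prop where
  fo : ∀ j, ∀ s ∈ G.L j, s ∈ G.Pr → G.Ft s (ft s)
  eqv : ∀ a, ∀ x ∈ G.Pr, ft (tr a x) = tr a (ft x)
  mono : ∀ j, ∀ s ∈ G.L j, ∀ t ∈ G.L j, s ∈ G.Pr → t ∈ G.Pr → G.ρ s ≤ G.ρ t →
    G.ρ (ft s) ≤ G.ρ (ft t)

theorem TFrm.fts_l (h : TFrm G) : TFt G fun s => G.xl (G.an s) :=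
  ⟨fun _ _ _ _ => Or.inl rfl, fun a x _ => by rw [h.atr, (h.xtr _ _).1],
    fun _ _ hs _ ht ps pt l => (h.mono' hs ps ht pt l).1⟩

theorem TFrm.fts_r (h : TFrm G) : TFt G fun s => G.xr (G.an s) :=
  ⟨fun _ _ _ _ => Or.inr rfl, fun a x _ => by rw [h.atr, (h.xtr _ _).2.1],
    fun _ _ hs _ ht ps pt l => (h.mono' hs ps ht pt l).2⟩

theorem TFrm.rowsF (h : TFrm G) (ft : Vx J → Vx J) : Rows (G.F ft) :=
  ⟨h.wp, h.uw, h.nj, h.mem, h.rho, h.adj, h.lw, h.n2, h.ltr, h.blc, h.tch⟩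

theorem TFrm.k_tr (h : TFrm G) (a : ℤ × ℤ) (x : Vx J) : tr a x ∈ G.V ↔ x ∈ G.V :=
  ⟨fun k => by simpa only [tr_neg] using h.vtr (-a) _ k, h.vtr a x⟩

theorem TFrm.t_tr (h : TFrm G) (a : ℤ × ℤ) (u v : Vx J) :
    tr a u ∈ G.Ct (tr a v) ↔ u ∈ G.Ct v := by
  simp only [TD.Ct, Set.mem_inter_iff, Set.mem_insert_iff, Set.mem_singleton_iff, h.k_tr, h.atr,
    (h.xtr _ _).2.2.2, (tr_inj a).eq_iff]

theorem TFrm.s_tr (h : TFrm G) (a : ℤ × ℤ) (x : Vx J) : tr a x ∈ G.S (j + G.η a) ↔ x ∈ G.S j :=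
  and_congr (h.uw.str a j x) (not_congr (h.k_tr a x))

theorem TFrm.side_tr (h : TFrm G) (a : ℤ × ℤ) (hp : p ∈ G.L (j - 1)) (hs : s ∈ G.L j) (u : Vx J) :
    (G.Lf (j + G.η a) (tr a p) (tr a s) (tr a u) ↔ G.Lf j p s u) ∧
      (G.Rg (j + G.η a) (tr a p) (tr a s) (tr a u) ↔ G.Rg j p s u) := by
  obtain ⟨κ, hκ⟩ := h.toRows.rho_tr a j
  obtain ⟨κ', hκ'⟩ := h.toRows.rho_tr a (j - 1)
  have e : j + G.η a - 1 = j - 1 + G.η a := by ring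
  have e1 := (hκ s hs).2
  have e2 := (hκ' p hp).2
  simp only [TD.Lf, TD.Rg, e, h.uw.ltr, h.k_tr, h.t_tr, h.wp.per, add_left_inj,
    (h.xtr _ _).2.2.1]
  constructor
  all_goals
    refine or_congr (and_congr_right fun k => ?_) (or_congr (and_congr_right fun k => ?_)
      (and_congr_right fun k => and_congr_right fun k' => and_congr_right fun _ => ?_))
    · have := (hκ' u k).2
      omega
    · have := (hκ u k).2
      omega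
    · have := (hκ _ (k' ▸ (h.vc u k).1)).2
      omega

theorem TFrm.cp_tr (h : TFrm G) (a : ℤ × ℤ) (v z : Vx J) :
    tr a z ∈ Nb G.Γ (G.Cp (j + G.η a) (tr a v)) ↔ z ∈ Nb G.Γ (G.Cp j v) := by
  have key : ∀ a j v z, z ∈ Nb G.Γ (G.Cp j v) → tr a z ∈ Nb G.Γ (G.Cp (j + G.η a) (tr a v)) :=
    fun a j v z ⟨y, hy, e⟩ => ⟨tr a y, h.wp.fine.conn_tr a (fun x hx => (h.s_tr a x).2 hx) hy,
      h.wp.fine.inv a _ _ e⟩
  refine ⟨fun k => ?_, key a j v z⟩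
  have := key (-a) _ _ _ k
  rwa [tr_neg, tr_neg, map_neg, add_neg_cancel_right] at this

theorem TFrm.cl_tr (h : TFrm G) (a : ℤ × ℤ) (hp : p ∈ G.L (j - 1)) (hs : s ∈ G.L j)
    (hp' : p' ∈ G.L (j - 1)) (hs' : s' ∈ G.L j) (v : Vx J) :
    tr a v ∈ G.Cl (j + G.η a) (tr a p) (tr a s) (tr a p') (tr a s') ↔ v ∈ G.Cl j p s p' s' := by
  refine and_congr (h.s_tr a v) ?_
  rw [(FN.tr_surj a).forall]
  simp only [h.cp_tr, (h.side_tr a hp hs _).1, (h.side_tr a hp' hs' _).2]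

/-- a frame with tails and a choice of feet give a layer system -/
theorem TFrm.lay (h : TFrm G) (hf : TFt G ft) : FN.Lay (G.F ft) (G.X ft) G.Pr := by
  have lf := h.uw.lf
  have fl : ∀ j, ∀ s ∈ G.L j, s ∈ G.Pr → ft s ∈ G.L (j - 1) := fun j s hs ps =>
    (h.foot hs ps (hf.fo j s hs ps)).1
  refine ⟨h.wp.fine, h.nj, h.wp.per, h.wp.ker, h.wp.gen, h.uw.ge, h.uw.big, h.uw.mono, h.uw.utr,
    h.uw.ltr, h.uw.str, h.uw.lf, h.uw.lu, h.uw.bd, h.mem, h.rho, h.adj, h.lw, h.n2, h.ltr, h.ptr,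
    fl, hf.eqv, hf.mono, h.k_tr, fun k hk => ⟨_, h.vst k hk⟩, fun j s hs s' _ _ _ v hv => ?_,
    fun j s hs s' hs' ps ps' v hv z e => ?_, fun a j s hs s' hs' ps ps' v => ?_,
    fun j s hs s' hs' t ht t' ht' ps ps' pt pt' l l' => ?_, fun j v hv hk => ?_,
    fun j s hs s' hs' t ht t' ht' ps ps' pt pt' l => ?_,
    fun j s hs s' hs' ps ps' x hx l1 l2 z e => ?_⟩
  · obtain rfl := lf j s hs
    exact hv.1
  · obtain rfl := lf j s hs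
    have hv : v ∈ G.Cl (G.f s) (ft s) s (ft s') s' := hv
    obtain ⟨h1, h2⟩ := hv.2 z (cp_adj e)
    rcases h.att hv.1.1 e with k | k | k | k
    · exact Or.inl (tcl_step hv k e)
    · exact Or.inr (Or.inr (Or.inl ⟨k, not_lt.1 fun c => h1 (Or.inl ⟨k, c⟩),
        not_lt.1 fun c => h2 (Or.inl ⟨k, c⟩)⟩))
    · exact Or.inr (Or.inr (Or.inr ⟨k, not_lt.1 fun c => h1 (Or.inr (Or.inl ⟨k, c⟩)),
        not_lt.1 fun c => h2 (Or.inr (Or.inl ⟨k, c⟩))⟩))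
    · exact Or.inr (Or.inl k.1)
  · obtain rfl := lf j s hs
    show tr a v ∈ G.Cl (G.f (tr a s)) (ft (tr a s)) (tr a s) (ft (tr a s')) (tr a s') ↔ _
    rw [h.wp.per, hf.eqv a s ps, hf.eqv a s' ps']
    exact h.cl_tr a (fl _ s hs ps) hs (fl _ s' hs' ps') hs' v
  · show G.Cl (G.f t) _ _ _ _ ⊆ G.Cl (G.f s) _ _ _ _
    rw [lf j s hs, lf j t ht]
    exact h.cl_mono hs ps hs' ps' ht pt ht' pt' l l' (hf.mono j s hs t ht ps pt l)
      (hf.mono j t' ht' s' hs' pt' ps' l')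
  · obtain ⟨s, hs, s', hs', ps, ps', l, c, m⟩ := h.cl_ex (hf.fo j) ⟨hv, hk⟩
    refine ⟨s, hs, s', hs', ps, ps', l, c, ?_⟩
    show v ∈ G.Cl (G.f s) _ _ _ _
    rwa [lf j s hs]
  · show Disjoint (G.Cl (G.f s) _ _ _ _) (G.Cl (G.f t) _ _ _ _)
    rw [lf j s hs, lf j t ht]
    exact h.cl_dis hs' ps' ht pt (hf.fo j t ht pt) l (hf.mono j s' hs' t ht ps' pt l)
  · obtain rfl := lf j s hs
    obtain ⟨h0, h1, h2⟩ := h.cl_btw hs ps hs' ps' (hf.fo _ s hs ps) (hf.fo _ s' hs' ps')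
      (Or.inr (Or.inl ⟨hx, l1⟩)) (Or.inr (Or.inl ⟨hx, l2⟩)) e
    refine ⟨fun k => ?_, fun k => ⟨k, not_lt.1 fun c => h1 (Or.inl ⟨k, c⟩),
      not_lt.1 fun c => h2 (Or.inl ⟨k, c⟩)⟩⟩
    by_cases c : z ∈ G.V
    exacts [Or.inr c, Or.inl (h0 ⟨k, c⟩)]

end Pool.Agent.P.MP_08fd93_co.FP2
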