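import Pool.Agent.P.MP_08fd93_co.FN.N9
import Pool.Agent.P.MP_08fd93_co.FP2.TM

/-! Integration: frames with tails whose necks have one foot or two adjacent feet. -/

set_option autoImplicit false

namespace Pool.Agent.P.MP_08fd93_co.FP2

open OV PkPrtP FB FE FN

variable {J : Type} {G : TD J} {j : ℤ} {s s' t t' e y a b k : Vx J}

/-- Necks have close feet; every row vertex is a cut. -/
structure ST (G : TD J) : Prop where
  tf : TFrm G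
  pr : ∀ x, x ∈ G.Pr
  kq : ∀ k ∈ G.V, ∀ k' ∈ G.V, ∀ x, G.Γ.Adj x k → G.Γ.Adj x k' → G.md k = G.md k'
  sh : ∀ k ∈ G.V, G.ρ (G.xr k) ≤ G.ρ (G.xl k) + 1

/-- The virtual parent: the left foot. -/
def ftT (G : TD J) (s : Vx J) : Vx J := G.xl (G.an s)

/-- The frame with the left feet as parents. -/
abbrev FT (G : TD J) : FD J := G.F (ftT G)

/-- The static data with the left feet as parents. -/
abbrev XT (G : TD J) : XD J := G.X (ftT G)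

theorem ST.fts (h : ST G) : TFt G (ftT G) := h.tf.fts_l

theorem ST.lay (h : ST G) : Lay (FT G) (XT G) G.Pr := h.tf.lay h.fts

theorem TFrm.nk_x (h : TFrm G) (s : Vx J) :
    G.xl (G.nk s) = G.xl (G.an s) ∧ G.xr (G.nk s) = G.xr (G.an s) := h.x_eq (h.mm _)

theorem TFrm.nk_xx (h : TFrm G) (e : G.nk s = G.nk t) :
    G.xl (G.an s) = G.xl (G.an t) ∧ G.xr (G.an s) = G.xr (G.an t) := h.x_eq e

theorem bt_a : G.an s ∈ G.Bt s s' := Or.inl rfl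

theorem bt_b : G.an s' ∈ G.Bt s s' := Or.inr (Or.inl rfl)

theorem bt_n (n : G.nk s ≠ G.nk s') : G.nk s ∈ G.Bt s s' ∧ G.nk s' ∈ G.Bt s s' :=
  ⟨Or.inr (Or.inr ⟨n, Or.inl rfl⟩), Or.inr (Or.inr ⟨n, Or.inr (Or.inl rfl)⟩)⟩

/-- if the parents differ, both necks lie on the bottom -/
theorem TFrm.bt_nk (h : TFrm G) (n : G.an s ≠ G.an s') :
    G.nk s ∈ G.Bt s s' ∧ G.nk s' ∈ G.Bt s s' := by
  by_cases c : G.nk s = G.nk s'
  · rw [← c, and_self]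
    rcases ((h.nk_cases c).resolve_left n).2 with m | m
    exacts [m ▸ bt_a, m ▸ bt_b]
  · exact bt_n c

/-- a head determines its cut -/
theorem TFrm.head (h : TFrm G) (m : a ∈ G.Ct s) (n : G.md a ≠ a) : G.an s = a := by
  rcases m.1 with e | e
  · exact e.symm
  · exact absurd (e ▸ h.mm _) n

section

variable (h : ST G) (hs : s ∈ G.L j) (hs' : s' ∈ G.L j)
include h hs hs'

omit hs' in
theorem ST.bt_of (ne : G.nk s ≠ G.nk s') (hy : y ∈ G.L (j - 1))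
    (l1 : G.ρ (G.xr (G.an s)) ≤ G.ρ y) (l2 : G.ρ y ≤ G.ρ (G.xl (G.an s'))) : y ∈ G.Bt s s' :=
  Or.inr (Or.inr ⟨ne, Or.inr (Or.inr ⟨by rwa [h.tf.uw.lf j s hs], l1, l2⟩)⟩)

/-- visible cuts through all static vertices -/
theorem ST.nov (hv : ∀ k ∈ G.V, G.f k = j → ∃ t ∈ G.L j, k ∈ G.Ct t ∧
    (G.ρ t ≤ G.ρ s ∨ G.ρ s' ≤ G.ρ t)) : G.NoV s s' := by
  intro k hk m
  obtain ⟨c1, c2, c3⟩ := h.tf.vc k hk
  have e : G.f k = j := (h.tf.uw.lf _ _ c1).symm.trans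
    ((h.tf.uw.lf _ _ m.1).trans (h.tf.uw.lf _ _ hs))
  rw [e] at c1
  obtain ⟨t, t1, t2, l | l⟩ := hv k hk e
  exacts [Or.inl (h.tf.pass t1 (h.pr t) hs (h.pr s) c1 c2 l m.2.1 t2 c3),
    Or.inr (h.tf.pass c1 c2 hs' (h.pr s') t1 (h.pr t) m.2.2 l c3 t2)]

/-- a static vertex under the interval lies on one of the two outer cuts -/
theorem ST.kin (hN : G.NoV s s') (ht : t ∈ G.L j) (l1 : G.ρ s ≤ G.ρ t) (l2 : G.ρ t ≤ G.ρ s')
    (hk : k ∈ G.Ct t) : k ∈ G.Ct s ∨ k ∈ G.Ct s' := by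
  obtain ⟨c1, c2, c3⟩ := h.tf.vc _ hk.2
  rw [h.tf.ct_f ht (h.pr t) hk] at c1
  by_cases a : G.ρ (G.ch k) < G.ρ s
  · exact Or.inl (h.tf.pass c1 c2 hs (h.pr s) ht (h.pr t) a.le l1 c3 hk)
  by_cases b : G.ρ s' < G.ρ (G.ch k)
  · exact Or.inr (h.tf.pass ht (h.pr t) hs' (h.pr s') c1 c2 l2 b.le hk c3)
  exact hN _ hk.2 ⟨by rwa [h.tf.uw.lf j s hs], by omega, by omega⟩

theorem ST.an_bt (hN : G.NoV s s') (ht : t ∈ G.L j) (l1 : G.ρ s ≤ G.ρ t) (l2 : G.ρ t ≤ G.ρ s')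
    (hk : G.an t ∈ G.V) : G.an t ∈ G.Bt s s' := by
  have m := h.kin hs hs' hN ht l1 l2 (ct_an hk)
  by_cases c : G.nk s = G.nk s'
  swap
  · exact TFrm.ct_bt c m
  by_cases n : G.an s = G.an s'
  · have v : G.an s ∈ G.V := m.elim h.tf.ct_v fun g => n ▸ h.tf.ct_v g
    have g := h.tf.btw_an hs (h.pr s) ht (h.pr t) hs' (h.pr s') l1 l2 n v
    have m' : G.an t ∈ G.Ct s := m.elim id fun q => by
      rw [h.tf.ct_eq v, n, c, ← h.tf.ct_eq (n ▸ v)]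
      exact q
    refine Or.inl ?_
    by_cases q : G.md (G.an t) = G.an t
    · rcases g.1 with r | r
      exacts [r.symm, (r.trans q).symm]
    · exact (h.tf.head m' q).symm
  · rcases m with ⟨r | r, -⟩ | ⟨r | r, -⟩
    exacts [r ▸ bt_a, r ▸ (h.tf.bt_nk n).1, r ▸ bt_b, r ▸ (h.tf.bt_nk n).2]

/-- the bottom of a part of the interval -/
theorem ST.bt_sub (hN : G.NoV s s') (ht : t ∈ G.L j) (ht' : t' ∈ G.L j)
    (l1 : G.ρ s ≤ G.ρ t) (l : G.ρ t ≤ G.ρ t') (l2 : G.ρ t' ≤ G.ρ s') : G.Bt t t' ⊆ G.Bt s s' := by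
  intro z hz
  have sm : G.nk s = G.nk s' → G.an s ∈ G.V → G.nk t = G.nk s ∧ G.nk t' = G.nk s := fun e g =>
    ⟨h.tf.btw_nk hs (h.pr s) ht (h.pr t) hs' (h.pr s') l1 (l.trans l2) e g,
      h.tf.btw_nk hs (h.pr s) ht' (h.pr t') hs' (h.pr s') (l1.trans l) l2 e g⟩
  by_cases c : z ∈ G.V
  · have m : z ∈ G.Ct s ∨ z ∈ G.Ct s' := (h.tf.bt_v hz c).elim
      (h.kin hs hs' hN ht l1 (l.trans l2)) (h.kin hs hs' hN ht' (l1.trans l) l2)
    by_cases e : G.nk s = G.nk s'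
    swap
    · exact TFrm.ct_bt e m
    obtain ⟨e1, e2⟩ := sm e (m.elim h.tf.ct_v fun g => (h.tf.nk_same e).2 (h.tf.ct_v g))
    rw [tbt_pair (e1.trans e2.symm)] at hz
    rcases hz with rfl | rfl
    exacts [h.an_bt hs hs' hN ht l1 (l.trans l2) c, h.an_bt hs hs' hN ht' (l1.trans l) l2 c]
  obtain ⟨z1, z2, z3⟩ := h.tf.bt_line ht (h.pr t) ht' (h.pr t') l hz c
  have m1 := (h.tf.mono' hs (h.pr s) ht (h.pr t) l1).2
  have m2 := (h.tf.mono' ht' (h.pr t') hs' (h.pr s') l2).1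
  by_cases e : G.nk s = G.nk s'
  · by_cases g : G.an s ∈ G.V
    · obtain ⟨e1, e2⟩ := sm e g
      rw [tbt_pair (e1.trans e2.symm)] at hz
      rcases hz with rfl | rfl
      exacts [absurd ((h.tf.nk_same e1).2 g) c, absurd ((h.tf.nk_same e2).2 g) c]
    · rw [(h.tf.xo _ g).2.1] at m1
      rw [← (h.tf.nk_xx e).1, (h.tf.xo _ g).1] at m2
      exact Or.inl (h.tf.toRows.inj z1 (h.tf.an_l hs (h.pr s) g) (by omega))
  · exact h.bt_of hs e z1 (by omega) (by omega)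

/-- an edge of the row on the bottom lies under one top edge -/
theorem ST.row_ex (hN : G.NoV s s') (lt : G.ρ s < G.ρ s') (h1 : y ∈ G.Bt s s') (hk : y ∉ G.V)
    (h2 : G.nx y ∈ G.Bt s s') : ∃ e ∈ G.L j, G.ρ s ≤ G.ρ e ∧ G.ρ e < G.ρ s' ∧
      y ∈ G.Bt e (G.nx e) ∧ G.nx y ∈ G.Bt e (G.nx e) := by
  have R := h.tf.toRows
  obtain ⟨y1, y2, -⟩ := h.tf.bt_line hs (h.pr s) hs' (h.pr s') lt.le h1 hk
  obtain ⟨n1, n2, -⟩ := R.nx_mem y1
  obtain ⟨-, -, y3⟩ := h.tf.bt_line hs (h.pr s) hs' (h.pr s') lt.le h2 (h.tf.l_nv n1)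
  obtain ⟨i, i1, i2, i3, i4⟩ := switch
    (P := fun i => i < G.ρ s' ∧ G.ρ (G.xr (G.an (G.l j i))) ≤ G.ρ y) lt.le
    ⟨lt, by rwa [R.l_rho hs]⟩ fun c => lt_irrefl _ c.1
  have m := R.l_mem j i
  have m' := R.l_mem j (i + 1)
  have key : G.ρ y + 1 ≤ G.ρ (G.xl (G.an (G.l j (i + 1)))) := by
    by_cases c : i + 1 = G.ρ s'
    · rw [c, R.l_rho hs']
      omega
    have g : G.ρ y < G.ρ (G.xr (G.an (G.l j (i + 1)))) := by
      by_contra g
      exact i4 ⟨by omega, by omega⟩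
    by_cases q : G.an (G.l j (i + 1)) ∈ G.V
    · rcases h.kin hs hs' hN m' (by rw [R.rho]; omega) (by rw [R.rho]; omega) (ct_an q) with r | r
      · rw [(h.tf.ct_x r).2] at g
        omega
      · rw [(h.tf.ct_x r).1]
        omega
    · rw [(h.tf.xo _ q).2.1] at g
      rw [(h.tf.xo _ q).1]
      omega
  have ne : G.nk (G.l j i) ≠ G.nk (G.l j (i + 1)) := fun r => by
    have := (h.tf.feet m (h.pr _)).2.2
    have := i3.2
    rw [← (h.tf.nk_xx r).1] at key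
    omega
  have := i3.2
  refine ⟨_, m, by rwa [R.rho], by rwa [R.rho], ?_⟩
  rw [R.nx_l]
  exact ⟨h.bt_of m ne y1 this (by omega), h.bt_of m ne n1 (by omega) (by omega)⟩

/-- an edge of the bottom path from a static vertex to the row -/
theorem ST.stem (l : G.ρ s ≤ G.ρ s') (ha : a ∈ G.Bt s s') (hb : b ∈ G.Bt s s') (e : G.Γ.Adj a b)
    (hk : a ∈ G.V) (nb : b ∉ G.V) : G.nk s ≠ G.nk s' ∧
      ((a = G.nk s ∧ b = G.xr (G.an s)) ∨ (a = G.nk s' ∧ b = G.xl (G.an s'))) := by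
  obtain ⟨b1, b2, b3⟩ := h.tf.bt_line hs (h.pr s) hs' (h.pr s') l hb nb
  have m := h.tf.bt_v ha hk
  refine ⟨fun c => ?_, ?_⟩
  · have v : G.an s ∈ G.V := m.elim h.tf.ct_v fun g => (h.tf.nk_same c).2 (h.tf.ct_v g)
    rw [tbt_pair c] at hb
    rcases hb with rfl | rfl
    exacts [nb v, nb ((h.tf.nk_same c).1 v)]
  rcases m with r | r
  · obtain ⟨f1, -, f3⟩ := h.tf.ct_low hs (h.pr s) r b1 e
    exact Or.inl ⟨f1, h.tf.toRows.inj b1 (h.tf.feet hs (h.pr s)).2.1 (le_antisymm f3 b2)⟩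
  · obtain ⟨f1, f2, -⟩ := h.tf.ct_low hs' (h.pr s') r b1 e
    exact Or.inr ⟨f1, h.tf.toRows.inj b1 (h.tf.feet hs' (h.pr s')).1 (le_antisymm b3 f2)⟩

omit hs hs' in
/-- an edge of the bottom path between two static vertices -/
theorem ST.neck (ha : a ∈ G.Bt s s') (hb : b ∈ G.Bt s s') (e : G.Γ.Adj a b) (hk : a ∈ G.V)
    (kb : b ∈ G.V) : G.an s ≠ G.an s' ∧ ∃ x, G.md x ≠ x ∧ (x = G.an s ∨ x = G.an s') ∧
      ((a = x ∧ b = G.md x) ∨ (b = x ∧ a = G.md x)) := by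
  have m := h.tf.vn a hk b kb e
  refine ⟨fun c => ?_, ?_⟩
  · rw [tbt_single c] at ha hb
    exact e.ne (ha.trans hb.symm)
  rcases h.tf.one a hk b kb m with r | r | r
  · exact absurd r e.ne
  · have n : G.md b ≠ b := fun c => e.ne (r.symm.trans (m.trans c))
    exact ⟨b, n, (h.tf.bt_v hb kb).imp (fun g => (h.tf.head g n).symm)
      fun g => (h.tf.head g n).symm, Or.inr ⟨rfl, r.symm.trans m⟩⟩
  · have n : G.md a ≠ a := fun c => e.ne (c.symm.trans (m.trans r))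
    exact ⟨a, n, (h.tf.bt_v ha hk).imp (fun g => (h.tf.head g n).symm)
      fun g => (h.tf.head g n).symm, Or.inl ⟨rfl, (m.trans r).symm⟩⟩

/-- the two feet lie on the bottom path -/
theorem ST.feet_bt (l : G.ρ s ≤ G.ρ s') (ne : G.nk s ≠ G.nk s') :
    G.xr (G.an s) ∈ G.Bt s s' ∧ G.xl (G.an s') ∈ G.Bt s s' := by
  have m := (h.tf.mono hs (h.pr s) hs' (h.pr s') l).resolve_left ne
  exact ⟨h.bt_of hs ne (h.tf.feet hs (h.pr s)).2.1 le_rfl m,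
    h.bt_of hs ne (h.tf.feet hs' (h.pr s')).1 m le_rfl⟩

/-- the last vertex with the value at `s` and the edge before the first one with the value at `s'` -/
theorem ST.last {φ : Vx J → Vx J} (l : G.ρ s ≤ G.ρ s') (ne : φ s ≠ φ s') :
    (∃ e ∈ G.L j, G.ρ s ≤ G.ρ e ∧ G.ρ e < G.ρ s' ∧ φ e = φ s ∧ φ (G.nx e) ≠ φ s) ∧
      ∃ e ∈ G.L j, G.ρ s ≤ G.ρ e ∧ G.ρ e < G.ρ s' ∧ φ e ≠ φ s' ∧ φ (G.nx e) = φ s' := by
  have R := h.tf.toRows
  constructor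
  · obtain ⟨i, i1, i2, i3, i4⟩ := switch (P := fun i => φ (G.l j i) = φ s) l
      (by rw [R.l_rho hs]) (by rw [R.l_rho hs']; exact ne.symm)
    exact ⟨_, R.l_mem j i, by rwa [R.rho], by rwa [R.rho], i3, by rwa [R.nx_l]⟩
  · obtain ⟨i, i1, i2, i3, i4⟩ := switch (P := fun i => φ (G.l j i) ≠ φ s') l
      (by rwa [R.l_rho hs]) (by rw [R.l_rho hs']; exact fun c => c rfl)
    exact ⟨_, R.l_mem j i, by rwa [R.rho], by rwa [R.rho], i3, by rw [R.nx_l]; exact not_not.1 i4⟩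

/-- the rest of a cell lies in the triangle under its left neck -/
theorem ST.rest (T : TA G.Γ) : G.R (ftT G) s s' = ∅ ∨ (G.an s ∈ G.V ∧ G.nk s ≠ G.nk s' ∧
    G.xl (G.an s) ≠ G.xr (G.an s) ∧
      Tri G.Γ (G.R (ftT G) s s') (G.nk s) (G.xl (G.an s)) (G.xr (G.an s))) := by
  rcases (G.R (ftT G) s s').eq_empty_or_nonempty with c | ⟨v, hv⟩
  · exact Or.inl c
  have sb := fun z (hz : z ∈ G.R (ftT G) s s') =>
    (h.tf.r_sub h.fts hs (h.pr s) hs' (h.pr s') hz).resolve_right fun c => c.2.1 rfl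
  obtain ⟨hk, ne, -⟩ := sb v hv
  have fk := h.tf.nk_f hs (h.pr s) hk
  obtain ⟨f1, f2, l1⟩ := h.tf.feet hs (h.pr s)
  have a1 := (h.tf.vl _ hk).2
  have a2 := (h.tf.vr _ hk).2
  have kn := h.tf.nk_v.2 hk
  have fin := (h.tf.r_nb hs fk fun z hz => (sb z hz).2.2).1
  have nb := h.tf.r_tri hs kn fk (fun z hz => (sb z hz).2.2) (h.sh _ kn)
  rw [(h.tf.nk_x s).1, (h.tf.nk_x s).2] at nb
  have l2 := h.sh _ hk
  have l3 : G.ρ (G.xl (G.an s)) ≠ G.ρ (G.xr (G.an s)) := fun c => ne (h.tf.toRows.inj f1 f2 c)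
  refine Or.inr ⟨hk, fun e => ?_, ne, h.lay.tri T a1
    ((h.tf.toRows.adj_iff f1 f2).2 (Or.inl (by omega))) a2 fin ?_ nb⟩
  · refine h.tf.nj _ (Set.subset_univ _) fin ⟨v, hv⟩ _ _ (Or.inr a1) fun z hz => ?_
    rcases nb hz with m | m | m | m
    exacts [Or.inl m, Or.inr (Or.inl m), Or.inr (Or.inr m), by
      obtain ⟨x, hx, g⟩ := hz
      refine ((hx.1.2 z (cp_adj g.symm)).2 (Or.inl ⟨?_, ?_⟩)).elim
      · rw [m, h.tf.uw.lf j s hs]
        exact f2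
      · rw [m, ftT, ← (h.tf.nk_xx e).1]
        omega]
  · refine Set.disjoint_left.2 fun z hz m => ?_
    have u := hz.1.1
    rw [h.tf.uw.lf j s hs] at u
    rcases m with m | m | m
    exacts [u.2 (m ▸ kn), FZ.l_not_u' f1 (m ▸ u.1.1), FZ.l_not_u' f2 (m ▸ u.1.1)]

end

end Pool.Agent.P.MP_08fd93_co.FP2
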