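import Pool.Agent.P.MP_08fd93_co.FP2.TJ

/-! The boundary of a static cell of a frame with tails. -/

set_option autoImplicit false

namespace Pool.Agent.P.MP_08fd93_co.FP2

open OV FZ

variable {J : Type} {G : TD J} {j : ℤ} {s s' : Vx J}

open Classical in
/-- The order of the cell under the interval from `s` to `s'`. -/
noncomputable def TD.ord (G : TD J) (s s' : Vx J) (u : Vx J) : ℤ :=
  if u ∉ G.V then G.ρ u else if u = G.an s then G.ρ (G.xr (G.an s)) - 2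
  else if u = G.an s' then max (G.ρ (G.xr (G.an s))) (G.ρ (G.xl (G.an s'))) + 2
  else if u = G.nk s then G.ρ (G.xr (G.an s)) - 1 else G.ρ (G.xl (G.an s')) + 1

theorem tord_old {u : Vx J} (hu : u ∉ G.V) : G.ord s s' u = G.ρ u := if_pos hu

theorem tord_a (hv : G.an s ∈ G.V) : G.ord s s' (G.an s) = G.ρ (G.xr (G.an s)) - 2 := by
  rw [TD.ord, if_neg (not_not.2 hv), if_pos rfl]

theorem tord_b (hv : G.an s' ∈ G.V) (n : G.an s' ≠ G.an s) :
    G.ord s s' (G.an s') = max (G.ρ (G.xr (G.an s))) (G.ρ (G.xl (G.an s'))) + 2 := by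
  rw [TD.ord, if_neg (not_not.2 hv), if_neg n, if_pos rfl]

theorem tord_n (hv : G.nk s ∈ G.V) (n : G.nk s ≠ G.an s) (n' : G.nk s ≠ G.an s') :
    G.ord s s' (G.nk s) = G.ρ (G.xr (G.an s)) - 1 := by
  rw [TD.ord, if_neg (not_not.2 hv), if_neg n, if_neg n', if_pos rfl]

theorem tord_n' (hv : G.nk s' ∈ G.V) (n : G.nk s' ≠ G.an s) (n' : G.nk s' ≠ G.an s')
    (n'' : G.nk s' ≠ G.nk s) : G.ord s s' (G.nk s') = G.ρ (G.xl (G.an s')) + 1 := by
  rw [TD.ord, if_neg (not_not.2 hv), if_neg n, if_neg n', if_neg n'']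

/-- the bottom of a cell between two cuts through one neck -/
theorem tbt_pair (e : G.nk s = G.nk s') : G.Bt s s' = {G.an s, G.an s'} := by
  ext z
  exact ⟨fun k => k.imp_right fun k => k.resolve_right fun c => c.1 e,
    fun k => k.imp_right Or.inl⟩

theorem tbt_single (e : G.an s = G.an s') : G.Bt s s' = {G.an s} := by
  rw [tbt_pair (congrArg G.md e), ← e, Set.pair_eq_singleton]

theorem TFrm.nk_same (h : TFrm G) (e : G.nk s = G.nk s') : G.an s ∈ G.V ↔ G.an s' ∈ G.V := by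
  rw [← h.nk_v, e, h.nk_v]

/-- two cuts through one neck: equal parents, or one parent is the neck -/
theorem TFrm.nk_cases (h : TFrm G) (e : G.nk s = G.nk s') :
    G.an s = G.an s' ∨ (G.an s ∈ G.V ∧ (G.nk s = G.an s ∨ G.nk s = G.an s')) := by
  by_cases hv : G.an s ∈ G.V
  · rcases h.one _ hv _ ((h.nk_same e).1 hv) e with k | k | k
    exacts [Or.inl k, Or.inr ⟨hv, Or.inl k⟩, Or.inr ⟨hv, Or.inr (e.trans k)⟩]
  · exact Or.inl ((h.nk_o hv).symm.trans (e.trans (h.nk_o (mt (h.nk_same e).2 hv))))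

theorem TFrm.bt_v (h : TFrm G) {z : Vx J} (hz : z ∈ G.Bt s s') (hv : z ∈ G.V) :
    z ∈ G.Ct s ∨ z ∈ G.Ct s' := by
  rcases hz with k | k | ⟨-, k | k | k⟩
  exacts [Or.inl ⟨Or.inl k, hv⟩, Or.inr ⟨Or.inl k, hv⟩, Or.inl ⟨Or.inr k, hv⟩,
    Or.inr ⟨Or.inr k, hv⟩, absurd hv (h.l_nv k.1)]

section

variable (h : TFrm G) (hs : s ∈ G.L j) (ps : s ∈ G.Pr) (hs' : s' ∈ G.L j) (ps' : s' ∈ G.Pr)
include h hs ps hs' ps'

/-- the part of the bottom path on the line -/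
theorem TFrm.bt_line (l : G.ρ s ≤ G.ρ s') {z : Vx J} (hz : z ∈ G.Bt s s') (hk : z ∉ G.V) :
    z ∈ G.L (j - 1) ∧ G.ρ (G.xr (G.an s)) ≤ G.ρ z ∧ G.ρ z ≤ G.ρ (G.xl (G.an s')) := by
  have m := h.mono' hs ps hs' ps' l
  have k1 : G.an s ∉ G.V → G.an s ∈ G.L (j - 1) ∧ G.ρ (G.xr (G.an s)) ≤ G.ρ (G.an s) ∧
      G.ρ (G.an s) ≤ G.ρ (G.xl (G.an s')) := fun c => by
    rw [(h.xo _ c).1] at m
    exact ⟨h.an_l hs ps c, by rw [(h.xo _ c).2.1], m.1⟩
  have k2 : G.an s' ∉ G.V → G.an s' ∈ G.L (j - 1) ∧ G.ρ (G.xr (G.an s)) ≤ G.ρ (G.an s') ∧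
      G.ρ (G.an s') ≤ G.ρ (G.xl (G.an s')) := fun c => by
    rw [(h.xo _ c).2.1] at m
    exact ⟨h.an_l hs' ps' c, m.2, by rw [(h.xo _ c).1]⟩
  rcases hz with rfl | rfl | ⟨-, rfl | rfl | k⟩
  · exact k1 hk
  · exact k2 hk
  · rw [h.nk_o (mt h.nk_v.2 hk)]
    exact k1 (mt h.nk_v.2 hk)
  · rw [h.nk_o (mt h.nk_v.2 hk)]
    exact k2 (mt h.nk_v.2 hk)
  · exact ⟨h.uw.lf j s hs ▸ k.1, k.2⟩

theorem TFrm.bt_st {z : Vx J} (hz : z ∈ G.Bt s s') :
    (z ∈ G.V ∧ z ∈ G.St j) ∨ z ∈ G.L (j - 1) := by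
  by_cases c : z ∈ G.V
  · exact Or.inl ⟨c, (h.bt_v hz c).elim (h.ct_st hs ps ·) (h.ct_st hs' ps' ·)⟩
  · rcases hz with rfl | rfl | ⟨-, rfl | rfl | k⟩
    · exact Or.inr (h.an_l hs ps c)
    · exact Or.inr (h.an_l hs' ps' c)
    · rw [h.nk_o (mt h.nk_v.2 c)]
      exact Or.inr (h.an_l hs ps (mt h.nk_v.2 c))
    · rw [h.nk_o (mt h.nk_v.2 c)]
      exact Or.inr (h.an_l hs' ps' (mt h.nk_v.2 c))
    · exact Or.inr (h.uw.lf j s hs ▸ k.1)

theorem TFrm.bt_eq (l : G.ρ s ≤ G.ρ s') (e : G.nk s ≠ G.nk s') : G.Bt s s' = G.Ct s ∪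
    {z | z ∈ G.L (j - 1) ∧ G.ρ (G.xr (G.an s)) ≤ G.ρ z ∧ G.ρ z ≤ G.ρ (G.xl (G.an s'))} ∪
    G.Ct s' := by
  ext z
  constructor
  · intro hz
    by_cases c : z ∈ G.V
    · exact (h.bt_v hz c).imp_left Or.inl
    · exact Or.inl (Or.inr (h.bt_line hs ps hs' ps' l hz c))
  · rintro ((k | k) | k)
    exacts [TFrm.ct_bt e (Or.inl k),
      Or.inr (Or.inr ⟨e, Or.inr (Or.inr ⟨h.uw.lf j s hs ▸ k.1, k.2⟩)⟩), TFrm.ct_bt e (Or.inr k)]

omit hs ps hs' ps' in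
theorem TFrm.ord_lo (e : G.nk s ≠ G.nk s') {x : Vx J} (hx : x ∈ G.Ct s) :
    G.ord s s' x < G.ρ (G.xr (G.an s)) := by
  by_cases c : x = G.an s
  · rw [c, tord_a (c ▸ hx.2)]
    omega
  · obtain rfl : x = G.nk s := hx.1.resolve_left c
    rw [tord_n hx.2 c fun k => Set.disjoint_left.1 (h.ct_dis e) hx ⟨Or.inl k, hx.2⟩]
    omega

omit hs ps hs' ps' in
theorem TFrm.ord_hi (e : G.nk s ≠ G.nk s') {x : Vx J} (hx : x ∈ G.Ct s') :
    G.ρ (G.xl (G.an s')) < G.ord s s' x := by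
  have n : x ≠ G.an s := fun k => Set.disjoint_left.1 (h.ct_dis e) ⟨Or.inl k, hx.2⟩ hx
  by_cases c : x = G.an s'
  · rw [c, tord_b (c ▸ hx.2) (c ▸ n)]
    omega
  · obtain rfl : x = G.nk s' := hx.1.resolve_left c
    rw [tord_n' hx.2 n c e.symm]
    omega

/-- the bottom of a cell is an induced path -/
theorem TFrm.bt_pth (l : G.ρ s ≤ G.ρ s') :
    Pth G.Γ (G.Bt s s') (G.ord s s') (G.an s) (G.an s') := by
  by_cases e0 : G.an s = G.an s'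
  · rw [tbt_single e0, ← e0]
    exact Pth.single _ _
  by_cases e : G.nk s = G.nk s'
  · obtain ⟨hv, k⟩ := (h.nk_cases e).resolve_left e0
    have hv' := (h.nk_same e).1 hv
    rw [tbt_pair e]
    refine Pth.pair ?_ (by rw [tord_a hv, tord_b hv' (Ne.symm e0)]; omega)
    rcases k with k | k
    · have := (h.mv _ hv').2.2.2.resolve_left fun c => e0 (k.symm.trans (e.trans c))
      exact (k.symm.trans e : G.an s = G.md (G.an s')) ▸ this.symm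
    · exact (k : G.md (G.an s) = G.an s') ▸
        (h.mv _ hv).2.2.2.resolve_left fun c => e0 (c.symm.trans k)
  have hR := h.toRows
  have f1 := (h.feet hs ps).2.1
  have f2 := (h.feet hs' ps').1
  have m := (h.mono hs ps hs' ps' l).resolve_left e
  have dis := h.ct_dis e
  have P0 := (hR.seg_pth f1 f2 m).congr (ρ' := G.ord s s') fun x hx => tord_old (h.l_nv hx.1)
  rw [h.bt_eq hs ps hs' ps' l e]
  have P1 : Pth G.Γ (G.Ct s ∪ {z | z ∈ G.L (j - 1) ∧ G.ρ (G.xr (G.an s)) ≤ G.ρ z ∧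
      G.ρ z ≤ G.ρ (G.xl (G.an s'))}) (G.ord s s') (G.an s) (G.xl (G.an s')) := by
    by_cases c : G.an s ∈ G.V
    · refine (h.ctP c fun n => ?_).join P0 (Or.inr ⟨?_, (h.vr _ c).2⟩) fun x hx y hy a => Or.inl ?_
      · rw [tord_a c, tord_n (h.nk_v.2 c) n fun k =>
          Set.disjoint_left.1 dis (h.ct_nk c) ⟨Or.inl k, h.nk_v.2 c⟩]
        omega
      · rw [tord_old (h.l_nv f1)]
        exact h.ord_lo e (h.ct_nk c)
      · have := h.ct_low hs ps hx hy.1 a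
        exact ⟨this.1, hR.inj hy.1 f1 (le_antisymm this.2.2 hy.2.1)⟩
    · rw [h.ct_empty c, Set.empty_union]
      have e1 := (h.xo _ c).2.1
      rw [e1] at P0 ⊢
      exact P0
  by_cases c : G.an s' ∈ G.V
  · refine P1.join (h.ctP' c fun n => ?_) (Or.inr ⟨?_, (h.vl _ c).2.symm⟩) ?_
    · rw [tord_b c (Ne.symm e0), tord_n' (h.nk_v.2 c) (fun k =>
        Set.disjoint_left.1 dis ⟨Or.inl k, h.nk_v.2 c⟩ (h.ct_nk c)) n (Ne.symm e)]
      omega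
    · rw [tord_old (h.l_nv f2)]
      exact h.ord_hi e (h.ct_nk c)
    · rintro x (hx | hx) y hy a
      · exact absurd ((h.ct_md hx).symm.trans ((h.vn x hx.2 y hy.2 a).trans (h.ct_md hy))) e
      · have := h.ct_low hs' ps' hy hx.1 a.symm
        exact Or.inl ⟨hR.inj hx.1 f2 (le_antisymm hx.2.2 this.2.1), this.1⟩
  · rw [h.ct_empty c, Set.union_empty]
    have e1 := (h.xo _ c).1
    rw [e1] at P1 ⊢
    exact P1

/-- the attachments of the interior of a cell -/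
theorem TFrm.in_nb (hN : G.NoV s s') {v z : Vx J} (hv : v ∈ G.Im s s')
    (hz : z ∈ Nb G.Γ (G.Cp j v)) : z ∈ G.Cp j v ∨ z ∈ G.Bt s s' ∨ z ∈ G.Top s s' := by
  have fs := h.uw.lf j s hs
  rw [TD.Im, fs] at hv
  have := (h.memIn hs ps hs' ps' hN hv.1 hv.2).2
  rw [fs] at this
  obtain ⟨y, hy, e⟩ := id hz
  exact (this y z hy e.symm).imp_left fun k => comp_nb hv.1 hz k

theorem TFrm.in_adj (hN : G.NoV s s') {v z : Vx J} (hv : v ∈ G.Im s s') (e : G.Γ.Adj v z) :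
    z ∈ G.Im s s' ∨ z ∈ G.Bt s s' ∨ z ∈ G.Top s s' :=
  (h.in_nb hs ps hs' ps' hN hv (cp_adj e)).imp_left fun k => tcl_cp hv (h.uw.lf j s hs ▸ k)

/-- the lower neighbours of an inner vertex of the top -/
theorem TFrm.top_nb (hN : G.NoV s s') {x z : Vx J} (hx : x ∈ G.L j) (l1 : G.ρ s < G.ρ x)
    (l2 : G.ρ x < G.ρ s') (e : G.Γ.Adj x z) :
    (z ∈ G.L j ∨ z ∈ G.U (j + 1)) ∨ z ∈ G.Bt s s' ∨ z ∈ G.Im s s' := by
  obtain ⟨h0, h1, h2⟩ := h.cl_btw hs ps hs' ps' (Or.inr rfl) (Or.inl rfl)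
    (Or.inr (Or.inl ⟨hx, l1⟩)) (Or.inr (Or.inl ⟨hx, l2⟩)) e
  have xT : x ∈ G.Top s s' := ⟨(h.uw.lf j s hs).symm ▸ hx, l1.le, l2.le⟩
  have key : z ∈ G.L (j - 1) ∨ z ∈ G.L j ∨ (z ∈ G.V ∧ G.f z = j) →
      (z ∈ G.L j ∨ z ∈ G.U (j + 1)) ∨ z ∈ G.Bt s s' ∨ z ∈ G.Im s s' := fun k => by
    rcases h.mid hs ps hN k h1 h2 with c | c | ⟨c1, c2, rfl | rfl⟩
    · exact Or.inr (Or.inl c)
    · exact Or.inl (Or.inl (h.uw.lf j s hs ▸ c.1))
    · exact absurd e.symm (h.top_pure hs ps hs' ps' c1 c2 xT (h.feet hs ps).1)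
    · by_cases n : G.nk s = G.an s
      · exact Or.inr (Or.inl (Or.inl n))
      rcases h.nk_cases c1 with k | ⟨-, k | k⟩
      exacts [absurd e.symm (h.top_neck hs ps hs' ps' k c2 n xT), absurd k n,
        Or.inr (Or.inl (Or.inr (Or.inl k)))]
  rcases h.toRows.l_nb hx e with k | k | k
  · exact key (Or.inl k)
  · by_cases c : z ∈ G.V
    · exact key (Or.inr (Or.inr ⟨c, st_lev h.toRows (h.vst z c) k⟩))
    · refine Or.inr (Or.inr ?_)
      rw [TD.Im, h.uw.lf j s hs]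
      exact h0 ⟨k, c⟩
  · exact Or.inl k

/-- the upper neighbours of an inner vertex of the bottom interval -/
theorem TFrm.bot_nb (hN : G.NoV s s') {x z : Vx J} (hx : x ∈ G.L (j - 1))
    (l1 : G.ρ (G.xr (G.an s)) < G.ρ x) (l2 : G.ρ x < G.ρ (G.xl (G.an s'))) (e : G.Γ.Adj x z)
    (hz : z ∈ G.U j) : z ∉ G.V ∧ (z ∈ G.Im s s' ∨ z ∈ G.Top s s') := by
  obtain ⟨h0, h1, h2⟩ := h.cl_btw hs ps hs' ps' (Or.inr rfl) (Or.inl rfl)
    (Or.inl ⟨hx, l1⟩) (Or.inl ⟨hx, l2⟩) e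
  have a0 := (h.feet hs ps).2.2
  have nU : z ∉ G.U (j + 1) := fun k => by
    rcases h.toRows.u_nb k e.symm with c | c
    exacts [l_not_u' hx (h.toRows.l_u c), l_not_u' hx (h.uw.mono _ _ (by omega) c)]
  have st : z ∉ G.L j → z ∈ G.St j := fun k => ⟨hz, fun c => c.elim k nU⟩
  have nK : z ∉ G.V := by
    intro k
    rcases h.mid hs ps hN (Or.inr (Or.inr ⟨k, st_lev h.toRows (h.vst z k)
      (st fun c => h.l_nv c k)⟩)) h1 h2 with c | c | c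
    · rcases h.bt_v c k with c | c
      · have := (h.ct_low hs ps c hx e.symm).2
        omega
      · have := (h.ct_low hs' ps' c hx e.symm).2
        omega
    · exact h.l_nv c.1 k
    · rw [← (h.x_eq c.1).1] at l2
      omega
  refine ⟨nK, ?_⟩
  by_cases c : z ∈ G.L j
  · exact Or.inr ⟨h.uw.lf j s hs ▸ c, not_lt.1 fun k => h1 (Or.inr (Or.inl ⟨c, k⟩)),
      not_lt.1 fun k => h2 (Or.inr (Or.inl ⟨c, k⟩))⟩
  · refine Or.inl ?_
    rw [TD.Im, h.uw.lf j s hs]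
    exact h0 ⟨st c, nK⟩

/-- the sides of a cell miss its boundary -/
theorem TFrm.side_out (l : G.ρ s ≤ G.ρ s') {z : Vx J}
    (hz : G.Lf j (G.xr (G.an s)) s z ∨ G.Rg j (G.xl (G.an s')) s' z) :
    z ∉ G.Bt s s' ∧ z ∉ G.Top s s' := by
  have hR := h.toRows
  have fs := h.uw.lf j s hs
  have nT : ∀ {p t}, G.Lf j p t z ∨ G.Rg j p t z → z ∉ G.Ct t := by
    rintro p t ((a | a | a) | a | a | a) k
    exacts [h.l_nv a.1 k.2, h.l_nv a.1 k.2, a.2.2.1 k, h.l_nv a.1 k.2, h.l_nv a.1 k.2, a.2.2.1 k]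
  have n1 : z ∉ G.Ct s :=
    hz.elim (fun k => nT (Or.inl k)) fun k => nT (Or.inr (h.rg_mono hs ps hs' ps' l le_rfl k))
  have n2 : z ∉ G.Ct s' :=
    hz.elim (fun k => nT (Or.inl (h.lf_mono hs ps hs' ps' l le_rfl k))) fun k => nT (Or.inr k)
  constructor
  · intro k
    have nV : z ∉ G.V := fun c => (h.bt_v k c).elim n1 n2
    have := h.bt_line hs ps hs' ps' l k nV
    rcases hz with (a | a | a) | a | a | a
    exacts [by omega, l_not_u' this.1 (hR.l_u a.1), nV a.1, by omega,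
      l_not_u' this.1 (hR.l_u a.1), nV a.1]
  · rintro ⟨k, b1, b2⟩
    rw [fs] at k
    rcases hz with (a | a | a) | a | a | a
    exacts [l_not_u' a.1 (hR.l_u k), by omega, h.l_nv k a.1, l_not_u' a.1 (hR.l_u k), by omega,
      h.l_nv k a.1]

theorem TFrm.in_fin (l : G.ρ s ≤ G.ρ s') (hN : G.NoV s s') : (G.Im s s').Finite := by
  refine fin_of_bd h.wp.fine.oe (((h.bt_pth hs ps hs' ps' l).fin.union
    (h.toRows.seg_fin (G.f s) (G.ρ s) (G.ρ s'))).subset ?_) (h.uw.u_inf (G.f s + 1))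
    (Set.disjoint_left.2 fun v hv k => hv.1.1.2 (Or.inr k))
  rintro z ⟨⟨v, hv, e⟩, hz⟩
  exact (h.in_adj hs ps hs' ps' hN hv e.symm).resolve_left hz

end

end Pool.Agent.P.MP_08fd93_co.FP2
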