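import Pool.Agent.P.MP_08fd93_co.FZ.Brg
import Pool.Agent.P.MP_08fd93_co.OV.PkBri

/-! Frames with tails: a level vertex may be joined to the lower line by a path with one or two
inner vertices. -/

set_option autoImplicit false

namespace Pool.Agent.P.MP_08fd93_co.FP2

open OV FZ

/-- Data of a frame with static strip vertices `V`; `md v` is the neck of `v`, `xl v` and `xr v`
are the extreme lower neighbours of the neck, `ch v` is a level vertex whose cut passes `v`. -/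
structure TD (J : Type) extends FD J where
  Pr : Set (Vx J)
  V : Set (Vx J)
  md : Vx J → Vx J
  xl : Vx J → Vx J
  xr : Vx J → Vx J
  ch : Vx J → Vx J

variable {J : Type}

/-- The inner vertices of the cut at `s`. -/
def TD.Ct (G : TD J) (s : Vx J) : Set (Vx J) := {G.an s, G.md (G.an s)} ∩ G.V

/-- A frame with tails. -/
structure TFrm (G : TD J) : Prop extends Rows G.toFD where
  atr : ∀ a x, G.an (tr a x) = tr a (G.an x)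
  ptr : ∀ a, ∀ x ∈ G.Pr, tr a x ∈ G.Pr
  vtr : ∀ a, ∀ v ∈ G.V, tr a v ∈ G.V
  xtr : ∀ a x, G.xl (tr a x) = tr a (G.xl x) ∧ G.xr (tr a x) = tr a (G.xr x) ∧
    G.ch (tr a x) = tr a (G.ch x) ∧ G.md (tr a x) = tr a (G.md x)
  vst : ∀ v ∈ G.V, v ∈ G.St (G.f v)
  mv : ∀ v ∈ G.V, G.md v ∈ G.V ∧ G.f (G.md v) = G.f v ∧ G.md (G.md v) = G.md v ∧
    (G.md v = v ∨ G.Γ.Adj v (G.md v))
  vn : ∀ v ∈ G.V, ∀ v' ∈ G.V, G.Γ.Adj v v' → G.md v = G.md v'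
  one : ∀ v ∈ G.V, ∀ v' ∈ G.V, G.md v = G.md v' → v = v' ∨ G.md v = v ∨ G.md v' = v'
  xo : ∀ p, p ∉ G.V → G.xl p = p ∧ G.xr p = p ∧ G.md p = p
  xm : ∀ v ∈ G.V, G.xl (G.md v) = G.xl v ∧ G.xr (G.md v) = G.xr v
  vl : ∀ v ∈ G.V, G.xl v ∈ G.L (G.f v - 1) ∧ G.Γ.Adj (G.md v) (G.xl v)
  vr : ∀ v ∈ G.V, G.xr v ∈ G.L (G.f v - 1) ∧ G.Γ.Adj (G.md v) (G.xr v)
  vx : ∀ v ∈ G.V, ∀ z ∈ G.L (G.f v - 1), G.Γ.Adj v z →
    G.md v = v ∧ G.ρ (G.xl v) ≤ G.ρ z ∧ G.ρ z ≤ G.ρ (G.xr v)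
  vc : ∀ v ∈ G.V, G.ch v ∈ G.L (G.f v) ∧ G.ch v ∈ G.Pr ∧ v ∈ G.Ct (G.ch v)
  aa : ∀ j, ∀ x ∈ G.L j, x ∈ G.Pr → G.Γ.Adj x (G.an x) ∧
    (G.an x ∈ G.L (j - 1) ∨ (G.an x ∈ G.V ∧ G.f (G.an x) = j))
  pure : ∀ j, ∀ x ∈ G.L j, x ∈ G.Pr → G.an x ∈ G.V → (∀ z ∈ G.L (j - 1), ¬ G.Γ.Adj x z) ∧
    (G.Γ.Adj x (G.md (G.an x)) → G.md (G.an x) = G.an x)
  pne : ∀ j, ∃ x ∈ G.L j, x ∈ G.Pr

/-- The last vertex of the cut at `s` before the feet (the foot itself for a rung). -/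
def TD.nk (G : TD J) (s : Vx J) : Vx J := G.md (G.an s)

/-- The strip without the static vertices. -/
def TD.S (G : TD J) (j : ℤ) : Set (Vx J) := G.St j \ G.V

/-- The bottom path of the cell under the interval from `s` to `s'`. -/
def TD.Bt (G : TD J) (s s' : Vx J) : Set (Vx J) :=
  {z | z = G.an s ∨ z = G.an s' ∨ (G.nk s ≠ G.nk s' ∧ (z = G.nk s ∨ z = G.nk s' ∨
    (z ∈ G.L (G.f s - 1) ∧ G.ρ (G.xr (G.an s)) ≤ G.ρ z ∧ G.ρ z ≤ G.ρ (G.xl (G.an s')))))}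

/-- The part of the strip under the interval from `s` to `s'`. -/
def TD.In (G : TD J) (s s' : Vx J) : Set (Vx J) :=
  {v | v ∈ G.S (G.f s) ∧ ∀ y z, Conn G.Γ (G.S (G.f s)) v y → G.Γ.Adj y z →
    z ∈ G.S (G.f s) ∨ z ∈ G.Bt s s' ∨ z ∈ G.Top s s'}

/-- The part of the strip under the neck `v`. -/
def TD.Uv (G : TD J) (v : Vx J) : Set (Vx J) :=
  {u | u ∈ G.S (G.f v) ∧ ∀ y z, Conn G.Γ (G.S (G.f v)) u y → G.Γ.Adj y z →
    z ∈ G.S (G.f v) ∨ z = v ∨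
      (z ∈ G.L (G.f v - 1) ∧ G.ρ (G.xl v) ≤ G.ρ z ∧ G.ρ z ≤ G.ρ (G.xr v))}

/-- No static vertex lies inside the cell under the interval from `s` to `s'`. -/
def TD.NoV (G : TD J) (s s' : Vx J) : Prop :=
  ∀ v ∈ G.V, G.ch v ∈ G.Top s s' → v ∈ G.Ct s ∨ v ∈ G.Ct s'

/-- Left of the cut from `p` to `s`. -/
def TD.Lf (G : TD J) (j : ℤ) (p s u : Vx J) : Prop :=
  (u ∈ G.L (j - 1) ∧ G.ρ u < G.ρ p) ∨ (u ∈ G.L j ∧ G.ρ u < G.ρ s) ∨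
    (u ∈ G.V ∧ G.f u = j ∧ u ∉ G.Ct s ∧ G.ρ (G.ch u) < G.ρ s)

/-- Right of the cut from `p` to `s`. -/
def TD.Rg (G : TD J) (j : ℤ) (p s u : Vx J) : Prop :=
  (u ∈ G.L (j - 1) ∧ G.ρ p < G.ρ u) ∨ (u ∈ G.L j ∧ G.ρ s < G.ρ u) ∨
    (u ∈ G.V ∧ G.f u = j ∧ u ∉ G.Ct s ∧ G.ρ s < G.ρ (G.ch u))

variable {G : TD J} {j : ℤ} {s t : Vx J}

theorem st_lev {F : FD J} (h : Rows F) {i j : ℤ} {x : Vx J} (h1 : x ∈ F.St i)
    (h2 : x ∈ F.St j) : i = j := by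
  by_contra hne
  rcases lt_or_gt_of_ne hne with l | l
  exacts [h1.2 (Or.inr (h.uw.mono _ _ (by omega) h2.1)),
    h2.2 (Or.inr (h.uw.mono _ _ (by omega) h1.1))]

theorem TFrm.v_st (h : TFrm G) {v : Vx J} (hv : v ∈ G.V) (e : G.f v = j) : v ∈ G.St j :=
  e ▸ h.vst v hv

theorem TFrm.l_nv (h : TFrm G) {x : Vx J} (hx : x ∈ G.L j) : x ∉ G.V := fun hv =>
  (h.v_st hv (h.uw.lf j x hx)).2 (Or.inl hx)

theorem TFrm.an_f (h : TFrm G) (hs : s ∈ G.L j) (ps : s ∈ G.Pr) (hv : G.an s ∈ G.V) :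
    G.f (G.an s) = j :=
  ((h.aa j s hs ps).2.resolve_left fun k => h.l_nv k hv).2

theorem TFrm.an_l (h : TFrm G) (hs : s ∈ G.L j) (ps : s ∈ G.Pr) (hv : G.an s ∉ G.V) :
    G.an s ∈ G.L (j - 1) := (h.aa j s hs ps).2.resolve_right fun k => hv k.1

theorem TFrm.mm (h : TFrm G) (x : Vx J) : G.md (G.md x) = G.md x := by
  by_cases hv : x ∈ G.V
  · exact (h.mv x hv).2.2.1
  · rw [(h.xo x hv).2.2, (h.xo x hv).2.2]

theorem TFrm.md_v (h : TFrm G) {x : Vx J} : G.md x ∈ G.V ↔ x ∈ G.V :=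
  ⟨fun k => by_contra fun hv => hv ((h.xo x hv).2.2 ▸ k), fun k => (h.mv x k).1⟩

theorem TFrm.nk_o (h : TFrm G) (hv : G.an s ∉ G.V) : G.nk s = G.an s := (h.xo _ hv).2.2

theorem TFrm.nk_v (h : TFrm G) : G.nk s ∈ G.V ↔ G.an s ∈ G.V := h.md_v

theorem TFrm.nk_f (h : TFrm G) (hs : s ∈ G.L j) (ps : s ∈ G.Pr) (hv : G.an s ∈ G.V) :
    G.f (G.nk s) = j := (h.mv _ hv).2.1.trans (h.an_f hs ps hv)

theorem TFrm.x_eq (h : TFrm G) {x y : Vx J} (e : G.md x = G.md y) :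
    G.xl x = G.xl y ∧ G.xr x = G.xr y := by
  have k : ∀ x, G.xl (G.md x) = G.xl x ∧ G.xr (G.md x) = G.xr x := fun x => by
    by_cases hv : x ∈ G.V
    · exact h.xm x hv
    · rw [(h.xo x hv).2.2]
      exact ⟨rfl, rfl⟩
  rw [← (k x).1, ← (k x).2, ← (k y).1, ← (k y).2, e]
  exact ⟨rfl, rfl⟩

theorem ct_an (hv : G.an s ∈ G.V) : G.an s ∈ G.Ct s := ⟨Or.inl rfl, hv⟩

theorem TFrm.ct_nk (h : TFrm G) (hv : G.an s ∈ G.V) : G.nk s ∈ G.Ct s :=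
  ⟨Or.inr rfl, h.nk_v.2 hv⟩

theorem TFrm.ct_v (h : TFrm G) {x : Vx J} (hx : x ∈ G.Ct s) : G.an s ∈ G.V := by
  obtain ⟨rfl | rfl, k⟩ := hx
  exacts [k, h.md_v.1 k]

theorem TFrm.ct_md (h : TFrm G) {x : Vx J} (hx : x ∈ G.Ct s) : G.md x = G.nk s := by
  obtain ⟨rfl | rfl, -⟩ := hx
  exacts [rfl, h.mm _]

theorem ct_fin (s : Vx J) : (G.Ct s).Finite := (Set.toFinite _).inter_of_left _

theorem TFrm.ct_f (h : TFrm G) (hs : s ∈ G.L j) (ps : s ∈ G.Pr) {x : Vx J} (hx : x ∈ G.Ct s) :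
    G.f x = j := by
  have hv := h.ct_v hx
  obtain ⟨rfl | rfl, -⟩ := hx
  exacts [h.an_f hs ps hv, h.nk_f hs ps hv]

theorem TFrm.ct_st (h : TFrm G) (hs : s ∈ G.L j) (ps : s ∈ G.Pr) : G.Ct s ⊆ G.St j :=
  fun _ hx => h.v_st hx.2 (h.ct_f hs ps hx)

theorem TFrm.pair_conn (h : TFrm G) {v : Vx J} (hv : v ∈ G.V) : IsConn G.Γ {v, G.md v} := by
  rcases (h.mv v hv).2.2.2 with e | e
  · rw [e, Set.pair_eq_singleton]
    exact isConn_single v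
  · exact (isConn_single v).union (isConn_single _) ⟨v, rfl, _, rfl, e⟩

theorem TFrm.ct_conn (h : TFrm G) (s : Vx J) : IsConn G.Γ (G.Ct s) := by
  by_cases hv : G.an s ∈ G.V
  · have : G.Ct s = {G.an s, G.md (G.an s)} := Set.inter_eq_left.2 (by
      rintro _ (rfl | rfl)
      exacts [hv, (h.mv _ hv).1])
    rw [this]
    exact h.pair_conn hv
  · have : G.Ct s = ∅ := Set.eq_empty_of_forall_notMem fun x hx => hv (h.ct_v hx)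
    rw [this]
    exact isConn_empty

/-- cuts with different necks are disjoint -/
theorem TFrm.ct_dis (h : TFrm G) (n : G.nk s ≠ G.nk t) : Disjoint (G.Ct s) (G.Ct t) :=
  Set.disjoint_left.2 fun _ a b => n ((h.ct_md a).symm.trans (h.ct_md b))

/-- a static vertex other than a neck is the parent of its child -/
theorem TFrm.an_ch (h : TFrm G) {v : Vx J} (hv : v ∈ G.V) (n : G.md v ≠ v) :
    G.an (G.ch v) = v :=
  ((h.vc v hv).2.2.1.resolve_right fun e => n ((h.ct_md (h.vc v hv).2.2).trans e.symm)).symm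

/-- a static vertex sees one of the two lines -/
theorem TFrm.v_row (h : TFrm G) {v : Vx J} (hv : v ∈ G.V) (e : G.f v = j) :
    ∃ z, (z ∈ G.L (j - 1) ∨ z ∈ G.L j) ∧ G.Γ.Adj v z := by
  subst e
  by_cases n : G.md v = v
  · exact ⟨_, Or.inl (h.vl v hv).1, by have := (h.vl v hv).2; rwa [n] at this⟩
  · have := (h.aa _ _ (h.vc v hv).1 (h.vc v hv).2.1).1
    rw [h.an_ch hv n] at this
    exact ⟨_, Or.inr (h.vc v hv).1, this.symm⟩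

/-- the feet of the cut at `s` -/
theorem TFrm.feet (h : TFrm G) (hs : s ∈ G.L j) (ps : s ∈ G.Pr) :
    G.xl (G.an s) ∈ G.L (j - 1) ∧ G.xr (G.an s) ∈ G.L (j - 1) ∧
      G.ρ (G.xl (G.an s)) ≤ G.ρ (G.xr (G.an s)) := by
  by_cases hv : G.an s ∈ G.V
  · have e := h.an_f hs ps hv
    have m := h.mv _ hv
    have := (h.vx _ m.1 _ (m.2.1 ▸ (h.vl _ hv).1) (h.vl _ hv).2).2.2
    rw [(h.xm _ hv).2] at this
    exact ⟨e ▸ (h.vl _ hv).1, e ▸ (h.vr _ hv).1, this⟩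
  · rw [(h.xo _ hv).1, (h.xo _ hv).2.1]
    exact ⟨h.an_l hs ps hv, h.an_l hs ps hv, le_rfl⟩

theorem TFrm.ct_top (h : TFrm G) (hs : s ∈ G.L j) (ps : s ∈ G.Pr) (hv : G.an s ∈ G.V) :
    s ∈ Nb G.Γ (G.Ct s) := ⟨_, ct_an hv, (h.aa j s hs ps).1⟩

theorem TFrm.ct_l (h : TFrm G) (hv : G.an s ∈ G.V) : G.xl (G.an s) ∈ Nb G.Γ (G.Ct s) :=
  ⟨_, h.ct_nk hv, (h.vl _ hv).2.symm⟩

theorem TFrm.ct_r (h : TFrm G) (hv : G.an s ∈ G.V) : G.xr (G.an s) ∈ Nb G.Γ (G.Ct s) :=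
  ⟨_, h.ct_nk hv, (h.vr _ hv).2.symm⟩

/-- the cut at `s` is a bridge -/
theorem TFrm.brg (h : TFrm G) (hs : s ∈ G.L j) (ps : s ∈ G.Pr) {p : Vx J}
    (hp : p = G.xl (G.an s) ∨ p = G.xr (G.an s)) : Brg G.toFD j p s (G.Ct s) := by
  have hf := h.feet hs ps
  have hL : p ∈ G.L (j - 1) := by rcases hp with rfl | rfl; exacts [hf.1, hf.2.1]
  by_cases hv : G.an s ∈ G.V
  · refine Brg.of hL hs (h.ct_st hs ps) (ct_fin s) (h.ct_conn s) ?_ (h.ct_top hs ps hv)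
    rcases hp with rfl | rfl
    exacts [h.ct_l hv, h.ct_r hv]
  · rw [show G.Ct s = ∅ from Set.eq_empty_of_forall_notMem fun x hx => hv (h.ct_v hx)]
    refine Brg.rung hL hs ?_
    have : p = G.an s := by rcases hp with rfl | rfl; exacts [(h.xo _ hv).1, (h.xo _ hv).2.1]
    exact this ▸ (h.aa j s hs ps).1.symm

/-- the way from a static vertex off the cut at `s` up to its child -/
theorem TFrm.way (h : TFrm G) {x : Vx J} (hx : x ∈ G.V) (fx : G.f x = j) (n : x ∉ G.Ct s) :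
    ∃ A : Set (Vx J), A ⊆ G.St j ∧ A.Finite ∧ Disjoint A (G.Ct s) ∧ x ∈ A ∧ IsConn G.Γ A ∧
      G.ch x ∈ Nb G.Γ A := by
  obtain ⟨c1, c2, c3⟩ := h.vc x hx
  rw [fx] at c1
  by_cases m : G.md x = x
  · refine ⟨_, h.ct_st c1 c2, ct_fin _, h.ct_dis fun e => n ?_, c3, h.ct_conn _,
      h.ct_top c1 c2 (h.ct_v c3)⟩
    exact ⟨Or.inr (m.symm.trans ((h.ct_md c3).trans e)), hx⟩
  · refine ⟨{x}, by rintro _ rfl; exact h.v_st hx fx, Set.finite_singleton x,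
      Set.disjoint_singleton_left.2 n, rfl, isConn_single x, x, rfl, ?_⟩
    have := (h.aa j _ c1 c2).1
    rwa [h.an_ch hx m] at this

/-- nothing crosses a cut -/
theorem TFrm.ncv (h : TFrm G) {p : Vx J} (hb : Brg G.toFD j p s (G.Ct s))
    {E : Set (Vx J)} (hE : E ⊆ G.S j) (fE : E.Finite) (cE : IsConn G.Γ E) {x y : Vx J}
    (hx : G.Lf j p s x) (hy : G.Rg j p s y) :
    ¬ G.Γ.Adj x y ∧ ¬ (x ∈ Nb G.Γ E ∧ y ∈ Nb G.Γ E) := by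
  have hR := h.toRows
  obtain ⟨x', A, hx', a1, a2, a3, rx⟩ : ∃ x' A, ((x' ∈ G.L (j - 1) ∧ G.ρ x' < G.ρ p) ∨
      (x' ∈ G.L j ∧ G.ρ x' < G.ρ s)) ∧ A ⊆ G.St j ∧ A.Finite ∧ Disjoint A (G.Ct s) ∧
      ((x' = x ∧ A = ∅) ∨ (x ∈ A ∧ IsConn G.Γ A ∧ x' ∈ Nb G.Γ A)) := by
    rcases hx with a | a | a
    · exact ⟨x, ∅, Or.inl a, Set.empty_subset _, Set.finite_empty, Set.empty_disjoint _,
        Or.inl ⟨rfl, rfl⟩⟩
    · exact ⟨x, ∅, Or.inr a, Set.empty_subset _, Set.finite_empty, Set.empty_disjoint _,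
        Or.inl ⟨rfl, rfl⟩⟩
    · obtain ⟨A, b1, b2, b3, b4⟩ := h.way a.1 a.2.1 a.2.2.1
      exact ⟨_, A, Or.inr ⟨a.2.1 ▸ (h.vc x a.1).1, a.2.2.2⟩, b1, b2, b3, Or.inr b4⟩
  obtain ⟨y', B, hy', b1, b2, b3, ry⟩ : ∃ y' B, ((y' ∈ G.L (j - 1) ∧ G.ρ p < G.ρ y') ∨
      (y' ∈ G.L j ∧ G.ρ s < G.ρ y')) ∧ B ⊆ G.St j ∧ B.Finite ∧ Disjoint B (G.Ct s) ∧
      ((y' = y ∧ B = ∅) ∨ (y ∈ B ∧ IsConn G.Γ B ∧ y' ∈ Nb G.Γ B)) := by
    rcases hy with a | a | a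
    · exact ⟨y, ∅, Or.inl a, Set.empty_subset _, Set.finite_empty, Set.empty_disjoint _,
        Or.inl ⟨rfl, rfl⟩⟩
    · exact ⟨y, ∅, Or.inr a, Set.empty_subset _, Set.finite_empty, Set.empty_disjoint _,
        Or.inl ⟨rfl, rfl⟩⟩
    · obtain ⟨A, b1, b2, b3, b4⟩ := h.way a.1 a.2.1 a.2.2.1
      exact ⟨_, A, Or.inr ⟨a.2.1 ▸ (h.vc y a.1).1, a.2.2.2⟩, b1, b2, b3, Or.inr b4⟩
  have up : ∀ {z : Vx J} {C D : Set (Vx J)}, C ⊆ D → z ∈ Nb G.Γ C → z ∈ Nb G.Γ D :=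
    fun s ⟨w, hw, e⟩ => ⟨w, s hw, e⟩
  constructor
  · intro e
    rcases rx with ⟨rfl, -⟩ | rx <;> rcases ry with ⟨rfl, -⟩ | ry
    · exact (hb.nc hR (Set.empty_subset _) Set.finite_empty isConn_empty (Set.empty_disjoint _)
        hx' hy').1 e
    · exact (hb.nc hR b1 b2 ry.2.1 b3 hx' hy').2 ⟨⟨y, ry.1, e⟩, ry.2.2⟩
    · exact (hb.nc hR a1 a2 rx.2.1 a3 hx' hy').2 ⟨rx.2.2, ⟨x, rx.1, e.symm⟩⟩
    · exact (hb.nc hR (Set.union_subset a1 b1) (a2.union b2)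
        (rx.2.1.union ry.2.1 ⟨x, rx.1, y, ry.1, e⟩) (Set.disjoint_union_left.2 ⟨a3, b3⟩) hx' hy').2
        ⟨up Set.subset_union_left rx.2.2, up Set.subset_union_right ry.2.2⟩
  · rintro ⟨nx, ny⟩
    have dE : Disjoint E (G.Ct s) := Set.disjoint_left.2 fun z hz k => (hE hz).2 k.2
    have c1 : IsConn G.Γ (E ∪ A) ∧ x' ∈ Nb G.Γ (E ∪ A) := by
      rcases rx with ⟨rfl, rfl⟩ | rx
      · rw [Set.union_empty]
        exact ⟨cE, nx⟩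
      · obtain ⟨w, hw, e⟩ := nx
        exact ⟨cE.union rx.2.1 ⟨w, hw, x, rx.1, e.symm⟩, up Set.subset_union_right rx.2.2⟩
    have c2 : IsConn G.Γ (E ∪ A ∪ B) ∧ y' ∈ Nb G.Γ (E ∪ A ∪ B) := by
      rcases ry with ⟨rfl, rfl⟩ | ry
      · rw [Set.union_empty]
        exact ⟨c1.1, up Set.subset_union_left ny⟩
      · obtain ⟨w, hw, e⟩ := ny
        exact ⟨c1.1.union ry.2.1 ⟨w, Or.inl hw, y, ry.1, e.symm⟩, up Set.subset_union_right ry.2.2⟩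
    exact (hb.nc hR (Set.union_subset (Set.union_subset (fun z hz => (hE hz).1) a1) b1)
      ((fE.union a2).union b2) c2.1
      (Set.disjoint_union_left.2 ⟨Set.disjoint_union_left.2 ⟨dE, a3⟩, b3⟩) hx' hy').2
      ⟨up Set.subset_union_left c1.2, c2.2⟩

/-- the neighbours of a vertex of the strip -/
theorem TFrm.att (h : TFrm G) {y z : Vx J} (hy : y ∈ G.St j) (a : G.Γ.Adj y z) :
    z ∈ G.S j ∨ z ∈ G.L (j - 1) ∨ z ∈ G.L j ∨ (z ∈ G.V ∧ G.f z = j) := by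
  rcases h.toRows.att hy a with k | k | k
  · by_cases hv : z ∈ G.V
    exacts [Or.inr (Or.inr (Or.inr ⟨hv, st_lev h.toRows (h.vst z hv) k⟩)), Or.inl ⟨k, hv⟩]
  · exact Or.inr (Or.inl k)
  · exact Or.inr (Or.inr (Or.inl k))

/-- connected parts of a strip without studs are finite -/
theorem TFrm.sfin (h : TFrm G) {E : Set (Vx J)} (hE : E ⊆ G.S j) (hEc : IsConn G.Γ E) :
    E.Finite := by
  by_contra hinf
  have hF := h.toRows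
  have hP := h.wp
  have hU := h.uw
  obtain ⟨q0, hq0, pq0⟩ := h.pne j
  have hb := h.brg hq0 pq0 (Or.inl rfl)
  set p0 := G.xl (G.an q0)
  set T : Set (Vx J) := G.Ct q0
  obtain ⟨M, hM0, hM⟩ := hU.big
  obtain ⟨F0, hF0, hband⟩ := hU.band j (j + 1 + M)
  have hk : ∀ x : Vx J, ∃ k : ℤ, x ∈ G.S j → tr (k • G.w) x ∈ F0 := by
    intro x
    by_cases hx : x ∈ G.S j
    · obtain ⟨k, hk⟩ := hband x (hU.ge j x hx.1.1) (by
        by_contra h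
        exact hx.1.2 (Or.inr (hM (j + 1) x (by omega))))
      exact ⟨k, fun _ => hk⟩
    · exact ⟨0, fun h => absurd h hx⟩
  choose k hk using hk
  obtain ⟨x, hx, x', hx', hne, heq⟩ := Set.Infinite.exists_ne_map_eq_of_mapsTo
    (f := fun x => tr (k x • G.w) x) hinf (fun x hx => hk x (hE hx)) hF0
  set g : ℤ × ℤ := (k x - k x') • G.w with hg
  have hgx : tr g x = x' := by
    have h1 : tr (k x • G.w) x = tr (k x' • G.w) x' := heq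
    have h2 := congrArg (tr (-(k x' • G.w))) h1
    rw [tr_neg, tr_tr] at h2
    rw [← h2, hg, sub_smul, sub_eq_add_neg]
  have hg0 : g ≠ 0 := by
    intro h
    rw [h, tr_zero] at hgx
    exact hne hgx
  have hη : G.η g = 0 := hP.eta_w _
  have hηn : G.η (-g) = 0 := by rw [map_neg, hη, neg_zero]
  have hS : ∀ c, G.η c = 0 → ∀ y ∈ G.S j, tr c y ∈ G.S j := fun c hc y hy =>
    ⟨(hF.utr0 hc j y).2.2.2 hy.1, fun k => hy.2 (by simpa only [tr_neg] using h.vtr (-c) _ k)⟩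
  set K : Set (Vx J) := {y | Conn G.Γ (G.S j) x y} with hK
  have hKs : K ⊆ G.S j := fun y hy => Conn.mem hy (hE hx)
  have hKc : IsConn G.Γ K := isConn_comp _ _
  have hxx' : Conn G.Γ (G.S j) x x' := (hEc x hx x' hx').up hE
  have hKp : ∀ y, tr g y ∈ K ↔ y ∈ K := by
    intro y
    constructor
    · intro hy
      have h1 := hP.fine.conn_tr (-g) (hS _ hηn) (hxx'.symm.trans hy)
      rw [← hgx, tr_neg, tr_neg] at h1
      exact h1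
    · intro hy
      have h1 := hP.fine.conn_tr g (hS _ hη) hy
      rw [hgx] at h1
      exact hxx'.trans h1
  have hB : ∀ y, tr g y ∈ BL G.Γ G.f (j - 1) ↔ y ∈ BL G.Γ G.f (j - 1) := by
    intro y
    have := hF.bl_tr g (j - 1) y
    rwa [hη, add_zero] at this
  have up : ∀ v ∈ G.U (j + 1), v ∈ G.U j := fun v hv => hU.mono _ _ (by omega) hv
  have main : ∀ {p q : Vx J} {T : Set (Vx J)}, Brg G.toFD j p q T → T ⊆ G.V →
      ∀ (a b c d : ℤ), a ≤ G.ρ p → G.ρ p ≤ b → c ≤ G.ρ q → G.ρ q ≤ d →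
      ¬ Touch G.Γ (Zn G.toFD j (fun i => a ≤ i ∧ i ≤ b) (fun i => c ≤ i ∧ i ≤ d) T) K := by
    intro p q T hb hT a b c d l1 l2 l3 l4 t
    have o := zn_out hF (P := fun i => a ≤ i ∧ i ≤ b) (Q := fun i => c ≤ i ∧ i ≤ d) hb.sub
    obtain ⟨b1, hb1, e1⟩ := hF.tch _ hb.hp
    obtain ⟨b2, hb2, e2⟩ := hb.hq.1
    refine pk_Bri J G.Γ hP.fine g hg0 K (G.U (j + 1)) (BL G.Γ G.f (j - 1)) _ hKc (hU.conn _)
      (hF.blc _) (Set.disjoint_left.2 fun v hv hv' => (hKs hv).1.2 (Or.inr hv'))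
      (Set.disjoint_left.2 fun v hv => u_not_bl (hKs hv).1.1)
      (Set.disjoint_left.2 fun v hv => u_not_bl (up v hv)) hKp (fun v => (hF.utr0 hη _ v).1) hB
      ?_ (zn_conn hF hb (fun _ _ _ _ _ _ _ => by omega) (fun _ _ _ _ _ _ _ => by omega) ⟨l1, l2⟩
        ⟨l3, l4⟩) (Set.disjoint_left.2 ?_) (o.mono_left Set.subset_union_right).symm
      (o.mono_left Set.subset_union_left).symm t
      ⟨q, Or.inr (Or.inl ⟨hb.hq, l3, l4⟩), b2, hb2, e2⟩ ⟨p, Or.inl ⟨hb.hp, l1, l2⟩, b1, hb1, e1⟩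
    · exact (hF.seg_fin _ a b).union ((hF.seg_fin _ c d).union hb.fin)
    · rintro v (k | k | k) hv
      exacts [l_not_u' k.1 (hKs hv).1.1, (hKs hv).1.2 (Or.inl k.1), (hKs hv).2 (hT k)]
  obtain ⟨p, y, -, -, hp, hpy, -, hy⟩ := (hP.fine.pl.conn x trivial q0 trivial).exit (R := K)
    Conn.rfl' fun h => (hKs h).1.2 (Or.inl hq0)
  rcases h.att (hKs hp).1 hpy with k | k | k | k
  · exact hy (Conn.snoc hp (hKs hp) k hpy)
  · exact main hb Set.inter_subset_right (min (G.ρ y) (G.ρ p0)) (max (G.ρ y) (G.ρ p0)) _ _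
      (min_le_right _ _) (le_max_right _ _) le_rfl le_rfl
      ⟨y, Or.inl ⟨k, min_le_left _ _, le_max_left _ _⟩, p, hp, hpy.symm⟩
  · exact main hb Set.inter_subset_right _ _ (min (G.ρ y) (G.ρ q0)) (max (G.ρ y) (G.ρ q0))
      le_rfl le_rfl (min_le_right _ _) (le_max_right _ _)
      ⟨y, Or.inr (Or.inl ⟨k, min_le_left _ _, le_max_left _ _⟩), p, hp, hpy.symm⟩
  · have hc := h.vc y k.1
    exact main (h.brg (k.2 ▸ hc.1) hc.2.1 (Or.inl rfl)) Set.inter_subset_right _ _ _ _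
      le_rfl le_rfl le_rfl le_rfl ⟨y, Or.inr (Or.inr hc.2.2), p, hp, hpy.symm⟩

theorem TFrm.mono (h : TFrm G) (hs : s ∈ G.L j) (ps : s ∈ G.Pr) (ht : t ∈ G.L j) (pt : t ∈ G.Pr)
    (l : G.ρ s ≤ G.ρ t) : G.nk s = G.nk t ∨ G.ρ (G.xr (G.an s)) ≤ G.ρ (G.xl (G.an t)) := by
  by_contra hc
  push Not at hc
  have lt : G.ρ s < G.ρ t := lt_of_le_of_ne l fun e => hc.1 (by rw [h.toRows.inj hs ht e])
  have hb := h.brg hs ps (Or.inr rfl)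
  have hx := (h.feet ht pt).1
  by_cases hv : G.an t ∈ G.V
  · exact (hb.nc h.toRows (h.ct_st ht pt) (ct_fin t) (h.ct_conn t) (h.ct_dis hc.1).symm
      (Or.inl ⟨hx, hc.2⟩) (Or.inr ⟨ht, lt⟩)).2 ⟨h.ct_l hv, h.ct_top ht pt hv⟩
  · refine (hb.nc h.toRows (Set.empty_subset _) Set.finite_empty isConn_empty
      (Set.empty_disjoint _) (Or.inl ⟨hx, hc.2⟩) (Or.inr ⟨ht, lt⟩)).1 ?_
    rw [(h.xo _ hv).1]
    exact (h.aa j t ht pt).1.symm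

theorem TFrm.mono' (h : TFrm G) (hs : s ∈ G.L j) (ps : s ∈ G.Pr) (ht : t ∈ G.L j) (pt : t ∈ G.Pr)
    (l : G.ρ s ≤ G.ρ t) : G.ρ (G.xl (G.an s)) ≤ G.ρ (G.xl (G.an t)) ∧
      G.ρ (G.xr (G.an s)) ≤ G.ρ (G.xr (G.an t)) := by
  have a := (h.feet hs ps).2.2
  have b := (h.feet ht pt).2.2
  rcases h.mono hs ps ht pt l with e | e
  · rw [(h.x_eq e).1, (h.x_eq e).2]; omega
  · omega

/-- a connected static set that sees the line on both sides of `t` meets the cut at `t` -/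
theorem TFrm.btw (h : TFrm G) {s' : Vx J} (hs : s ∈ G.L j) (ht : t ∈ G.L j) (pt : t ∈ G.Pr)
    (hs' : s' ∈ G.L j) (l : G.ρ s < G.ρ t) (l' : G.ρ t < G.ρ s') {E : Set (Vx J)}
    (hE : E ⊆ G.St j) (fE : E.Finite) (cE : IsConn G.Γ E) (n : s ∈ Nb G.Γ E)
    (n' : s' ∈ Nb G.Γ E) : ¬ Disjoint E (G.Ct t) := fun d =>
  ((h.brg ht pt (Or.inl rfl)).nc h.toRows hE fE cE d (Or.inr ⟨hs, l⟩) (Or.inr ⟨hs', l'⟩)).2 ⟨n, n'⟩

/-- two cuts with the same neck form a connected set -/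
theorem TFrm.ct2_conn (h : TFrm G) (e : G.nk s = G.nk t) : IsConn G.Γ (G.Ct s ∪ G.Ct t) := by
  by_cases hv : G.an s ∈ G.V
  · have m := h.ct_nk hv
    have m' : G.nk s ∈ G.Ct t := e ▸ h.ct_nk (h.nk_v.1 (e ▸ m.2))
    refine isConn_base (h.ct_conn s) Set.subset_union_left ?_
    rintro x (k | k)
    exacts [⟨x, k, Conn.rfl'⟩, ⟨_, m, (h.ct_conn t x k _ m').up Set.subset_union_right⟩]
  · rw [show G.Ct s = ∅ from Set.eq_empty_of_forall_notMem fun x hx => hv (h.ct_v hx),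
      Set.empty_union]
    exact h.ct_conn t

/-- between two cuts through a neck all cuts pass the neck -/
theorem TFrm.btw_nk (h : TFrm G) {s' : Vx J} (hs : s ∈ G.L j) (ps : s ∈ G.Pr) (ht : t ∈ G.L j)
    (pt : t ∈ G.Pr) (hs' : s' ∈ G.L j) (ps' : s' ∈ G.Pr) (l : G.ρ s ≤ G.ρ t)
    (l' : G.ρ t ≤ G.ρ s') (e : G.nk s = G.nk s') (hv : G.an s ∈ G.V) : G.nk t = G.nk s := by
  by_contra hc
  have lt : G.ρ s < G.ρ t := lt_of_le_of_ne l fun k => hc (by rw [h.toRows.inj hs ht k])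
  have lt' : G.ρ t < G.ρ s' := lt_of_le_of_ne l' fun k => hc (by rw [h.toRows.inj ht hs' k, e])
  have hv' : G.an s' ∈ G.V := h.nk_v.1 (e ▸ h.nk_v.2 hv)
  exact h.btw hs ht pt hs' lt lt' (Set.union_subset (h.ct_st hs ps) (h.ct_st hs' ps'))
    ((ct_fin s).union (ct_fin s')) (h.ct2_conn e) ⟨_, Or.inl (ct_an hv), (h.aa j s hs ps).1⟩
    ⟨_, Or.inr (ct_an hv'), (h.aa j s' hs' ps').1⟩
    (Set.disjoint_union_left.2 ⟨h.ct_dis (Ne.symm hc), h.ct_dis (e ▸ Ne.symm hc)⟩)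

/-- between two children of a static vertex all cuts pass it -/
theorem TFrm.btw_an (h : TFrm G) {s' : Vx J} (hs : s ∈ G.L j) (ps : s ∈ G.Pr) (ht : t ∈ G.L j)
    (pt : t ∈ G.Pr) (hs' : s' ∈ G.L j) (ps' : s' ∈ G.Pr) (l : G.ρ s ≤ G.ρ t)
    (l' : G.ρ t ≤ G.ρ s') (e : G.an s = G.an s') (hv : G.an s ∈ G.V) : G.an s ∈ G.Ct t := by
  by_contra hc
  have lt : G.ρ s < G.ρ t := lt_of_le_of_ne l fun k => hc (h.toRows.inj hs ht k ▸ ct_an hv)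
  have lt' : G.ρ t < G.ρ s' := lt_of_le_of_ne l' fun k => hc (by
    rw [h.toRows.inj ht hs' k, e]
    exact ct_an (e ▸ hv))
  exact h.btw hs ht pt hs' lt lt' (E := {G.an s})
    (by rintro _ rfl; exact h.v_st hv (h.an_f hs ps hv)) (Set.finite_singleton _) (isConn_single _)
    ⟨_, rfl, (h.aa j s hs ps).1⟩ ⟨_, rfl, e ▸ (h.aa j s' hs' ps').1⟩
    (Set.disjoint_singleton_left.2 hc)

theorem TFrm.shift (h : TFrm G) (hs : s ∈ G.L j) (ps : s ∈ G.Pr) (k : ℤ) :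
    tr (k • G.w) s ∈ G.L j ∧ tr (k • G.w) s ∈ G.Pr ∧
      G.ρ (tr (k • G.w) s) = G.ρ s + k * G.nn j ∧
      G.ρ (G.xl (G.an (tr (k • G.w) s))) = G.ρ (G.xl (G.an s)) + k * G.nn (j - 1) ∧
      G.ρ (G.xr (G.an (tr (k • G.w) s))) = G.ρ (G.xr (G.an s)) + k * G.nn (j - 1) :=
  ⟨(h.toRows.rho_lw k hs).1, h.ptr _ _ ps, (h.toRows.rho_lw k hs).2, by
    rw [h.atr, (h.xtr _ _).1, (h.toRows.rho_lw k (h.feet hs ps).1).2], by
    rw [h.atr, (h.xtr _ _).2.1, (h.toRows.rho_lw k (h.feet hs ps).2.1).2]⟩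

theorem TFrm.far_hi (h : TFrm G) (j m : ℤ) :
    ∃ s ∈ G.L j, s ∈ G.Pr ∧ m < G.ρ s ∧ m < G.ρ (G.xl (G.an s)) := by
  obtain ⟨s, hs, ps⟩ := h.pne j
  obtain ⟨k, hk⟩ : ∃ k : ℕ, m - G.ρ s < k ∧ m - G.ρ (G.xl (G.an s)) < k :=
    ⟨(m - G.ρ s).natAbs + (m - G.ρ (G.xl (G.an s))).natAbs + 1, by omega, by omega⟩
  obtain ⟨h1, h2, h3, h4, -⟩ := h.shift hs ps k
  refine ⟨_, h1, h2, ?_, ?_⟩
  · nlinarith [h.n2 j, (Nat.cast_nonneg k : (0 : ℤ) ≤ k)]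
  · nlinarith [h.n2 (j - 1), (Nat.cast_nonneg k : (0 : ℤ) ≤ k)]

theorem TFrm.far_lo (h : TFrm G) (j m : ℤ) :
    ∃ s ∈ G.L j, s ∈ G.Pr ∧ G.ρ s < m ∧ G.ρ (G.xr (G.an s)) < m := by
  obtain ⟨s, hs, ps⟩ := h.pne j
  obtain ⟨k, hk⟩ : ∃ k : ℕ, G.ρ s - m < k ∧ G.ρ (G.xr (G.an s)) - m < k :=
    ⟨(m - G.ρ s).natAbs + (m - G.ρ (G.xr (G.an s))).natAbs + 1, by omega, by omega⟩
  obtain ⟨h1, h2, h3, -, h4⟩ := h.shift hs ps (-k)
  refine ⟨_, h1, h2, ?_, ?_⟩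
  · nlinarith [h.n2 j, (Nat.cast_nonneg k : (0 : ℤ) ≤ k)]
  · nlinarith [h.n2 (j - 1), (Nat.cast_nonneg k : (0 : ℤ) ≤ k)]

theorem TFrm.next (h : TFrm G) (j m : ℤ) : ∃ s ∈ G.L j, s ∈ G.Pr ∧ m < G.ρ s ∧
    ∀ t ∈ G.L j, t ∈ G.Pr → m < G.ρ t → G.ρ s ≤ G.ρ t := by
  obtain ⟨s, hs, ps, ls, -⟩ := h.far_hi j m
  obtain ⟨i, ⟨h1, h2⟩, h3⟩ := Int.exists_least_of_bdd (P := fun i => G.l j i ∈ G.Pr ∧ m < i)
    ⟨m, fun z hz => hz.2.le⟩ ⟨G.ρ s, by rwa [h.toRows.l_rho hs], ls⟩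
  refine ⟨_, h.toRows.l_mem j i, h1, by rwa [h.rho], fun t ht pt lt => ?_⟩
  rw [h.rho]
  exact h3 _ ⟨by rwa [h.toRows.l_rho ht], lt⟩

end Pool.Agent.P.MP_08fd93_co.FP2
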