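import Pool.Agent.P.MP_08fd93_co.FP2.TF

/-! Static cells of a frame with tails. -/

set_option autoImplicit false

namespace Pool.Agent.P.MP_08fd93_co.FP2

open OV FZ

variable {J : Type} {G : TD J} {j : ℤ} {s s' t t' : Vx J}

/-- two disjoint sets do not both touch two lower vertices and a set hanging from the upper line -/
theorem three2 {F : FD J} (hF : Rows F) {p q r : Vx J} {T E A : Set (Vx J)} (hp : p ∈ F.L (j - 1))
    (hq : q ∈ F.L j) (hr : r ∈ F.L (j - 1)) (rp : r ≠ p)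
    (hT : T ⊆ F.St j) (fT : T.Finite) (cT : IsConn F.Γ T) (hE : E ⊆ F.St j) (fE : E.Finite)
    (cE : IsConn F.Γ E) (hA : A ⊆ F.St j) (fA : A.Finite) (cA : IsConn F.Γ A) (qA : q ∈ Nb F.Γ A)
    (d : Disjoint T E) (d1 : Disjoint T A) (d2 : Disjoint E A)
    (tT : p ∈ Nb F.Γ T ∧ r ∈ Nb F.Γ T ∧ Touch F.Γ T A)
    (tE : p ∈ Nb F.Γ E ∧ r ∈ Nb F.Γ E ∧ Touch F.Γ E A) : False := by
  have h : Brg F j p q (T ∪ A) := Brg.of hp hq (Set.union_subset hT hA) (fT.union fA)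
    (cT.union cA tT.2.2) (let ⟨y, hy, e⟩ := tT.1; ⟨y, Or.inl hy, e⟩)
    (let ⟨y, hy, e⟩ := qA; ⟨y, Or.inr hy, e⟩)
  obtain ⟨K, hK2, hK⟩ := far hF ((fT.union fA).union (Set.toFinite {p, q}))
    (((fT.union fE).union fA).union (Set.toFinite {p, q, r}))
  have d0 := hK K 0 (by omega)
  simp only [zero_smul, tr_zero, Set.image_id'] at d0
  have hb := h.mv hF K
  have sZ : Zn F j (fun i => i = F.ρ (tr (K • F.w) p)) (fun i => i = F.ρ (tr (K • F.w) q))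
      (tr (K • F.w) '' (T ∪ A)) ⊆ tr (K • F.w) '' (T ∪ A ∪ {p, q}) := by
    rintro z (a | a | ⟨y, hy, rfl⟩)
    exacts [⟨p, Or.inr (Or.inl rfl), (hF.inj a.1 hb.hp a.2).symm⟩,
      ⟨q, Or.inr (Or.inr rfl), (hF.inj a.1 hb.hq a.2).symm⟩, ⟨y, Or.inl hy, rfl⟩]
  have dO : ∀ B : Set (Vx J), B ⊆ (T ∪ E ∪ A) ∪ {p, q, r} →
      Disjoint ((BL F.Γ F.f (j - 1) ∪ F.U (j + 1)) ∪ Zn F j (fun i => i = F.ρ (tr (K • F.w) p))
        (fun i => i = F.ρ (tr (K • F.w) q)) (tr (K • F.w) '' (T ∪ A))) B := by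
    intro B hB
    refine Set.disjoint_union_left.2 ⟨(zn_out hF (P := fun _ => True) (Q := fun _ => True)
      (Set.union_subset (Set.union_subset hT hE) hA)).mono_right (hB.trans ?_), d0.mono sZ hB⟩
    rintro z (a | rfl | rfl | rfl)
    exacts [Or.inr (Or.inr a), Or.inl ⟨hp, trivial⟩, Or.inr (Or.inl ⟨hq, trivial⟩),
      Or.inl ⟨hr, trivial⟩]
  have t : ∀ (B : Set (Vx J)) x, x ∈ Nb F.Γ B → Touch F.Γ B {x} :=
    fun B x ⟨y, hy, e⟩ => ⟨y, hy, x, rfl, e.symm⟩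
  have t' : ∀ B : Set (Vx J), Touch F.Γ B A → Touch F.Γ B (A ∪ {q}) :=
    fun B ⟨y, hy, x, hx, e⟩ => ⟨y, hy, x, Or.inl hx, e⟩
  have ns : ∀ {B : Set (Vx J)} {x}, B ⊆ F.St j → x ∈ F.L (j - 1) ∨ x ∈ F.L j → Disjoint B {x} :=
    fun hA hx => Set.disjoint_singleton_right.2 fun k =>
      hx.elim (fun a => l_not_u' a (hA k).1) fun a => (hA k).2 (Or.inl a)
  have pq : ∀ x ∈ F.L (j - 1), Disjoint {x} (A ∪ {q}) := fun x hx =>
    Set.disjoint_union_right.2 ⟨(ns hA (Or.inl hx)).symm,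
      Set.disjoint_singleton.2 fun e => l_not_u' hx (e ▸ hF.l_u hq)⟩
  exact k33 hF.pl (out_conn hF hb) cT cE (isConn_single p) (isConn_single r)
    (cA.union_nb (B := {q}) (by rintro _ rfl; exact qA))
    (dO _ fun z hz => Or.inl (Or.inl (Or.inl hz))) (dO _ fun z hz => Or.inl (Or.inl (Or.inr hz))) d
    (Set.disjoint_singleton.2 rp.symm) (pq p hp) (pq r hr)
    ⟨dO _ (by rintro _ rfl; exact Or.inr (Or.inl rfl)),
      dO _ (by rintro _ rfl; exact Or.inr (Or.inr (Or.inr rfl))),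
      dO _ (by rintro _ (k | rfl); exacts [Or.inl (Or.inr k), Or.inr (Or.inr (Or.inl rfl))])⟩
    ⟨ns hT (Or.inl hp), ns hT (Or.inl hr), Set.disjoint_union_right.2 ⟨d1, ns hT (Or.inr hq)⟩⟩
    ⟨ns hE (Or.inl hp), ns hE (Or.inl hr), Set.disjoint_union_right.2 ⟨d2, ns hE (Or.inr hq)⟩⟩
    ⟨out_touch hF (Or.inl hp) rfl, out_touch hF (Or.inl hr) rfl,
      out_touch hF (Or.inr hq) (Or.inr rfl)⟩
    ⟨t _ _ tT.1, t _ _ tT.2.1, t' _ tT.2.2⟩ ⟨t _ _ tE.1, t _ _ tE.2.1, t' _ tE.2.2⟩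

/-- The component of `v` in the strip without static vertices. -/
def TD.Cp (G : TD J) (j : ℤ) (v : Vx J) : Set (Vx J) := {y | Conn G.Γ (G.S j) v y}

theorem cp_sub {v : Vx J} (hv : v ∈ G.S j) : G.Cp j v ⊆ G.S j := fun _ hy => Conn.mem hy hv

theorem cp_conn (v : Vx J) : IsConn G.Γ (G.Cp j v) := isConn_comp _ v

theorem cp_st {v : Vx J} (hv : v ∈ G.S j) : G.Cp j v ⊆ G.St j := fun _ hy => (cp_sub hv hy).1

theorem cp_dis {v : Vx J} (hv : v ∈ G.S j) {A : Set (Vx J)} (hA : A ⊆ G.V) :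
    Disjoint A (G.Cp j v) := Set.disjoint_left.2 fun _ a b => (cp_sub hv b).2 (hA a)

theorem TFrm.cp_fin (h : TFrm G) {v : Vx J} (hv : v ∈ G.S j) : (G.Cp j v).Finite :=
  h.sfin (cp_sub hv) (cp_conn v)

theorem TFrm.cp_nb (h : TFrm G) {v z : Vx J} (hv : v ∈ G.S j) (hz : z ∈ Nb G.Γ (G.Cp j v)) :
    z ∈ G.Cp j v ∨ z ∈ G.L (j - 1) ∨ z ∈ G.L j ∨ (z ∈ G.V ∧ G.f z = j) := by
  obtain ⟨y, hy, e⟩ := id hz
  exact (h.att (cp_sub hv hy).1 e.symm).imp_left fun k => comp_nb hv hz k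

/-- an attachment `e` of a component has a neighbour among the attachments besides the static
vertex `a` -/
theorem TFrm.hang (h : TFrm G) {v a e : Vx J} (hv : v ∈ G.S j) (ha : a ∈ G.V) (fa : G.f a = j)
    (he : e ∈ Nb G.Γ (G.Cp j v)) (ne : e ∉ G.Cp j v) (ae : G.Γ.Adj a e)
    (hn : ∀ b ∈ Nb G.Γ (G.Cp j v), G.Γ.Adj e b → b ∈ G.Cp j v ∨ b = a) : False := by
  have hR := h.toRows
  have fC := h.cp_fin hv
  obtain ⟨b, hb, nb⟩ := Set.not_subset.1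
    (h.nj _ (Set.subset_univ _) fC ⟨v, Conn.rfl'⟩ a e (Or.inr ae))
  obtain ⟨q, hq, pq⟩ := h.pne j
  have br := h.brg hq pq (Or.inl rfl)
  obtain ⟨K, hK2, hK⟩ := far hR br.fin ((Set.finite_singleton a).union fC)
  have d0 := hK K 0 (by omega)
  simp only [zero_smul, tr_zero, Set.image_id'] at d0
  have sa : a ∈ G.St j := h.v_st ha fa
  have sub : Zn G.toFD j (fun _ => True) (fun _ => True) (tr (K • G.w) '' G.Ct q) ⊆
      ({a} ∪ G.Cp j v)ᶜ := by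
    rintro z (m | m | m) k
    · exact l_not_u' m.1 (k.elim (fun k => k ▸ sa.1) fun k => (cp_st hv k).1)
    · exact k.elim (fun k => sa.2 (Or.inl (k ▸ m.1))) fun k => (cp_st hv k).2 (Or.inl m.1)
    · exact Set.disjoint_left.1 d0 m k
  have cZ := zn_conn hR (br.mv hR K) (P := fun _ => True) (Q := fun _ => True)
    (fun _ _ _ _ _ _ _ => trivial) (fun _ _ _ _ _ _ _ => trivial) trivial trivial
  have reach : ∀ x ∈ Nb G.Γ (G.Cp j v), x ∈ ({a} ∪ G.Cp j v)ᶜ →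
      ∃ z ∈ Zn G.toFD j (fun _ => True) (fun _ => True) (tr (K • G.w) '' G.Ct q),
        Conn G.Γ ({a} ∪ G.Cp j v)ᶜ x z := by
    intro x hx nx
    rcases h.cp_nb hv hx with k | k | k | k
    · exact absurd (Or.inr k) nx
    · exact ⟨x, Or.inl ⟨k, trivial⟩, Conn.rfl'⟩
    · exact ⟨x, Or.inr (Or.inl ⟨k, trivial⟩), Conn.rfl'⟩
    · obtain ⟨z, hz, e⟩ := h.v_row k.1 k.2
      have m : z ∈ Zn G.toFD j (fun _ => True) (fun _ => True) (tr (K • G.w) '' G.Ct q) :=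
        hz.elim (fun k => Or.inl ⟨k, trivial⟩) fun k => Or.inr (Or.inl ⟨k, trivial⟩)
      exact ⟨z, m, Conn.step nx (sub m) e⟩
  have oe : e ∈ ({a} ∪ G.Cp j v)ᶜ := fun k => k.elim ae.ne' ne
  have ob : b ∈ ({a} ∪ G.Cp j v)ᶜ := fun k =>
    k.elim (fun k => nb (Or.inr (Or.inl k))) fun k => nb (Or.inl k)
  obtain ⟨z1, m1, c1⟩ := reach e he oe
  obtain ⟨z2, m2, c2⟩ := reach b hb ob
  obtain ⟨z, hz, ez⟩ := (tim hR.pl (cp_dis hv (by rintro _ rfl; exact ha)) (isConn_single a)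
    (cp_conn v) fC he hb oe ((c1.trans ((cZ _ m1 _ m2).up sub)).trans c2.symm)).first
    fun k => nb (Or.inr (Or.inr k.symm))
  rcases hn z hz.1 ez with k | k
  exacts [hz.2 (Or.inr k), hz.2 (Or.inl k)]

/-- a component that attaches on both sides of a cut lies under the neck of the cut -/
theorem TFrm.under (h : TFrm G) (hs : s ∈ G.L j) (ps : s ∈ G.Pr) {v x y : Vx J} (hv : v ∈ G.S j)
    (nx : x ∈ Nb G.Γ (G.Cp j v)) (ny : y ∈ Nb G.Γ (G.Cp j v))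
    (hx : G.Lf j (G.xr (G.an s)) s x) (hy : G.Rg j (G.xl (G.an s)) s y) :
    G.an s ∈ G.V ∧ v ∈ G.Uv (G.nk s) := by
  have hR := h.toRows
  have fC := h.cp_fin hv
  have nR : ∀ z ∈ Nb G.Γ (G.Cp j v), ¬ G.Rg j (G.xr (G.an s)) s z := fun z hz k =>
    (h.ncv (h.brg hs ps (Or.inr rfl)) (cp_sub hv) fC (cp_conn v) hx k).2 ⟨nx, hz⟩
  have nL : ∀ z ∈ Nb G.Γ (G.Cp j v), ¬ G.Lf j (G.xl (G.an s)) s z := fun z hz k =>
    (h.ncv (h.brg hs ps (Or.inl rfl)) (cp_sub hv) fC (cp_conn v) k hy).2 ⟨hz, ny⟩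
  have hV : G.an s ∈ G.V := by
    by_contra c
    rw [(h.xo _ c).1] at hy
    exact nR y ny (by rwa [(h.xo _ c).2.1])
  have fa := h.an_f hs ps hV
  have fn := h.nk_f hs ps hV
  have ft := h.feet hs ps
  have hx' : x ∈ G.L (j - 1) ∧ G.ρ (G.xl (G.an s)) ≤ G.ρ x ∧ G.ρ x < G.ρ (G.xr (G.an s)) := by
    rcases hx with a | a
    exacts [⟨a.1, not_lt.1 fun k => nL x nx (Or.inl ⟨a.1, k⟩), a.2⟩, (nL x nx (Or.inr a)).elim]
  have hy' : y ∈ G.L (j - 1) ∧ G.ρ (G.xl (G.an s)) < G.ρ y ∧ G.ρ y ≤ G.ρ (G.xr (G.an s)) := by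
    rcases hy with a | a
    exacts [⟨a.1, a.2, not_lt.1 fun k => nR y ny (Or.inl ⟨a.1, k⟩)⟩, (nR y ny (Or.inr a)).elim]
  have sC := cp_st hv
  -- a set `E` under which the feet lie, and an extension `A` of the component up to `s`
  have ends : ∀ E A : Set (Vx J), E ⊆ G.St j → E.Finite → IsConn G.Γ E → A ⊆ G.St j → A.Finite →
      IsConn G.Γ (G.Cp j v ∪ A) → s ∈ Nb G.Γ (G.Cp j v ∪ A) → Disjoint E (G.Cp j v ∪ A) →
      G.xl (G.an s) ∈ Nb G.Γ E → G.xr (G.an s) ∈ Nb G.Γ E →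
      x = G.xl (G.an s) ∧ y = G.xr (G.an s) := by
    intro E A e1 e2 e3 a1 a2 a3 a4 d n1 n2
    have key : ∀ p ∈ G.L (j - 1), p ∈ Nb G.Γ (G.Cp j v) →
        ¬ (G.ρ (G.xl (G.an s)) < G.ρ p ∧ G.ρ p < G.ρ (G.xr (G.an s))) := fun p hp np c =>
      ((Brg.of hp hs (Set.union_subset sC a1) (fC.union a2) a3
        (let ⟨w, hw, e⟩ := np; ⟨w, Or.inl hw, e⟩) a4).nc hR e1 e2 e3 d (Or.inl ⟨ft.1, c.1⟩)
        (Or.inl ⟨ft.2.1, c.2⟩)).2 ⟨n1, n2⟩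
    have b1 := key x hx'.1 nx
    have b2 := key y hy'.1 ny
    exact ⟨hR.inj hx'.1 ft.1 (by omega), hR.inj hy'.1 ft.2.1 (by omega)⟩
  have xm := h.xm _ hV
  have yx : x = G.xl (G.an s) → y ≠ x := fun e k =>
    absurd hy'.2.1 (by rw [k, ← e]; exact lt_irrefl _)
  refine ⟨hV, by rw [fn]; exact hv, fun y0 z c e => ?_⟩
  rw [fn] at c ⊢
  have cy : y0 ∈ G.Cp j v := c
  have hz : z ∈ Nb G.Γ (G.Cp j v) := ⟨y0, c, e.symm⟩
  rcases h.cp_nb hv hz with k | k | k | k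
  · exact Or.inl (cp_sub hv k)
  · refine Or.inr (Or.inr ⟨k, ?_, ?_⟩)
    · rw [TD.nk, xm.1]
      exact not_lt.1 fun c => nL z hz (Or.inl ⟨k, c⟩)
    · rw [TD.nk, xm.2]
      exact not_lt.1 fun c => nR z hz (Or.inl ⟨k, c⟩)
  · exfalso
    obtain rfl : z = s := hR.inj k hs (le_antisymm
      (not_lt.1 fun c => nR z hz (Or.inr (Or.inl ⟨k, c⟩)))
      (not_lt.1 fun c => nL z hz (Or.inr (Or.inl ⟨k, c⟩))))
    have dv := cp_dis (j := j) hv (A := G.Ct z) Set.inter_subset_right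
    obtain ⟨e1, e2⟩ := ends (G.Ct z) ∅ (h.ct_st hs ps) (ct_fin z) (h.ct_conn z)
      (Set.empty_subset _) Set.finite_empty (by rw [Set.union_empty]; exact cp_conn v)
      (by rwa [Set.union_empty]) (by rwa [Set.union_empty]) (h.ct_l hV) (h.ct_r hV)
    exact Brg.three hR hx'.1 hs (Or.inl hy'.1) (yx e1)
      (fun c => l_not_u' hy'.1 (c ▸ hR.l_u hs)) sC fC (cp_conn v) (h.ct_st hs ps) (ct_fin z)
      (h.ct_conn z) dv.symm ⟨nx, hz, ny⟩ ⟨e1 ▸ h.ct_l hV, h.ct_top hs ps hV, e2 ▸ h.ct_r hV⟩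
  · refine Or.inr (Or.inl ?_)
    by_contra c
    have hc := h.vc z k.1
    have zc : z ∈ G.Ct s := by
      by_contra n
      have e1 : G.ch z = s := hR.inj (k.2 ▸ hc.1) hs (le_antisymm
        (not_lt.1 fun c' => nR z hz (Or.inr (Or.inr ⟨k.1, k.2, n, c'⟩)))
        (not_lt.1 fun c' => nL z hz (Or.inr (Or.inr ⟨k.1, k.2, n, c'⟩))))
      exact n (e1 ▸ hc.2.2)
    obtain rfl : z = G.an s := zc.1.resolve_right c
    have nV := h.nk_v.2 hV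
    have sA : ({G.an s} : Set (Vx J)) ⊆ G.St j := by rintro _ rfl; exact h.v_st hV fa
    have sE : ({G.nk s} : Set (Vx J)) ⊆ G.St j := by rintro _ rfl; exact h.v_st nV fn
    have n1 : G.xl (G.an s) ∈ Nb G.Γ {G.nk s} := ⟨_, rfl, (h.vl _ hV).2.symm⟩
    have n2 : G.xr (G.an s) ∈ Nb G.Γ {G.nk s} := ⟨_, rfl, (h.vr _ hV).2.symm⟩
    have dE := cp_dis (j := j) hv (A := {G.nk s}) (by rintro _ rfl; exact nV)
    have dA := cp_dis (j := j) hv (A := {G.an s}) (by rintro _ rfl; exact hV)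
    have dd : Disjoint ({G.nk s} : Set (Vx J)) {G.an s} := Set.disjoint_singleton.2 (Ne.symm c)
    obtain ⟨e1, e2⟩ := ends {G.nk s} {G.an s} sE (Set.finite_singleton _) (isConn_single _) sA
      (Set.finite_singleton _) ((cp_conn v).union_nb (by rintro _ rfl; exact hz))
      ⟨_, Or.inr rfl, (h.aa j s hs ps).1⟩ (Set.disjoint_union_right.2 ⟨dE, dd⟩) n1 n2
    exact three2 hR hx'.1 hs hy'.1 (yx e1) sC fC (cp_conn v) sE
      (Set.finite_singleton _) (isConn_single _) sA (Set.finite_singleton _) (isConn_single _)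
      ⟨_, rfl, (h.aa j s hs ps).1⟩ dE.symm dA.symm dd ⟨nx, ny, y0, cy, _, rfl, e⟩
      ⟨e1 ▸ n1, e2 ▸ n2, _, rfl, _, rfl, ((h.mv _ hV).2.2.2.resolve_left (Ne.symm c)).symm⟩

theorem TFrm.ct_bt (n : G.nk s ≠ G.nk s') {z : Vx J} (hz : z ∈ G.Ct s ∨ z ∈ G.Ct s') :
    z ∈ G.Bt s s' := by
  rcases hz with ⟨k | k, -⟩ | ⟨k | k, -⟩
  exacts [Or.inl k, Or.inr (Or.inr ⟨n, Or.inl k⟩), Or.inr (Or.inl k),
    Or.inr (Or.inr ⟨n, Or.inr (Or.inl k)⟩)]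

theorem TFrm.mid (h : TFrm G) (hs : s ∈ G.L j) (ps : s ∈ G.Pr) (hN : G.NoV s s') {z : Vx J}
    (hz : z ∈ G.L (j - 1) ∨ z ∈ G.L j ∨ (z ∈ G.V ∧ G.f z = j))
    (h1 : ¬ G.Lf j (G.xr (G.an s)) s z) (h2 : ¬ G.Rg j (G.xl (G.an s')) s' z) :
    z ∈ G.Bt s s' ∨ z ∈ G.Top s s' ∨
      (G.nk s = G.nk s' ∧ G.an s ∈ G.V ∧ (z = G.xl (G.an s) ∨ z = G.nk s)) := by
  have hR := h.toRows
  have fs := h.uw.lf j s hs
  rcases hz with k | k | k
  · have a1 := not_lt.1 fun c => h1 (Or.inl ⟨k, c⟩)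
    have a2 := not_lt.1 fun c => h2 (Or.inl ⟨k, c⟩)
    by_cases e : G.nk s = G.nk s'
    · have ft := h.feet hs ps
      rw [← (h.x_eq e).1] at a2
      have e1 : z = G.xl (G.an s) := hR.inj k ft.1 (by omega)
      by_cases hv : G.an s ∈ G.V
      exacts [Or.inr (Or.inr ⟨e, hv, Or.inl e1⟩), Or.inl (Or.inl (e1.trans (h.xo _ hv).1))]
    · exact Or.inl (Or.inr (Or.inr ⟨e, Or.inr (Or.inr ⟨fs ▸ k, a1, a2⟩)⟩))
  · exact Or.inr (Or.inl ⟨fs ▸ k, not_lt.1 fun c => h1 (Or.inr (Or.inl ⟨k, c⟩)),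
      not_lt.1 fun c => h2 (Or.inr (Or.inl ⟨k, c⟩))⟩)
  · have m : z ∈ G.Ct s ∨ z ∈ G.Ct s' := by
      by_contra c
      rw [not_or] at c
      exact (hN z k.1 ⟨by rw [fs, ← k.2]; exact (h.vc z k.1).1,
        not_lt.1 fun c' => h1 (Or.inr (Or.inr ⟨k.1, k.2, c.1, c'⟩)),
        not_lt.1 fun c' => h2 (Or.inr (Or.inr ⟨k.1, k.2, c.2, c'⟩))⟩).elim c.1 c.2
    by_cases e : G.nk s = G.nk s'
    · rcases m with ⟨m | m, m'⟩ | ⟨m | m, m'⟩
      · exact Or.inl (Or.inl m)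
      · exact Or.inr (Or.inr ⟨e, h.nk_v.1 (m ▸ m' :), Or.inr m⟩)
      · exact Or.inl (Or.inr (Or.inl m))
      · have m2 : z = G.nk s := (show z = G.nk s' from m).trans e.symm
        exact Or.inr (Or.inr ⟨e, h.nk_v.1 (m2 ▸ m'), Or.inr m2⟩)
    · exact Or.inl (TFrm.ct_bt e m)

/-- the top between two cuts through one neck does not see the lower line -/
theorem TFrm.top_pure (h : TFrm G) (hs : s ∈ G.L j) (ps : s ∈ G.Pr) (hs' : s' ∈ G.L j)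
    (ps' : s' ∈ G.Pr) (e : G.nk s = G.nk s') (hV : G.an s ∈ G.V) {x q : Vx J}
    (hx : x ∈ G.Top s s') (hq : q ∈ G.L (j - 1)) : ¬ G.Γ.Adj q x := by
  intro a
  have hR := h.toRows
  have hV' : G.an s' ∈ G.V := h.nk_v.1 (e ▸ h.nk_v.2 hV)
  have xL : x ∈ G.L j := h.uw.lf j s hs ▸ hx.1
  have a1 := hx.2.1
  have a2 := hx.2.2
  by_cases c1 : G.ρ x = G.ρ s
  · exact (h.pure j s hs ps hV).1 q hq (hR.inj xL hs c1 ▸ a.symm)
  by_cases c2 : G.ρ x = G.ρ s'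
  · exact (h.pure j s' hs' ps' hV').1 q hq (hR.inj xL hs' c2 ▸ a.symm)
  exact ((Brg.rung hq xL a).nc hR (Set.union_subset (h.ct_st hs ps) (h.ct_st hs' ps'))
    ((ct_fin s).union (ct_fin s')) (h.ct2_conn e) (Set.disjoint_empty _)
    (Or.inr ⟨hs, by omega⟩) (Or.inr ⟨hs', by omega⟩)).2
    ⟨⟨_, Or.inl (ct_an hV), (h.aa j s hs ps).1⟩, ⟨_, Or.inr (ct_an hV'), (h.aa j s' hs' ps').1⟩⟩

/-- the top between two children of a head does not see the neck -/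
theorem TFrm.top_neck (h : TFrm G) (hs : s ∈ G.L j) (ps : s ∈ G.Pr) (hs' : s' ∈ G.L j)
    (ps' : s' ∈ G.Pr) (e : G.an s = G.an s') (hV : G.an s ∈ G.V) (n : G.nk s ≠ G.an s) {x : Vx J}
    (hx : x ∈ G.Top s s') : ¬ G.Γ.Adj (G.nk s) x := by
  intro a
  have hR := h.toRows
  have xL : x ∈ G.L j := h.uw.lf j s hs ▸ hx.1
  have a1 := hx.2.1
  have a2 := hx.2.2
  by_cases c1 : G.ρ x = G.ρ s
  · exact n ((h.pure j s hs ps hV).2 (hR.inj xL hs c1 ▸ a.symm))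
  by_cases c2 : G.ρ x = G.ρ s'
  · have := (h.pure j s' hs' ps' (e ▸ hV)).2
    rw [← e] at this
    exact n (this (hR.inj xL hs' c2 ▸ a.symm))
  exact ((Brg.of (T := {G.nk s}) (h.feet hs ps).1 xL
    (by rintro _ rfl; exact h.v_st (h.nk_v.2 hV) (h.nk_f hs ps hV)) (Set.finite_singleton _)
    (isConn_single _) ⟨_, rfl, (h.vl _ hV).2.symm⟩ ⟨_, rfl, a.symm⟩).nc hR (E := {G.an s})
    (by rintro _ rfl; exact h.v_st hV (h.an_f hs ps hV)) (Set.finite_singleton _)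
    (isConn_single _) (Set.disjoint_singleton.2 n.symm)
    (Or.inr ⟨hs, by omega⟩) (Or.inr ⟨hs', by omega⟩)).2
    ⟨⟨_, rfl, (h.aa j s hs ps).1⟩, ⟨_, rfl, e ▸ (h.aa j s' hs' ps').1⟩⟩

theorem TFrm.memIn (h : TFrm G) (hs : s ∈ G.L j) (ps : s ∈ G.Pr) (hs' : s' ∈ G.L j)
    (ps' : s' ∈ G.Pr) (hN : G.NoV s s') {v : Vx J} (hv : v ∈ G.S j)
    (H : ∀ z ∈ Nb G.Γ (G.Cp j v),
      ¬ G.Lf j (G.xr (G.an s)) s z ∧ ¬ G.Rg j (G.xl (G.an s')) s' z) : v ∈ G.In s s' := by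
  have hR := h.toRows
  have fs := h.uw.lf j s hs
  have M : ∀ z ∈ Nb G.Γ (G.Cp j v), z ∈ G.Cp j v ∨ z ∈ G.Bt s s' ∨ z ∈ G.Top s s' ∨
      (G.nk s = G.nk s' ∧ G.an s ∈ G.V ∧ (z = G.xl (G.an s) ∨ z = G.nk s)) := fun z hz =>
    (h.cp_nb hv hz).imp_right fun k => h.mid hs ps hN k (H z hz).1 (H z hz).2
  refine ⟨by rw [fs]; exact hv, fun y z c e => ?_⟩
  rw [fs] at c ⊢
  have hz : z ∈ Nb G.Γ (G.Cp j v) := ⟨y, c, e.symm⟩
  rcases M z hz with k | k | k | ⟨k1, hV, k2⟩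
  · exact Or.inl (cp_sub hv k)
  · exact Or.inr (Or.inl k)
  · exact Or.inr (Or.inr k)
  have hV' : G.an s' ∈ G.V := h.nk_v.1 (k1 ▸ h.nk_v.2 hV)
  have nV := h.nk_v.2 hV
  have hu := (h.feet hs ps).1
  have nq : G.xl (G.an s) ∉ Nb G.Γ (G.Cp j v) := fun hq =>
    h.hang hv nV (h.nk_f hs ps hV) hq (fun k => l_not_u' hu (cp_st hv k).1) (h.vl _ hV).2
      fun b hb a => by
        rcases M b hb with k | (k | k | k) | k | ⟨-, -, k | k⟩
        · exact Or.inl k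
        · subst k
          exact Or.inr (h.vx _ hV _ (h.an_f hs ps hV ▸ hu) a.symm).1.symm
        · subst k
          exact Or.inr ((h.vx _ hV' _ (h.an_f hs' ps' hV' ▸ hu) a.symm).1.symm.trans k1.symm)
        · exact absurd k1 k.1
        · exact absurd a (h.top_pure hs ps hs' ps' k1 hV k hu)
        · exact absurd k a.ne'
        · exact Or.inr k
  obtain rfl := k2.resolve_left fun k => nq (k ▸ hz)
  by_cases c1 : G.nk s = G.an s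
  · exact Or.inr (Or.inl (Or.inl c1))
  by_cases c2 : G.nk s = G.an s'
  · exact Or.inr (Or.inl (Or.inr (Or.inl c2)))
  exfalso
  have ee : G.an s = G.an s' := by
    rcases h.one _ hV _ hV' k1 with k | k | k
    exacts [k, absurd k c1, absurd (k1.trans k) c2]
  refine h.hang hv hV (h.an_f hs ps hV) hz (fun k => (cp_sub hv k).2 nV)
    ((h.mv _ hV).2.2.2.resolve_left c1) fun b hb a => ?_
  rcases M b hb with k | (k | k | k) | k | ⟨-, -, k | k⟩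
  · exact Or.inl k
  · exact Or.inr k
  · exact Or.inr (k.trans ee.symm)
  · exact absurd k1 k.1
  · exact absurd a (h.top_neck hs ps hs' ps' ee hV c1 k)
  · exact absurd (k ▸ hb) nq
  · exact absurd k a.ne'

/-- consecutive cuts enclose no static vertex -/
theorem TFrm.nov (h : TFrm G) (hs : s ∈ G.L j) (hs' : s' ∈ G.L j)
    (hc : ∀ t ∈ G.L j, t ∈ G.Pr → G.ρ t ≤ G.ρ s ∨ G.ρ s' ≤ G.ρ t) : G.NoV s s' := by
  intro v hv ht
  have c := h.vc v hv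
  have hL : G.ch v ∈ G.L j := h.uw.lf j s hs ▸ ht.1
  have a1 := ht.2.1
  have a2 := ht.2.2
  rcases hc _ hL c.2.1 with k | k
  · exact Or.inl (h.toRows.inj hL hs (by omega) ▸ c.2.2)
  · exact Or.inr (h.toRows.inj hL hs' (by omega) ▸ c.2.2)

/-- every vertex of a strip lies under a neck or between two consecutive cuts -/
theorem TFrm.ex (h : TFrm G) {v : Vx J} (hv : v ∈ G.S j) :
    (∃ b ∈ G.L j, b ∈ G.Pr ∧ G.an b ∈ G.V ∧ v ∈ G.Uv (G.nk b)) ∨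
    ∃ s ∈ G.L j, ∃ s' ∈ G.L j, s ∈ G.Pr ∧ s' ∈ G.Pr ∧ G.ρ s < G.ρ s' ∧
      (∀ t ∈ G.L j, t ∈ G.Pr → G.ρ t ≤ G.ρ s ∨ G.ρ s' ≤ G.ρ t) ∧ v ∈ G.In s s' := by
  classical
  have hR := h.toRows
  refine or_iff_not_imp_left.2 fun hU => ?_
  have hC := h.cp_fin hv
  have hfin : (Nb G.Γ (G.Cp j v)).Finite := by
    have := hC.biUnion (t := fun b => {y | G.Γ.Adj b y}) (fun b _ => h.wp.fine.lf b)
    refine this.subset ?_
    rintro x ⟨b, hb, a⟩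
    exact Set.mem_biUnion hb a.symm
  set pos : Vx J → ℤ := fun z => if z ∈ G.V then G.ρ (G.ch z) else G.ρ z with hpos
  obtain ⟨m, hm⟩ := (hfin.image pos).bddBelow
  obtain ⟨s0, hs0, p0, h0, h0'⟩ := h.far_lo j m
  obtain ⟨z0, hz0, hz1⟩ := Set.not_subset.1
    (h.nj (G.Cp j v) (Set.subset_univ _) hC ⟨v, Conn.rfl'⟩ v v (Or.inl rfl))
  obtain ⟨s1, hs1, p1, h1, h1'⟩ := h.far_hi j (max (G.ρ z0) (max (G.ρ (G.ch z0)) (G.ρ (G.xl z0))))
  simp only [max_lt_iff] at h1 h1'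
  obtain ⟨i, ⟨hi1, hi2⟩, hi3⟩ := Int.exists_greatest_of_bdd
    (P := fun i => G.l j i ∈ G.Pr ∧
      ∀ z ∈ Nb G.Γ (G.Cp j v), ¬ G.Lf j (G.xr (G.an (G.l j i))) (G.l j i) z)
    ⟨G.ρ s1, fun i hi => by
      by_contra c
      have a1 := h.mono' hs1 p1 (hR.l_mem j i) hi.1 (by rw [h.rho]; omega)
      have a2 := (h.feet hs1 p1).2.2
      refine hi.2 z0 hz0 ?_
      rcases (h.cp_nb hv hz0).resolve_left fun k => hz1 (Or.inl k) with k | k | k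
      · exact Or.inl ⟨k, by omega⟩
      · exact Or.inr (Or.inl ⟨k, by rw [h.rho]; omega⟩)
      · refine Or.inr (Or.inr ⟨k.1, k.2, fun m => ?_, by rw [h.rho]; omega⟩)
        have := (h.x_eq (h.ct_md m)).1
        rw [← this] at a1
        omega⟩
    ⟨G.ρ s0, by
      rw [hR.l_rho hs0]
      refine ⟨p0, fun z hz => ?_⟩
      have := hm ⟨z, hz, rfl⟩
      rintro (h2 | h2 | h2)
      · simp only [hpos, if_neg (h.l_nv h2.1)] at this
        omega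
      · simp only [hpos, if_neg (h.l_nv h2.1)] at this
        omega
      · simp only [hpos, if_pos h2.1] at this
        omega⟩
  obtain ⟨s', hs', ps', l1, l2⟩ := h.next j i
  have cons : ∀ t ∈ G.L j, t ∈ G.Pr → G.ρ t ≤ G.ρ (G.l j i) ∨ G.ρ s' ≤ G.ρ t := fun t ht pt => by
    have := l2 t ht pt
    rw [h.rho]
    omega
  refine ⟨G.l j i, hR.l_mem j i, s', hs', hi1, ps', by rwa [h.rho], cons,
    h.memIn (hR.l_mem j i) hi1 hs' ps' (h.nov (hR.l_mem j i) hs' cons) hv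
      fun z hz => ⟨hi2 z hz, fun hg => ?_⟩⟩
  by_cases h3 : ∀ z ∈ Nb G.Γ (G.Cp j v), ¬ G.Lf j (G.xr (G.an s')) s' z
  · have := hi3 (G.ρ s') (by rw [hR.l_rho hs']; exact ⟨ps', h3⟩)
    omega
  · push Not at h3
    obtain ⟨x, hx1, hx2⟩ := h3
    have := h.under hs' ps' hv hx1 hz hx2 hg
    exact hU ⟨_, hs', ps', this⟩

end Pool.Agent.P.MP_08fd93_co.FP2
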