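import Pool.Agent.P.MP_08fd93_co.FP2.TC
import Pool.Agent.P.MP_08fd93_co.FZ.VC

/-! The static cell between two cuts of a frame with tails is a disc. -/

set_option autoImplicit false

namespace Pool.Agent.P.MP_08fd93_co.FP2

open OV FZ

variable {J : Type} {G : TD J} {j : ℤ} {s s' : Vx J}

/-- The static cell between the cuts at `s` and `s'`. -/
noncomputable def tcell (G : TD J) (s s' : Vx J) : DD (Vx J) :=
  ⟨(G.Bt s s' ∪ G.Top s s' ∪ G.Im s s')ᶜ, G.Bt s s', G.Top s s', G.ord s s', G.an s, G.an s',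
    s, s'⟩

section

variable (h : TFrm G) (hs : s ∈ G.L j) (ps : s ∈ G.Pr) (hs' : s' ∈ G.L j) (ps' : s' ∈ G.Pr)
include h hs ps hs' ps'

theorem TFrm.tcell_I : (tcell G s s').I = G.Im s s' := by
  have fs := h.uw.lf j s hs
  ext v
  constructor
  · intro hv
    by_contra hc
    exact hv (by
      by_cases h1 : v ∈ G.Bt s s' ∪ G.Top s s'
      exacts [Or.inr h1, Or.inl fun h2 => h2.elim h1 hc])
  · rintro hv (k | k | k)
    · exact k (Or.inr hv)
    · exact (h.bt_st hs ps hs' ps' k).elim (fun c => hv.1.2 c.1) fun c => l_not_u' c (fs ▸ hv.1.1.1)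
    · exact hv.1.1.2 (Or.inl k.1)

theorem TFrm.vlow {v : Vx J} (hv : v ∈ G.Bt s s' ∨ v ∈ G.Im s s') :
    v ∈ G.St j ∨ v ∈ G.L (j - 1) :=
  hv.elim (fun k => (h.bt_st hs ps hs' ps' k).imp_left And.right)
    fun k => Or.inl (h.uw.lf j s hs ▸ k.1.1)

theorem TFrm.vZ {v : Vx J} (hv : v ∈ BL G.Γ G.f (j - 1) ∨ v ∈ G.U (j + 1)) :
    v ∈ (tcell G s s').Z := by
  have o := Set.disjoint_left.1 (zn_out h.toRows (P := fun _ => True) (Q := fun _ => True)
    (subset_refl (G.St j))) hv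
  rintro ((k | k) | k)
  · exact (h.vlow hs ps hs' ps' (Or.inl k)).elim (fun c => o (Or.inr (Or.inr c)))
      fun c => o (Or.inl ⟨c, trivial⟩)
  · exact o (Or.inr (Or.inl ⟨h.uw.lf j s hs ▸ k.1, trivial⟩))
  · exact o (Or.inr (Or.inr (h.uw.lf j s hs ▸ k.1.1)))

omit ps hs' ps' in
theorem TFrm.vZ_of {v : Vx J} (hv : v ∈ G.L (j - 1) ∨ v ∈ G.L j ∨ (v ∈ G.V ∧ G.f v = j))
    (h1 : v ∉ G.Bt s s') (h2 : v ∉ G.Top s s') : v ∈ (tcell G s s').Z \ G.U (j + 1) := by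
  have fs := h.uw.lf j s hs
  constructor
  · rintro ((k | k) | k)
    · exact h1 k
    · exact h2 k
    · have k' : v ∈ G.S j := fs ▸ k.1
      rcases hv with c | c | c
      exacts [l_not_u' c k'.1.1, k'.1.2 (Or.inl c), k'.2 c.1]
  · intro k
    rcases hv with c | c | c
    exacts [l_not_u' c (h.uw.mono _ _ (by omega) k), c.2 k, (h.v_st c.1 c.2).2 (Or.inr k)]

omit hs' ps' in
/-- the feet of a neck do not lie on the bottom of a cell over this neck -/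
theorem TFrm.ft_nb (e : G.nk s = G.nk s') (hv : G.an s ∈ G.V) : G.xl (G.an s) ∉ G.Bt s s' := by
  rw [tbt_pair e]
  rintro (k | k)
  exacts [h.l_nv (h.feet hs ps).1 (by rwa [k]),
    h.l_nv (h.feet hs ps).1 (by rw [Set.mem_singleton_iff.1 k]; exact (h.nk_same e).1 hv)]

theorem TFrm.vout_conn (l : G.ρ s ≤ G.ρ s') (hN : G.NoV s s') :
    IsConn G.Γ ((tcell G s s').Z \ G.U (j + 1)) := by
  have hR := h.toRows
  have fs := h.uw.lf j s hs
  set O := (tcell G s s').Z \ G.U (j + 1) with hO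
  have bl : BL G.Γ G.f (j - 1) ⊆ O := fun v hv => ⟨h.vZ hs ps hs' ps' (Or.inl hv),
    fun k => u_not_bl (h.uw.mono _ _ (by omega) k) hv⟩
  have o1 : ∀ v ∈ G.L (j - 1), v ∉ G.Bt s s' → v ∈ O := fun v hv k =>
    h.vZ_of hs (Or.inl hv) k fun c => l_not_u' hv (hR.l_u (fs ▸ c.1))
  have o2 : ∀ v ∈ G.L j, v ∉ G.Top s s' → v ∈ O := fun v hv k =>
    h.vZ_of hs (Or.inr (Or.inl hv)) (fun c => (h.bt_st hs ps hs' ps' c).elim
      (fun c => h.l_nv hv c.1) fun c => l_not_u' c (hR.l_u hv)) k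
  have o3 : ∀ v ∈ G.V, G.f v = j → v ∉ G.Bt s s' → v ∈ O := fun v hv e k =>
    h.vZ_of hs (Or.inr (Or.inr ⟨hv, e⟩)) k fun c => h.l_nv c.1 hv
  have g1 : ∀ v ∈ G.L (j - 1), v ∉ G.Bt s s' → ∃ y ∈ BL G.Γ G.f (j - 1), Conn G.Γ O v y := by
    intro v hv hn
    obtain ⟨b, hb, e⟩ := h.tch _ hv
    exact ⟨b, hb, Conn.step (o1 v hv hn) (bl hb) e⟩
  have oT : ∀ t ∈ G.L j, t ∈ G.Pr → ∀ A ⊆ G.Ct t, Disjoint A (G.Ct s) → Disjoint A (G.Ct s') →
      A ⊆ O := fun t ht pt A sA n1 n2 x hx =>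
    o3 x (sA hx).2 (h.ct_f ht pt (sA hx)) fun k => (h.bt_v k (sA hx).2).elim
      (Set.disjoint_left.1 n1 hx) (Set.disjoint_left.1 n2 hx)
  have g2 : ∀ v ∈ G.L j, v ∉ G.Top s s' → ∃ y ∈ BL G.Γ G.f (j - 1), Conn G.Γ O v y := by
    intro v hv hn
    have key : ∀ (q : ℤ → Prop) (t p : Vx J), (∀ a b c, q a → q c → a ≤ b → b ≤ c → q b) →
        (∀ i, q i → ¬ (G.ρ s ≤ i ∧ i ≤ G.ρ s')) → q (G.ρ v) → t ∈ G.L j → t ∈ G.Pr →
        q (G.ρ t) → G.Ft t p → G.nk t ≠ G.nk s → G.nk t ≠ G.nk s' → p ∉ G.Bt s s' →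
        ∃ y ∈ BL G.Γ G.f (j - 1), Conn G.Γ O v y := by
      intro q t p hq ho qv ht pt qt hp n1 n2 hb
      have sub : {x | x ∈ G.L j ∧ q (G.ρ x)} ⊆ O := fun x hx =>
        o2 x hx.1 fun k => ho _ hx.2 k.2
      have br := h.brg ht pt hp
      have sT : G.Ct t ∪ {t} ⊆ O := by
        rintro x (hx | rfl)
        exacts [oT t ht pt _ subset_rfl (h.ct_dis n1) (h.ct_dis n2) hx, sub ⟨ht, qt⟩]
      obtain ⟨y, hy, c⟩ := g1 _ br.hp hb
      obtain ⟨a, ha, e⟩ := br.tp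
      exact ⟨y, hy, ((((hR.seg_conn _ hq v ⟨hv, qv⟩ t ⟨ht, qt⟩).up sub).trans
        ((br.conn t (Or.inr rfl) a ha).up sT)).snoc (sT ha) (o1 _ br.hp hb) e.symm).trans c⟩
    have a1 := (h.feet hs ps).2.2
    have a2 := (h.feet hs' ps').2.2
    have a3 := h.mono' hs ps hs' ps' l
    by_cases c : G.ρ v < G.ρ s
    · obtain ⟨t, ht, pt, b1, b2⟩ := h.far_lo j (min (G.ρ s) (G.ρ (G.xl (G.an s))))
      have ft := (h.feet ht pt).2.1
      refine key (fun i => i < G.ρ s) t _ (fun _ _ _ _ _ _ _ => by omega) (fun _ _ => by omega) c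
        ht pt (by omega) (Or.inr rfl) (fun k => by rw [(h.x_eq k).2] at b2; omega)
        (fun k => by rw [(h.x_eq k).2] at b2; omega) fun k => ?_
      have := h.bt_line hs ps hs' ps' l k (h.l_nv ft)
      omega
    · obtain ⟨t, ht, pt, b1, b2⟩ := h.far_hi j (max (G.ρ s') (G.ρ (G.xr (G.an s'))))
      have ft := (h.feet ht pt).1
      refine key (fun i => G.ρ s' < i) t _ (fun _ _ _ _ _ _ _ => by omega) (fun _ _ => by omega) ?_
        ht pt (by omega) (Or.inl rfl) (fun k => by rw [(h.x_eq k).1] at b2; omega)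
        (fun k => by rw [(h.x_eq k).1] at b2; omega) fun k => ?_
      · by_contra c'
        exact hn ⟨fs ▸ hv, by omega, by omega⟩
      · have := h.bt_line hs ps hs' ps' l k (h.l_nv ft)
        omega
  have g3 : ∀ v ∈ G.V, G.f v = j → v ∉ G.Bt s s' →
      ∃ y ∈ BL G.Γ G.f (j - 1), Conn G.Γ O v y := by
    intro v hv e hn
    by_cases c : v ∈ G.Ct s ∨ v ∈ G.Ct s'
    · have e1 : G.nk s = G.nk s' := by
        by_contra k
        exact hn (TFrm.ct_bt k c)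
      have e2 : v = G.nk s := by
        rcases c with ⟨k | k, -⟩ | ⟨k | k, -⟩
        exacts [absurd (Or.inl k) hn, k, absurd (Or.inr (Or.inl k)) hn, Eq.trans k e1.symm]
      have hV := h.nk_v.1 (e2 ▸ hv)
      have ft := (h.feet hs ps).1
      have nb := h.ft_nb hs ps e1 hV
      obtain ⟨y, hy, c'⟩ := g1 _ ft nb
      exact ⟨y, hy, (Conn.step (o3 v hv e hn) (o1 _ ft nb) (e2 ▸ (h.vl _ hV).2)).trans c'⟩
    · rw [not_or] at c
      obtain ⟨hc, pc, vc⟩ := h.vc v hv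
      rw [e] at hc
      have nt : G.ch v ∉ G.Top s s' := fun k => (hN v hv k).elim c.1 c.2
      obtain ⟨y, hy, c'⟩ := g2 _ hc nt
      obtain ⟨A, a1, a2, a3, ⟨a, ha, ea⟩, a5⟩ := h.way' hc pc vc
      have sT := oT _ hc pc A a1 (a5 s c.1) (a5 s' c.2)
      exact ⟨y, hy, (((a3 v a2 a ha).up sT).snoc (sT ha) (o2 _ hc nt) ea.symm).trans c'⟩
  refine isConn_base (h.blc _) bl fun v hv => ?_
  rcases parts G.toFD j v with k | k | k | k | k
  · exact ⟨v, k, Conn.rfl'⟩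
  · exact g1 v k fun e => hv.1 (Or.inl (Or.inl e))
  · by_cases c : v ∈ G.V
    · exact g3 v c (st_lev hR (h.vst v c) k) fun e => hv.1 (Or.inl (Or.inl e))
    have hS : v ∈ G.S j := ⟨k, c⟩
    have h2 : v ∉ G.Im s s' := fun e => hv.1 (Or.inr e)
    obtain ⟨z, hz, hz'⟩ : ∃ z ∈ Nb G.Γ (G.Cp j v),
        G.Lf j (G.xr (G.an s)) s z ∨ G.Rg j (G.xl (G.an s')) s' z := by
      by_contra c'
      rw [TD.Im, fs] at h2
      exact h2 ⟨hS, fun z hz => ⟨fun a => c' ⟨z, hz, Or.inl a⟩, fun a => c' ⟨z, hz, Or.inr a⟩⟩⟩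
    have out : G.Cp j v ⊆ O := by
      intro y hy
      have yS := cp_sub hS hy
      refine ⟨?_, fun a => yS.1.2 (Or.inr a)⟩
      rintro ((a | a) | a)
      · exact (h.bt_st hs ps hs' ps' a).elim (fun a => yS.2 a.1) fun a => l_not_u' a yS.1.1
      · exact yS.1.2 (Or.inl (fs ▸ a.1))
      · exact h2 (tcl_cp a (fs ▸ Conn.symm hy))
    obtain ⟨n1, n2⟩ := h.side_out hs ps hs' ps' l hz'
    have kz : z ∈ G.L (j - 1) ∨ z ∈ G.L j ∨ (z ∈ G.V ∧ G.f z = j) := by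
      rcases hz' with (a | a | a) | a | a | a
      exacts [Or.inl a.1, Or.inr (Or.inl a.1), Or.inr (Or.inr ⟨a.1, a.2.1⟩), Or.inl a.1,
        Or.inr (Or.inl a.1), Or.inr (Or.inr ⟨a.1, a.2.1⟩)]
    obtain ⟨b, hb, c'⟩ : ∃ y ∈ BL G.Γ G.f (j - 1), Conn G.Γ O z y := by
      rcases kz with a | a | a
      exacts [g1 z a n1, g2 z a n2, g3 z a.1 a.2 n1]
    obtain ⟨y, hy, e⟩ := hz
    exact ⟨b, hb, (((cp_conn v v Conn.rfl' y hy).up out).snoc (out hy)
      (h.vZ_of hs kz n1 n2) e.symm).trans c'⟩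
  · exact g2 v k fun e => hv.1 (Or.inl (Or.inr e))
  · exact absurd k hv.2

/-- the static cell between two cuts is a disc -/
theorem TFrm.scell (lt : G.ρ s < G.ρ s') (hN : G.NoV s s') :
    SCell G.toFD j s s' (tcell G s s') := by
  have hR := h.toRows
  have l := lt.le
  have hI := h.tcell_I hs ps hs' ps'
  have oc := h.vout_conn hs ps hs' ps' l hN
  have hX := h.bt_pth hs ps hs' ps' l
  have st := fun v => h.bt_st hs ps hs' ps' (z := v)
  have vZ := fun v => h.vZ hs ps hs' ps' (v := v)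
  have nb := fun v z => h.in_nb hs ps hs' ps' hN (v := v) (z := z)
  obtain rfl := h.uw.lf j s hs
  have hY : Pth G.Γ (G.Top s s') (G.ord s s') s s' :=
    (hR.seg_pth hs hs' l).congr fun x hx => tord_old (h.l_nv hx.1)
  have dxy : Disjoint (G.Bt s s') (G.Top s s') := Set.disjoint_left.2 fun v hv k =>
    (st v hv).elim (fun c => h.l_nv k.1 c.1) fun c => l_not_u' c (hR.l_u k.1)
  have cZ : IsConn G.Γ (tcell G s s').Z := by
    obtain ⟨z, hz, hn, -⟩ := (ray_nb hR hs hs').1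
    obtain ⟨b, hb, eb⟩ := hz.1
    have e : (tcell G s s').Z = (tcell G s s').Z \ G.U (G.f s + 1) ∪ G.U (G.f s + 1) :=
      (Set.sdiff_union_of_subset fun v hv => vZ v (Or.inr hv)).symm
    rw [e]
    exact oc.union (h.uw.conn _) ⟨z, h.vZ_of hs (Or.inr (Or.inl hz))
      (fun k => (st z k).elim (fun c => h.l_nv hz c.1) fun c => l_not_u' c (hR.l_u hz)) hn,
      b, hb, eb⟩
  have t1 : ∀ v ∈ G.L (G.f s - 1), v ∈ Nb G.Γ (tcell G s s').Z := fun v hv =>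
    let ⟨b, hb, e⟩ := h.tch _ hv; ⟨b, vZ b (Or.inl hb), e⟩
  have t2 : ∀ v ∈ G.L (G.f s), v ∈ Nb G.Γ (tcell G s s').Z := fun v hv =>
    let ⟨b, hb, e⟩ := hv.1; ⟨b, vZ b (Or.inr hb), e⟩
  have stem : ∀ t ∈ G.L (G.f s), t ∈ G.Pr → ∀ p, G.Ft t p → ∀ (P : Set (Vx J)) σ b,
      Pth G.Γ P σ t b → b ∈ Nb G.Γ (tcell G s s').Z → P ⊆ {t} ∪ G.Ct t ∪ {p} →
      ∀ A0 : Set (Vx J), IsConn G.Γ A0 →
      (∀ x, x ∈ A0 ↔ (x ∈ G.Bt s s' ∨ x ∈ G.Top s s') ∧ x ∉ P) →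
      P ⊆ G.Bt s s' ∪ G.Top s s' → P ⊆ Nb G.Γ (tcell G s s').Z := by
    intro t ht pt p hp P σ b hP tb sC A0 cA hA sP u hu
    have dI : ∀ x ∈ G.Im s s', x ∉ G.Bt s s' ∪ G.Top s s' := fun x hx k =>
      (hI ▸ hx : x ∈ DD.I _) (Or.inr k)
    refine path_touch hR.pl hP (A := A0 ∪ G.Im s s') ?_ cZ (Set.disjoint_left.2 ?_)
      (Set.disjoint_left.2 ?_) (fun x hx => ?_) (t2 t ht) tb hu
    · refine isConn_base cA Set.subset_union_left ?_
      rintro v (hv | hv)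
      · exact ⟨v, hv, Conn.rfl'⟩
      · by_contra c
        refine h.hangC ht pt hp hv.1 fun z hz => ?_
        by_contra c'
        rw [not_or] at c'
        have m : z ∈ A0 := (hA z).2 ⟨(nb v z hv hz).resolve_left c'.1, fun k => c'.2 (sC k)⟩
        obtain ⟨y, hy, e⟩ := hz
        exact c ⟨z, m, ((cp_conn v v Conn.rfl' y hy).up fun x hx => Or.inr (tcl_cp hv hx)).snoc
          (Or.inr (tcl_cp hv hy)) (Or.inl m) e.symm⟩
    · rintro x (hx | hx) k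
      exacts [((hA x).1 hx).2 k, dI x hx (sP k)]
    · rintro x hx ((k | k) | k)
      exacts [hx (Or.inl ((hA x).1 k).1), hx (Or.inr k), hx (Or.inl (sP k))]
    · by_cases k : x ∈ P
      · exact Or.inr k
      · rcases Set.notMem_compl_iff.1 hx with c | c
        exacts [Or.inl (Or.inl ((hA x).2 ⟨c, k⟩)), Or.inl (Or.inr c)]
  have ra := (h.aa _ s hs ps).1.symm
  have rb := (h.aa _ s' hs' ps').1.symm
  have sgL := hR.seg_conn (G.f s) (p := fun i => G.ρ s ≤ i ∧ i < G.ρ s')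
    fun _ _ _ _ _ _ _ => by omega
  have sgR := hR.seg_conn (G.f s) (p := fun i => G.ρ s < i ∧ i ≤ G.ρ s')
    fun _ _ _ _ _ _ _ => by omega
  refine ⟨hs, hs', ⟨hX, hY, dxy, ra, rb, cZ, Set.disjoint_left.2 fun v hv k => hv (Or.inl k), ?_,
    ?_, hI ▸ h.in_fin hs ps hs' ps' l hN, h.nj.mono (Set.subset_univ _)⟩, rfl, rfl, rfl,
    fun v hv => tord_old (h.l_nv hv), fun v hv => ?_, oc,
    fun x hx l1 l2 z e => hI ▸ h.top_nb hs ps hs' ps' hN hx l1 l2 e⟩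
  · rintro v ⟨z, hz, e⟩
    by_contra k
    rcases h.in_adj hs ps hs' ps' hN (hI ▸ k) e with k1 | k1 | k1
    exacts [hz (Or.inr k1), hz (Or.inl (Or.inl k1)), hz (Or.inl (Or.inr k1))]
  · rintro v (hv | hv)
    swap
    · exact t2 v hv.1
    have hv : v ∈ G.Bt s s' := hv
    by_cases c : v ∈ G.V
    swap
    · exact t1 v (h.bt_line hs ps hs' ps' l hv c).1
    by_cases e : G.nk s = G.nk s'
    · have hV : G.an s ∈ G.V := (h.bt_v hv c).elim h.ct_v fun k => (h.nk_same e).2 (h.ct_v k)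
      have hV' := (h.nk_same e).1 hV
      have ft := (h.feet hs ps).1
      have tn : G.nk s ∈ Nb G.Γ (tcell G s s').Z := ⟨_, (h.vZ_of hs (Or.inl ft)
        (h.ft_nb hs ps e hV) fun k => l_not_u' ft (hR.l_u k.1)).1, (h.vl _ hV).2⟩
      have eB := tbt_pair e
      by_cases c1 : v = G.nk s
      · exact c1 ▸ tn
      rcases h.nk_cases e with e0 | ⟨-, e0 | e0⟩
      · rw [tbt_single e0] at hv
        obtain rfl : v = G.an s := hv
        refine ⟨G.nk s, (h.vZ_of hs (Or.inr (Or.inr ⟨h.nk_v.2 c, h.nk_f hs ps c⟩)) ?_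
          fun k => h.l_nv k.1 (h.nk_v.2 c)).1, (h.mv _ c).2.2.2.resolve_left (Ne.symm c1)⟩
        rw [tbt_single e0]
        exact Ne.symm c1
      · have eC : G.Ct s' = G.Bt s s' := by rw [h.ct_eq hV', eB, ← e, e0, Set.pair_comm]
        obtain ⟨σ, -, hP⟩ := h.cutP hs' ps' (Or.inl rfl)
        refine stem s' hs' ps' _ (Or.inl rfl) _ σ _ (hP hV') (e ▸ tn) Set.subset_union_left _ sgL
          (fun x => ⟨fun a => ⟨Or.inr ⟨a.1, a.2.1, a.2.2.le⟩, ?_⟩, ?_⟩) ?_ (Or.inr (eC ▸ hv))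
        · rintro (rfl | b)
          exacts [lt_irrefl _ a.2.2, h.l_nv a.1 b.2]
        · rintro ⟨a | a, b⟩
          exacts [absurd (Or.inr (eC ▸ a)) b,
            ⟨a.1, a.2.1, lt_of_le_of_ne a.2.2 fun c => b (Or.inl (hR.inj a.1 hs' c))⟩]
        · rintro x (rfl | a)
          exacts [Or.inr hY.hb, Or.inl (eC ▸ a)]
      · have eC : G.Ct s = G.Bt s s' := by rw [h.ct_eq hV, eB, e0]
        obtain ⟨σ, -, hP⟩ := h.cutP hs ps (Or.inl rfl)
        refine stem s hs ps _ (Or.inl rfl) _ σ _ (hP hV) tn Set.subset_union_left _ sgR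
          (fun x => ⟨fun a => ⟨Or.inr ⟨a.1, a.2.1.le, a.2.2⟩, ?_⟩, ?_⟩) ?_ (Or.inr (eC ▸ hv))
        · rintro (rfl | b)
          exacts [lt_irrefl _ a.2.1, h.l_nv a.1 b.2]
        · rintro ⟨a | a, b⟩
          exacts [absurd (Or.inr (eC ▸ a)) b,
            ⟨a.1, lt_of_le_of_ne a.2.1 fun c => b (Or.inl (hR.inj a.1 hs c.symm)), a.2.2⟩]
        · rintro x (rfl | a)
          exacts [Or.inr hY.ha, Or.inl (eC ▸ a)]
    have eB := h.bt_eq hs ps hs' ps' l e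
    have f1 := (h.feet hs ps).2.1
    have f2 := (h.feet hs' ps').1
    have m := (h.mono hs ps hs' ps' l).resolve_left e
    have b1 := fun x => h.ord_lo e (x := x)
    have b2 := fun x => h.ord_hi e (x := x)
    have un : ∀ {A B : Set (Vx J)} {a b}, IsConn G.Γ A → IsConn G.Γ B → (A.Nonempty → a ∈ A) →
        b ∈ B → G.Γ.Adj a b → IsConn G.Γ (A ∪ B) := by
      intro A B a b cA cB ha hb e
      rcases A.eq_empty_or_nonempty with rfl | ne
      · rwa [Set.empty_union]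
      · exact cA.union cB ⟨a, ha ne, b, hb, e⟩
    have r1 := tord_old (s := s) (s' := s') (h.l_nv f1)
    have r2 := tord_old (s := s) (s' := s') (h.l_nv f2)
    have m1 : G.xr (G.an s) ∈ G.Bt s s' := eB ▸ Or.inl (Or.inr ⟨f1, le_rfl, m⟩)
    have m2 : G.xl (G.an s') ∈ G.Bt s s' := eB ▸ Or.inl (Or.inr ⟨f2, m, le_rfl⟩)
    have tn : ∀ x ∈ G.Top s s', ∀ t p, p ∈ G.L (G.f s - 1) → x ≠ t →
        x ∉ {t} ∪ G.Ct t ∪ {p} := by
      rintro x hx t p hp n ((k | k) | rfl)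
      exacts [n k, h.l_nv hx.1 k.2, l_not_u' hp (hR.l_u hx.1)]
    rcases h.bt_v hv c with k | k
    · obtain ⟨σ, hP, -⟩ := h.cutP hs ps (Or.inr rfl)
      refine stem s hs ps _ (Or.inr rfl) _ σ _ hP (t1 _ f1) subset_rfl
        ({x | x ∈ G.Bt s s' ∧ G.ρ (G.xr (G.an s)) < G.ord s s' x} ∪
        {x | x ∈ G.L (G.f s) ∧ G.ρ s < G.ρ x ∧ G.ρ x ≤ G.ρ s'}) (un (hX.seg_conn (fun _ hw => hw.1)
          fun _ hy _ _ _ hw l _ => ⟨hw, lt_trans hy.2 l⟩) sgR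
        (fun ⟨y, hy⟩ => ⟨hX.hb, lt_of_lt_of_le hy.2 (hX.hi y hy.1)⟩) ⟨hs', lt, le_rfl⟩ rb)
        (fun x => ⟨?_, ?_⟩) ?_ (Or.inl (Or.inr k))
      · rintro (a | a)
        · refine ⟨Or.inl a.1, ?_⟩
          rintro ((rfl | b) | rfl)
          exacts [Set.disjoint_left.1 dxy a.1 hY.ha, lt_asymm a.2 (b1 x b), by
            have := a.2; omega]
        · exact ⟨Or.inr ⟨a.1, a.2.1.le, a.2.2⟩, tn x ⟨a.1, a.2.1.le, a.2.2⟩ _ _ f1
            (by rintro rfl; exact lt_irrefl _ a.2.1)⟩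
      · rintro ⟨a | a, b⟩
        · refine Or.inl ⟨a, ?_⟩
          rw [eB] at a
          rcases a with (a | a) | a
          · exact absurd (Or.inl (Or.inr a)) b
          · rw [tord_old (h.l_nv a.1)]
            exact lt_of_le_of_ne a.2.1 fun c => b (Or.inr (hR.inj a.1 f1 c.symm))
          · exact lt_of_le_of_lt m (b2 x a)
        · exact Or.inr ⟨a.1, lt_of_le_of_ne a.2.1 fun c =>
            b (Or.inl (Or.inl (hR.inj a.1 hs c.symm))), a.2.2⟩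
      · rintro x ((rfl | a) | rfl)
        exacts [Or.inr hY.ha, Or.inl (eB ▸ Or.inl (Or.inl a)), Or.inl m1]
    · obtain ⟨σ, hP, -⟩ := h.cutP hs' ps' (Or.inl rfl)
      refine stem s' hs' ps' _ (Or.inl rfl) _ σ _ hP (t1 _ f2) subset_rfl
        ({x | x ∈ G.Bt s s' ∧ G.ord s s' x < G.ρ (G.xl (G.an s'))} ∪
        {x | x ∈ G.L (G.f s) ∧ G.ρ s ≤ G.ρ x ∧ G.ρ x < G.ρ s'}) (un (hX.seg_conn (fun _ hw => hw.1)
          fun _ _ _ hy _ hw _ l => ⟨hw, lt_trans l hy.2⟩) sgL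
        (fun ⟨y, hy⟩ => ⟨hX.ha, lt_of_le_of_lt (hX.lo y hy.1) hy.2⟩) ⟨hs, le_rfl, lt⟩ ra)
        (fun x => ⟨?_, ?_⟩) ?_ (Or.inl (Or.inr k))
      · rintro (a | a)
        · refine ⟨Or.inl a.1, ?_⟩
          rintro ((rfl | b) | rfl)
          exacts [Set.disjoint_left.1 dxy a.1 hY.hb, lt_asymm a.2 (b2 x b), by
            have := a.2; omega]
        · exact ⟨Or.inr ⟨a.1, a.2.1, a.2.2.le⟩, tn x ⟨a.1, a.2.1, a.2.2.le⟩ _ _ f2
            (by rintro rfl; exact lt_irrefl _ a.2.2)⟩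
      · rintro ⟨a | a, b⟩
        · refine Or.inl ⟨a, ?_⟩
          rw [eB] at a
          rcases a with (a | a) | a
          · exact lt_of_lt_of_le (b1 x a) m
          · rw [tord_old (h.l_nv a.1)]
            exact lt_of_le_of_ne a.2.2 fun c => b (Or.inr (hR.inj a.1 f2 c))
          · exact absurd (Or.inl (Or.inr a)) b
        · exact Or.inr ⟨a.1, a.2.1, lt_of_le_of_ne a.2.2 fun c =>
            b (Or.inl (Or.inl (hR.inj a.1 hs' c)))⟩
      · rintro x ((rfl | a) | rfl)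
        exacts [Or.inr hY.hb, Or.inl (eB ▸ Or.inr a), Or.inl m2]
  · rintro (k | k)
    · rcases h.vlow hs ps hs' ps' (hI ▸ hv) with c | c
      exacts [c.2 (Or.inr k), l_not_u' c (h.uw.mono _ _ (by omega) k)]
    · rcases h.vlow hs ps hs' ps' (hI ▸ hv) with c | c
      exacts [c.2 (Or.inl k), l_not_u' c (hR.l_u k)]

end

end Pool.Agent.P.MP_08fd93_co.FP2
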